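import Mathlib
import Pool.Agent.H61.W.JFields
import Pool.Agent.H21.W.JRoom

set_option autoImplicit false

/-! # C6, J1: geometry of the levels of the junction step

`S : Setup σ` of `H61/W/JFields.lean`; `n = 2 h` tiles per cell, `R = n H`.
* `uLim` : every compact part of the slit strip lies in the rooms (`S.ULim`).
* `cor_spec`, `cor_lim`, `cor_ne`, `ky_cor_lt` : the corner nearest to a boundary point.
* `mark_lt_iff` : clockwise order of the marks = reversed order of `ky`.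
* `cor_InW` : windows; `pAll` : the field `S.PAll`.
* `gp_spec` : the gap of `P` nearest to `x`.
* `InR_iff`, `InR_of_mem`, `room_margin` : lattice points of the room. -/

namespace Pool.Agent.H71.W

open Filter Topology Set
open Pool.Agent.H61.W Pool.Agent.H6.W Pool.Agent.H58.W Pool.Agent.H21.W
open Pool.Agent.Q1.M4 (lat Cell)

variable {σ : ℝ}

/-! ### Elementary consequences of `Ok` -/

section Box

variable {b : JBox} {δ : ℝ}

lemma H_pos (hb : b.Ok δ σ) : (0 : ℝ) < b.H := by exact_mod_cast hb.H0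

lemma M_pos (hb : b.Ok δ σ) : (0 : ℝ) < b.M := by exact_mod_cast hb.M0

lemma one_le_dH (hb : b.Ok δ σ) : 1 ≤ δ * b.H := by
  have h1 : (1 : ℝ) ≤ b.M := by exact_mod_cast hb.M0
  linarith [hb.M_le]

lemma d_pos (hb : b.Ok δ σ) : 0 < δ := by
  have h1 := one_le_dH hb
  have h2 := H_pos hb
  by_contra h
  have : δ * b.H ≤ 0 := mul_nonpos_of_nonpos_of_nonneg (not_lt.1 h) h2.le
  linarith

lemma nP_real (hb : b.Ok δ σ) : (b.X : ℝ) / b.M = nP b := by
  rw [div_eq_iff (M_pos hb).ne']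
  have := X_eq hb
  exact_mod_cast this

/-- half thickness of the chain in units of `H` -/
lemma thin (hb : b.Ok δ σ) : (b.τ : ℝ) + nP b + 1 ≤ 2 * δ * b.H := by
  have h1 := hb.τ_le
  rw [nP_real hb] at h1
  have h2 := hb.M_le
  have h3 := one_le_dH hb
  linarith

lemma st_mono' (hb : b.Ok δ σ) : ∀ i j, i < j → j < b.K → b.st i < b.st j := by
  intro i j hij
  induction j, hij using Nat.le_induction with
  | base => intro h; exact hb.st_mono i h
  | succ j hj ih => intro h; exact (ih (by omega)).trans (hb.st_mono j h)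

lemma st_lt_iff (hb : b.Ok δ σ) {i j : ℕ} (hi : i < b.K) (hj : j < b.K) :
    b.st i < b.st j ↔ i < j := by
  constructor
  · intro h
    by_contra hc
    rcases (not_lt.1 hc).lt_or_eq with h2 | h2
    · exact absurd (st_mono' hb j i h2 hi) (by omega)
    · rw [h2] at h; exact lt_irrefl _ h
  · exact fun h => st_mono' hb i j h hj

lemma st_le_iff (hb : b.Ok δ σ) {i j : ℕ} (hi : i < b.K) (hj : j < b.K) :
    b.st i ≤ b.st j ↔ i ≤ j := by
  rw [← not_lt, ← not_lt, st_lt_iff hb hj hi]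

/-- the corner to the right of `x`, if there is one -/
lemma cor_ge {c : Bool × ℝ} (h : ∃ i, i < b.K ∧ c.2 * b.H ≤ b.st i) :
    (cor b c).2 < b.K ∧ c.2 * b.H ≤ b.st (cor b c).2 := by
  have := Nat.sInf_mem (s := {i : ℕ | i < b.K ∧ c.2 * b.H ≤ b.st i}) h
  exact this

lemma cor_min {c : Bool × ℝ} {i : ℕ} (hi : i < b.K) (h : c.2 * b.H ≤ b.st i) : (cor b c).2 ≤ i :=
  Nat.sInf_le (s := {i : ℕ | i < b.K ∧ c.2 * b.H ≤ b.st i}) ⟨hi, h⟩

@[simp] lemma cor_fst (c : Bool × ℝ) : (cor b c).1 = c.1 := rfl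

/-- **The corner nearest to `c`.** -/
lemma cor_ok (hb : b.Ok δ σ) {c : Bool × ℝ} (hc : δ * (|c.2| + δ) ≤ 1) :
    (cor b c).2 < b.K ∧ c.2 * b.H ≤ b.st (cor b c).2 ∧
      (b.st (cor b c).2 : ℝ) < (c.2 + 2 * δ) * b.H := by
  have hH := H_pos hb
  have h1 := one_le_dH hb
  have hd := d_pos hb
  have h2 : δ * |((⌈c.2 * b.H⌉ : ℤ) : ℝ)| ≤ b.H := by
    have h3 : |((⌈c.2 * b.H⌉ : ℤ) : ℝ)| ≤ |c.2| * b.H + 1 := by
      have e1 := Int.le_ceil (c.2 * b.H)
      have e2 := Int.ceil_lt_add_one (c.2 * b.H)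
      have e3 : |((⌈c.2 * b.H⌉ : ℤ) : ℝ) - c.2 * b.H| ≤ 1 := by
        rw [abs_le]; constructor <;> linarith
      have e4 : |c.2 * b.H| = |c.2| * b.H := by rw [abs_mul, abs_of_pos hH]
      have e5 := abs_add_le (((⌈c.2 * b.H⌉ : ℤ) : ℝ) - c.2 * b.H) (c.2 * b.H)
      rw [sub_add_cancel, e4] at e5
      linarith
    calc δ * |((⌈c.2 * b.H⌉ : ℤ) : ℝ)| ≤ δ * (|c.2| * b.H + 1) :=
          mul_le_mul_of_nonneg_left h3 hd.le
      _ ≤ δ * (|c.2| * b.H + δ * b.H) := mul_le_mul_of_nonneg_left (by linarith) hd.le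
      _ = (δ * (|c.2| + δ)) * b.H := by ring
      _ ≤ 1 * b.H := mul_le_mul_of_nonneg_right hc hH.le
      _ = b.H := one_mul _
  obtain ⟨i, hi, h3, h4⟩ := hb.dense _ h2
  have h5 : c.2 * b.H ≤ b.st i := (Int.le_ceil _).trans (by exact_mod_cast h3)
  obtain ⟨h6, h7⟩ := cor_ge ⟨i, hi, h5⟩
  have h8 := cor_min hi h5
  have h9 : (b.st (cor b c).2 : ℝ) ≤ b.st i := by
    exact_mod_cast (st_le_iff hb h6 hi).2 h8
  have h10 := Int.ceil_lt_add_one (c.2 * b.H)
  refine ⟨h6, h7, ?_⟩
  calc (b.st (cor b c).2 : ℝ) ≤ b.st i := h9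
    _ < (⌈c.2 * b.H⌉ : ℝ) + δ * b.H := h4
    _ < (c.2 + 2 * δ) * b.H := by linarith

/-- **Clockwise order = reversed order of `ky`.** -/
theorem mark_lt_iff (hb : b.Ok δ σ) {n : ℤ} (hn : 0 < n) {c c' : Bool × ℕ} (hc : c.2 < b.K)
    (hc' : c'.2 < b.K) : b.mark n c < b.mark n c' ↔ ky b c' < ky b c := by
  obtain ⟨s, i⟩ := c
  obtain ⟨s', j⟩ := c'
  simp only at hc hc'
  have hi := hb.st_lo i hc
  have hj := hb.st_lo j hc'
  have key := st_lt_iff hb hc hc'
  have key' := st_lt_iff hb hc' hc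
  unfold JBox.mark ky
  cases s <;> cases s' <;> simp only [Bool.false_eq_true, if_false, if_true]
  · -- both floor
    constructor
    · intro h
      by_contra hcon
      have h1 : i ≤ j := by omega
      have h2 := (st_le_iff hb hc hc').2 h1
      nlinarith
    · intro h
      have h1 : j < i := by omega
      have h2 := key'.2 h1
      nlinarith
  · constructor
    · intro h; exfalso; nlinarith
    · intro h; omega
  · constructor
    · intro _; omega
    · intro _; nlinarith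
  · constructor
    · intro h
      by_contra hcon
      have h1 : j ≤ i := by omega
      have h2 := (st_le_iff hb hc' hc).2 h1
      nlinarith
    · intro h
      have h1 : i < j := by omega
      have h2 := key.2 h1
      nlinarith

/-- corners in different windows -/
theorem ky_lt_of_InW (hb : b.Ok δ σ) {L g t t' : ℕ} (htt : t < t') {c c' : Bool × ℕ}
    (hc : b.InW L g t c) (hc' : b.InW L g t' c') : ky b c' < ky b c := by
  obtain ⟨s, i⟩ := c
  obtain ⟨s', j⟩ := c'
  obtain ⟨h0, h⟩ := hc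
  obtain ⟨h0', h'⟩ := hc'
  simp only at h0 h0' h h'
  have key := st_lt_iff hb h0 h0'
  have key' := st_lt_iff hb h0' h0
  have hH : (0 : ℤ) < b.H := by exact_mod_cast hb.H0
  have htt' : (t : ℤ) + 1 ≤ t' := by exact_mod_cast htt
  unfold ky
  rcases h with ⟨a1, a2, a3, a4⟩ | ⟨a1, a2, a3, a4, a5⟩ <;>
    rcases h' with ⟨c1, c2, c3, c4⟩ | ⟨c1, c2, c3, c4, c5⟩ <;> subst a1 <;> subst c1 <;>
      simp only [Bool.false_eq_true, if_false, if_true]
  · have h1 : ((t : ℤ) - L * g + 1) * b.H ≤ ((t' : ℤ) - L * g) * b.H :=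
      mul_le_mul_of_nonneg_right (by linarith) hH.le
    have h2 : (g : ℤ) * b.st i < g * b.st j := by linarith
    have h3 : b.st i < b.st j := lt_of_mul_lt_mul_left h2 (by positivity)
    have := key.1 h3
    omega
  · omega
  · omega
  · have h1 : (3 * L * g - (t' : ℤ)) * b.H ≤ (3 * L * g - 1 - (t : ℤ)) * b.H :=
      mul_le_mul_of_nonneg_right (by linarith) hH.le
    have h2 : (g : ℤ) * b.st j < g * b.st i := by linarith
    have h3 : b.st j < b.st i := lt_of_mul_lt_mul_left h2 (by positivity)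
    have := key'.1 h3
    omega

/-- the pivotal event for all marks in the windows implies the one for `c1 .. c4` -/
lemma allPiv_Pv4 (hb : b.Ok δ σ) {h L g t1 t2 t3 t4 : ℕ} {w : Bool} (hh : 0 < h) (h12 : t1 < t2)
    (h23 : t2 < t3) (h34 : t3 < t4) {c1 c2 c3 c4 : Bool × ℕ} (g1 : b.InW L g t1 c1)
    (g2 : b.InW L g t2 c2) (g3 : b.InW L g t3 c3) (g4 : b.InW L g t4 c4) {ω : Finset (ℤ × ℤ)}
    (hω : b.AllPiv h L g w t1 t2 t3 t4 ω) : Pv4 b h w c1 c2 c3 c4 ω := by
  have hn : (0 : ℤ) < 2 * h := by positivity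
  have m12 := (mark_lt_iff hb hn g1.1 g2.1).2 (ky_lt_of_InW hb h12 g1 g2)
  have m23 := (mark_lt_iff hb hn g2.1 g3.1).2 (ky_lt_of_InW hb h23 g2 g3)
  have m34 := (mark_lt_iff hb hn g3.1 g4.1).2 (ky_lt_of_InW hb h34 g3 g4)
  refine ⟨1, ?_, ?_⟩
  · rw [Fin.strictMono_iff_lt_succ]
    intro i
    fin_cases i
    · simpa using m12
    · simpa using m23
    · simpa using m34
  · simpa using hω c1 c2 c3 c4 g1 g2 g3 g4

/-! ### The room in tiles -/

/-- **Rows of the room in tiles.** -/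
theorem InR_iff (hb : b.Ok δ σ) (hd : δ ≤ 1) {n x y : ℤ} :
    InR b n x y ↔ dst (y / n) < Ht b ∧ Ar b (y / n) ≤ x / n ∧ x / n < b.X := by
  unfold InR InQ
  exact mem_room hb hd

/-- cells of the room, macroscopic sufficient condition -/
lemma cell_room (hb : b.Ok δ σ) (hd : δ ≤ 1) {x y : ℤ} (h1 : dst y < b.H) (h2 : -(b.X : ℤ) ≤ x)
    (h3 : x < b.X) (h4 : 0 ≤ x ∨ (b.τ : ℤ) + nP b ≤ dst y) :
    (x, y) ∈ b.Q ∧ chn 0 b.M b.τ (x, y) = none := by
  rw [mem_room hb hd]
  have hM : (0 : ℤ) < b.M := by exact_mod_cast hb.M0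
  refine ⟨by unfold Ht; omega, ?_, h3⟩
  unfold Ar
  rcases ArD_le hb hd (dst_nonneg y) h1 with ⟨g1, g2, g3⟩ | ⟨g1, g2⟩
  · rw [g2]
    rcases h4 with h4 | h4
    · have : (0 : ℤ) ≤ ((dst y - b.τ + 1).toNat : ℤ) * b.M := by positivity
      linarith
    · omega
  · rw [g2]; exact h2

/-- an open part of the macroscopic room -/
lemma sub_Ur (hb : b.Ok δ σ) (hd : δ ≤ 1) :
    {z : ℂ | |z.im| < 1 ∧ |z.re| * b.H < b.X ∧
      (0 < z.re ∨ (b.τ : ℝ) + nP b + 1 < |z.im| * b.H)} ⊆ Ur b := by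
  have hH := H_pos hb
  unfold Ur
  refine interior_maximal ?_ ?_
  · intro z hz
    obtain ⟨h1, h2, h3⟩ := hz
    have a1 := Int.floor_le (z.im * b.H)
    have a2 := Int.lt_floor_add_one (z.im * b.H)
    have b1 := Int.floor_le (z.re * b.H)
    have b2 := Int.lt_floor_add_one (z.re * b.H)
    have c1 := abs_lt.1 h1
    have e1 : |z.re| * b.H = |z.re * b.H| := by rw [abs_mul, abs_of_pos hH]
    rw [e1] at h2
    have c2 := abs_lt.1 h2
    refine cell_room hb hd ?_ ?_ ?_ ?_
    · rw [dst_lt]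
      constructor
      · have : -(b.H : ℝ) < ⌊z.im * b.H⌋ + 1 := by nlinarith
        have : -(b.H : ℤ) < ⌊z.im * b.H⌋ + 1 := by exact_mod_cast this
        omega
      · have : (⌊z.im * b.H⌋ : ℝ) < b.H := by nlinarith
        exact_mod_cast this
    · have : -(b.X : ℝ) < ⌊z.re * b.H⌋ + 1 := by linarith
      have : -(b.X : ℤ) < ⌊z.re * b.H⌋ + 1 := by exact_mod_cast this
      omega
    · have : (⌊z.re * b.H⌋ : ℝ) < b.X := by linarith
      exact_mod_cast this
    · rcases h3 with h3 | h3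
      · left
        exact Int.floor_nonneg.2 (by positivity)
      · right
        have e2 : |z.im| * b.H = |z.im * b.H| := by rw [abs_mul, abs_of_pos hH]
        rw [e2, lt_abs] at h3
        unfold dst
        rcases h3 with h3 | h3
        · have h4 : (b.τ : ℝ) + nP b < ⌊z.im * b.H⌋ := by linarith
          have h5 : (b.τ : ℤ) + nP b < ⌊z.im * b.H⌋ := by exact_mod_cast h4
          rw [if_pos (by omega)]
          omega
        · have h4 : (⌊z.im * b.H⌋ : ℝ) < -(b.τ : ℝ) - nP b - 1 := by linarith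
          have h5 : ⌊z.im * b.H⌋ < -(b.τ : ℤ) - nP b - 1 := by exact_mod_cast h4
          rw [if_neg (by omega)]
          omega
  · have hc1 : Continuous fun z : ℂ => |z.im| := continuous_abs.comp Complex.continuous_im
    have hc2 : Continuous fun z : ℂ => |z.re| * b.H :=
      (continuous_abs.comp Complex.continuous_re).mul continuous_const
    have hc3 : Continuous fun z : ℂ => |z.im| * b.H := hc1.mul continuous_const
    have o1 : IsOpen {z : ℂ | |z.im| < 1} := isOpen_lt hc1 continuous_const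
    have o2 : IsOpen {z : ℂ | |z.re| * b.H < b.X} := isOpen_lt hc2 continuous_const
    have o3 : IsOpen {z : ℂ | 0 < z.re} := isOpen_lt continuous_const Complex.continuous_re
    have o4 : IsOpen {z : ℂ | (b.τ : ℝ) + nP b + 1 < |z.im| * b.H} := isOpen_lt continuous_const hc3
    exact o1.inter (o2.inter (o3.union o4))

/-- the floor of a lattice coordinate -/
lemma floor_lat {H n : ℤ} (hH : 0 < H) (hn : 0 < n) (x : ℤ) :
    ⌊(x : ℝ) / (n * H) * H⌋ = x / n := by
  have hH' : (0 : ℝ) < H := by exact_mod_cast hH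
  have hn' : (0 : ℝ) < n := by exact_mod_cast hn
  have e : (x : ℝ) / (n * H) * H = x / n := by field_simp
  rw [e, Int.floor_eq_iff]
  constructor
  · rw [le_div_iff₀ hn']
    exact_mod_cast Int.ediv_mul_le x hn.ne'
  · rw [div_lt_iff₀ hn']
    exact_mod_cast Int.lt_ediv_add_one_mul_self x hn

lemma lat_re (v : ℤ × ℤ) (R : ℝ) : (lat v / (R : ℂ)).re = v.1 / R := by
  rw [Complex.div_ofReal_re]; rfl

lemma lat_im (v : ℤ × ℤ) (R : ℝ) : (lat v / (R : ℂ)).im = v.2 / R := by
  rw [Complex.div_ofReal_im]; rfl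

/-- **Lattice points of the macroscopic room are tiles of the room.** -/
theorem InR_of_mem (hb : b.Ok δ σ) {h : ℕ} (hh : 0 < h) {v : ℤ × ℤ}
    (hv : lat v / ((2 * h * b.H : ℝ) : ℂ) ∈ Ur b) : InR b (2 * h) v.1 v.2 := by
  have h1 := interior_subset hv
  simp only [mem_ofPred_eq, lat_re, lat_im] at h1
  have hH : (0 : ℤ) < b.H := by exact_mod_cast hb.H0
  have hn : (0 : ℤ) < 2 * h := by positivity
  have e1 := floor_lat hH hn v.1
  have e2 := floor_lat hH hn v.2
  push_cast at e1 e2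
  rw [e1, e2] at h1
  exact h1

end Box

/-! ### Levels -/

namespace Setup

variable (S : Pool.Agent.H61.W.Setup σ)

lemma ev_d {c : ℝ} (hc : 0 < c) : ∀ᶠ k in atTop, S.δ k < c :=
  S.lim.eventually (gt_mem_nhds hc)

lemma ev_cor (x : ℝ) : ∀ᶠ k in atTop, S.δ k * (|x| + S.δ k) ≤ 1 := by
  have h1 : Tendsto (fun k => S.δ k * (|x| + S.δ k)) atTop (𝓝 (0 * (|x| + 0))) :=
    S.lim.mul (tendsto_const_nhds.add S.lim)
  rw [zero_mul] at h1
  filter_upwards [h1.eventually (gt_mem_nhds one_pos)] with k hk using le_of_lt hk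

/-- **`ULim`.** -/
theorem uLim : S.ULim := by
  intro K hK hKc
  -- a continuous positive function on the slit strip
  let f : ℂ → ℝ := fun z => min (1 - |z.im|) (max z.re |z.im|)
  have hf : Continuous f := by
    refine Continuous.min (continuous_const.sub (continuous_abs.comp Complex.continuous_im)) ?_
    exact Complex.continuous_re.max (continuous_abs.comp Complex.continuous_im)
  have hpos : ∀ z ∈ K, 0 < f z := by
    intro z hz
    have h1 := hK hz
    refine lt_min (by linarith [h1.1]) ?_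
    rw [lt_max_iff]
    by_cases h2 : z.im = 0
    · left
      by_contra h3
      exact h1.2 ⟨h2, not_lt.1 h3⟩
    · right
      exact abs_pos.2 h2
  rcases K.eq_empty_or_nonempty with rfl | hne
  · exact Eventually.of_forall fun k => empty_subset _
  obtain ⟨z0, hz0, hmin⟩ := hKc.exists_isMinOn hne hf.continuousOn
  set e := f z0 with he
  have hepos : 0 < e := hpos z0 hz0
  obtain ⟨A, hA⟩ := hKc.isBounded.exists_norm_le
  have hA0 : 0 ≤ A := (norm_nonneg _).trans (hA z0 hz0)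
  filter_upwards [ev_d S one_pos, ev_d S (show 0 < e / 2 by positivity),
    ev_d S (show 0 < 1 / (A + 1) by positivity)] with k h1 h2 h3
  have hb := S.ok k
  have hH := H_pos hb
  have hd := S.pos k
  intro z hz
  refine sub_Ur hb h1.le ?_
  have hfz : e ≤ f z := hmin hz
  have g1 : e ≤ 1 - |z.im| := hfz.trans (min_le_left _ _)
  have g2 : e ≤ max z.re |z.im| := hfz.trans (min_le_right _ _)
  refine ⟨by linarith, ?_, ?_⟩
  · have h4 : |z.re| ≤ A := (Complex.abs_re_le_norm z).trans (hA z hz)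
    have h5 : S.δ k * (A + 1) < 1 := by
      rw [lt_div_iff₀ (by positivity)] at h3
      exact h3
    have h6 := hb.X_ge
    have h7 : S.δ k * (|z.re| * (S.B k).H) < S.δ k * (S.B k).X := by
      calc S.δ k * (|z.re| * (S.B k).H) ≤ S.δ k * (A * (S.B k).H) := by gcongr
        _ = (S.δ k * A) * (S.B k).H := by ring
        _ < 1 * (S.B k).H := by
            apply mul_lt_mul_of_pos_right _ hH
            nlinarith
        _ = (S.B k).H := one_mul _
        _ ≤ S.δ k * (S.B k).X := h6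
    exact lt_of_mul_lt_mul_left h7 hd.le
  · rw [le_max_iff] at g2
    rcases g2 with g2 | g2
    · left; linarith
    · right
      have h8 := thin hb
      calc ((S.B k).τ : ℝ) + nP (S.B k) + 1 ≤ 2 * S.δ k * (S.B k).H := h8
        _ < e * (S.B k).H := mul_lt_mul_of_pos_right (by linarith) hH
        _ ≤ |z.im| * (S.B k).H := mul_le_mul_of_nonneg_right g2 hH.le

/-- **The corner nearest to a boundary point.** -/
theorem cor_spec (c : Bool × ℝ) : ∀ᶠ k in atTop, (cor (S.B k) c).2 < (S.B k).K ∧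
    c.2 * (S.B k).H ≤ (S.B k).st (cor (S.B k) c).2 ∧
    ((S.B k).st (cor (S.B k) c).2 : ℝ) < (c.2 + 2 * S.δ k) * (S.B k).H := by
  filter_upwards [ev_cor S c.2] with k hk using cor_ok (S.ok k) hk

theorem cor_lim (c : Bool × ℝ) :
    Tendsto (fun k => ((S.B k).st (cor (S.B k) c).2 : ℝ) / (S.B k).H) atTop (𝓝 c.2) := by
  have h1 : Tendsto (fun k => c.2 + 2 * S.δ k) atTop (𝓝 (c.2 + 2 * 0)) :=
    tendsto_const_nhds.add (tendsto_const_nhds.mul S.lim)
  rw [mul_zero, add_zero] at h1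
  refine tendsto_of_tendsto_of_tendsto_of_le_of_le' tendsto_const_nhds h1 ?_ ?_
  · filter_upwards [cor_spec S c] with k hk
    rw [le_div_iff₀ (H_pos (S.ok k))]
    exact hk.2.1
  · filter_upwards [cor_spec S c] with k hk
    rw [div_le_iff₀ (H_pos (S.ok k))]
    exact hk.2.2.le

/-- the abscissas of the corners of `b`, `c` are in the order of `b.2`, `c.2` -/
theorem st_cor_lt {b c : Bool × ℝ} (h : b.2 < c.2) :
    ∀ᶠ k in atTop, (S.B k).st (cor (S.B k) b).2 < (S.B k).st (cor (S.B k) c).2 := by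
  filter_upwards [cor_spec S b, cor_spec S c, ev_d S (show 0 < (c.2 - b.2) / 2 by linarith)]
    with k h1 h2 h3
  have hH := H_pos (S.ok k)
  have : ((S.B k).st (cor (S.B k) b).2 : ℝ) < (S.B k).st (cor (S.B k) c).2 := by
    calc ((S.B k).st (cor (S.B k) b).2 : ℝ) < (b.2 + 2 * S.δ k) * (S.B k).H := h1.2.2
      _ < c.2 * (S.B k).H := mul_lt_mul_of_pos_right (by linarith) hH
      _ ≤ _ := h2.2.1
  exact_mod_cast this

theorem idx_cor_lt {b c : Bool × ℝ} (h : b.2 < c.2) :
    ∀ᶠ k in atTop, (cor (S.B k) b).2 < (cor (S.B k) c).2 := by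
  filter_upwards [cor_spec S b, cor_spec S c, st_cor_lt S h] with k h1 h2 h3
  exact (st_lt_iff (S.ok k) h1.1 h2.1).1 h3

theorem cor_ne {b c : Bool × ℝ} (h : b ≠ c) : ∀ᶠ k in atTop, cor (S.B k) b ≠ cor (S.B k) c := by
  by_cases h1 : b.1 = c.1
  · have h2 : b.2 ≠ c.2 := fun h2 => h (Prod.ext h1 h2)
    rcases h2.lt_or_gt with h2 | h2
    · filter_upwards [idx_cor_lt S h2] with k hk hc
      rw [hc] at hk; exact lt_irrefl _ hk
    · filter_upwards [idx_cor_lt S h2] with k hk hc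
      rw [hc] at hk; exact lt_irrefl _ hk
  · refine Eventually.of_forall fun k hc => h1 ?_
    have h2 := congrArg Prod.fst hc
    exact h2

/-- order of the angles -/
lemma ang_lt_iff (b c : Bool × ℝ) : ang b < ang c ↔
    (b.1 = false ∧ c.1 = true) ∨ (b.1 = false ∧ c.1 = false ∧ b.2 < c.2) ∨
      (b.1 = true ∧ c.1 = true ∧ c.2 < b.2) := by
  have hpos : ∀ x : ℝ, 0 < Real.arctan (Real.exp (-(Real.pi * x / 2))) := fun x =>
    Real.arctan_pos.2 (Real.exp_pos _)
  have hmono : ∀ x y : ℝ, Real.arctan (Real.exp (-(Real.pi * x / 2))) <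
      Real.arctan (Real.exp (-(Real.pi * y / 2))) ↔ y < x := by
    intro x y
    rw [Real.arctan_strictMono.lt_iff_lt, Real.exp_lt_exp]
    have := Real.pi_pos
    constructor
    · intro h; by_contra hc; nlinarith
    · intro h; nlinarith
  obtain ⟨s, x⟩ := b
  obtain ⟨t, y⟩ := c
  have h1 := hpos x
  have h2 := hpos y
  have h3 := hmono x y
  have h4 := hmono y x
  unfold ang sgn
  cases s <;> cases t <;> simp only [Bool.false_eq_true, if_false, if_true, true_and, false_and,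
    and_false, or_false, false_or, and_true, reduceCtorEq, and_self]
  · constructor
    · intro h; exact h4.1 (by linarith)
    · intro h; linarith [h4.2 h]
  · exact ⟨fun _ => trivial, fun _ => by linarith⟩
  · constructor
    · intro h; linarith
    · exact fun h => h.elim
  · constructor
    · intro h; exact h3.1 (by linarith)
    · intro h; linarith [h3.2 h]

/-- **The order `ky` of the corners is the order of the angles.** -/
theorem ky_cor_lt {b c : Bool × ℝ} (h : ang b < ang c) :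
    ∀ᶠ k in atTop, ky (S.B k) (cor (S.B k) b) < ky (S.B k) (cor (S.B k) c) := by
  rw [ang_lt_iff] at h
  rcases h with ⟨h1, h2⟩ | ⟨h1, h2, h3⟩ | ⟨h1, h2, h3⟩
  · filter_upwards [cor_spec S b, cor_spec S c] with k g1 g2
    unfold ky
    rw [cor_fst, cor_fst, h1, h2]
    simp only [Bool.false_eq_true, if_false, if_true]
    have := g1.1; have := g2.1
    omega
  · filter_upwards [cor_spec S b, cor_spec S c, idx_cor_lt S h3] with k g1 g2 g3
    unfold ky
    rw [cor_fst, cor_fst, h1, h2]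
    simp only [Bool.false_eq_true, if_false]
    omega
  · filter_upwards [cor_spec S b, cor_spec S c, idx_cor_lt S h3] with k g1 g2 g3
    unfold ky
    rw [cor_fst, cor_fst, h1, h2]
    simp only [if_true]
    omega

lemma ang_ne {b c : Bool × ℝ} (h : b ≠ c) : ang b ≠ ang c := by
  intro he
  have h1 : ¬ ang b < ang c := by rw [he]; exact lt_irrefl _
  have h2 : ¬ ang c < ang b := by rw [he]; exact lt_irrefl _
  rw [ang_lt_iff] at h1 h2
  obtain ⟨s, x⟩ := b
  obtain ⟨t, y⟩ := c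
  cases s <;> cases t <;> simp at h1 h2 h
  · exact h (le_antisymm h2 h1)
  · exact h (le_antisymm h1 h2)

theorem ky_cor_iff {b c : Bool × ℝ} (h : b ≠ c) : ∀ᶠ k in atTop,
    (ky (S.B k) (cor (S.B k) b) < ky (S.B k) (cor (S.B k) c) ↔ ang b < ang c) := by
  rcases (ang_ne h).lt_or_gt with h1 | h1
  · filter_upwards [ky_cor_lt S h1] with k hk
    exact ⟨fun _ => h1, fun _ => hk⟩
  · filter_upwards [ky_cor_lt S h1] with k hk
    exact ⟨fun h => absurd hk (not_lt.2 h.le), fun h => absurd h1 (not_lt.2 h.le)⟩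

/-- **The corner of a point of a window is in the window.** -/
theorem cor_InW {L g t : ℕ} (hg : 0 < g) {c : Bool × ℝ} (hc : WinC L g t c) :
    ∀ᶠ k in atTop, (S.B k).InW L g t (cor (S.B k) c) := by
  have hg' : (0 : ℝ) < g := by exact_mod_cast hg
  obtain ⟨s, x⟩ := c
  have key : ∀ a : ℝ, a < g * x → g * x < a + 1 → ∀ᶠ k in atTop,
      a * (S.B k).H ≤ g * (S.B k).st (cor (S.B k) (s, x)).2 ∧
        g * ((S.B k).st (cor (S.B k) (s, x)).2 : ℝ) < (a + 1) * (S.B k).H := by
    intro a h1 h2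
    filter_upwards [cor_spec S (s, x), ev_d S (show 0 < (a + 1 - g * x) / (2 * g) by
      apply div_pos <;> linarith)] with k g1 g2
    have hH := H_pos (S.ok k)
    rw [lt_div_iff₀ (by positivity)] at g2
    constructor
    · calc a * (S.B k).H ≤ (g * x) * (S.B k).H := mul_le_mul_of_nonneg_right h1.le hH.le
        _ = g * (x * (S.B k).H) := by ring
        _ ≤ _ := mul_le_mul_of_nonneg_left g1.2.1 hg'.le
    · calc g * ((S.B k).st (cor (S.B k) (s, x)).2 : ℝ) < g * ((x + 2 * S.δ k) * (S.B k).H) :=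
            mul_lt_mul_of_pos_left g1.2.2 hg'
        _ = (g * x + S.δ k * (2 * g)) * (S.B k).H := by ring
        _ < (a + 1) * (S.B k).H := mul_lt_mul_of_pos_right (by linarith) hH
  rcases hc with ⟨a1, a2, a3, a4⟩ | ⟨a1, a2, a3, a4, a5⟩
  · filter_upwards [cor_spec S (s, x), key ((t : ℝ) - L * g) a3 (by linarith)] with k g1 g2
    refine ⟨g1.1, Or.inl ⟨a1, a2, ?_, ?_⟩⟩
    · exact_mod_cast g2.1
    · exact_mod_cast g2.2
  · filter_upwards [cor_spec S (s, x), key (3 * L * g - 1 - (t : ℝ)) a4 (by linarith)] with k g1 g2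
    refine ⟨g1.1, Or.inr ⟨a1, a2, a3, ?_, ?_⟩⟩
    · exact_mod_cast g2.1
    · have h3 := g2.2
      rw [show (3 * (L : ℝ) * g - 1 - (t : ℝ) + 1) = 3 * L * g - t by ring] at h3
      exact_mod_cast h3

/-- the scale is eventually positive -/
lemma ev_h (k : ℕ) : ∀ᶠ n in atTop, 0 < S.h k n :=
  (S.mono k).tendsto_atTop.eventually_gt_atTop 0

/-- **`PAll`.** -/
theorem pAll : S.PAll := by
  intro L g t1 t2 t3 t4 hL hg h12 h23 h34 h4 hb3 hb4 b1 b2 hb1 hb2
  filter_upwards [cor_InW S hg hb1, cor_InW S hg hb2, cor_InW S hg hb3, cor_InW S hg hb4]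
    with k g1 g2 g3 g4
  filter_upwards [ev_h S k] with n hn
  unfold Pool.Agent.H61.W.Setup.p pf JBox.PJ
  exact PB_mono fun ω _ hω =>
    allPiv_Pv4 (S.ok k) hn (by omega) (by omega) (by omega) g1 g2 g3 g4 hω

/-- **The gap of `P` nearest to `x`.** -/
theorem gp_spec {x : ℝ} (hx : x ∈ Ioo (-σ) 0) : ∀ᶠ k in atTop, ∃ j : ℕ, 0 < j ∧ j < (S.B k).m ∧
    (∀ n : ℤ, gp (S.B k) n x = -(j * (S.B k).M * n)) ∧
    x * (S.B k).H ≤ -((j : ℝ) * (S.B k).M) ∧
    -((j : ℝ) * (S.B k).M) < (x + S.δ k) * (S.B k).H := by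
  filter_upwards [ev_d S (show 0 < -x by linarith [hx.2])] with k hk
  have hb := S.ok k
  have hH := H_pos hb
  have hM := M_pos hb
  set q : ℝ := -x * (S.B k).H / (S.B k).M with hq
  have hq1 : 1 ≤ q := by
    rw [hq, le_div_iff₀ hM, one_mul]
    have h1 := hb.M_le
    nlinarith
  have hq2 : q < (S.B k).m := by
    rw [hq, div_lt_iff₀ hM, hb.len]
    have := hx.1
    nlinarith
  have h0 : 0 < ⌊q⌋ := Int.floor_pos.2 hq1
  have h1 := Int.floor_le q
  have h2 := Int.lt_floor_add_one q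
  obtain ⟨j, hj⟩ : ∃ j : ℕ, (j : ℤ) = ⌊q⌋ := ⟨⌊q⌋.toNat, by omega⟩
  have hj' : (j : ℝ) = ⌊q⌋ := by exact_mod_cast hj
  have hqM : q * (S.B k).M = -x * (S.B k).H := by
    rw [hq, div_mul_cancel₀ _ hM.ne']
  refine ⟨j, by omega, ?_, fun n => ?_, ?_, ?_⟩
  · have : (j : ℝ) < (S.B k).m := by rw [hj']; linarith
    exact_mod_cast this
  · unfold gp
    rw [← hq, ← hj]
  · rw [← hj'] at h1
    nlinarith
  · rw [← hj'] at h2
    have h3 := hb.M_le
    nlinarith

/-- the position of the gap in units of `R = n H` -/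
theorem gp_lim (x : ℝ) : Tendsto
    (fun k => -((⌊-x * (S.B k).H / (S.B k).M⌋ : ℝ) * (S.B k).M) / (S.B k).H) atTop (𝓝 x) := by
  have h1 : Tendsto (fun k => x + S.δ k) atTop (𝓝 (x + 0)) := tendsto_const_nhds.add S.lim
  rw [add_zero] at h1
  refine tendsto_of_tendsto_of_tendsto_of_le_of_le' tendsto_const_nhds h1 ?_ ?_
  · filter_upwards with k
    have hH := H_pos (S.ok k)
    have hM := M_pos (S.ok k)
    rw [le_div_iff₀ hH]
    have h2 := Int.floor_le (-x * (S.B k).H / (S.B k).M)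
    rw [le_div_iff₀ hM] at h2
    linarith
  · filter_upwards with k
    have hH := H_pos (S.ok k)
    have hM := M_pos (S.ok k)
    rw [div_le_iff₀ hH]
    have h2 := Int.lt_floor_add_one (-x * (S.B k).H / (S.B k).M)
    rw [div_lt_iff₀ hM] at h2
    have h3 := (S.ok k).M_le
    nlinarith

/-! ### Lattice points of the room -/

/-- **Room with a margin**: around every lattice point of a compact part of the room all tiles up to the
distance `η R` are tiles of the room. -/
theorem room_margin {k : ℕ} {K : Set ℂ} (hK : K ⊆ S.U k) (hKc : IsCompact K) :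
    ∃ η > 0, ∀ᶠ n in atTop, ∀ v : ℤ × ℤ, lat v / (S.R k n : ℂ) ∈ K → ∀ u : ℤ × ℤ,
      |((u.1 - v.1 : ℤ) : ℝ)| ≤ η * S.R k n → |((u.2 - v.2 : ℤ) : ℝ)| ≤ η * S.R k n →
      InR (S.B k) (2 * S.h k n) u.1 u.2 := by
  obtain ⟨ρ, hρ, hsub⟩ := hKc.exists_thickening_subset_open
    (show IsOpen (S.U k) from isOpen_interior) hK
  refine ⟨ρ / 4, by positivity, ?_⟩
  filter_upwards [ev_h S k] with n hn v hv u h1 h2
  have hH := H_pos (S.ok k)
  have hR : 0 < S.R k n := by
    unfold Pool.Agent.H61.W.Setup.R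
    have : (0 : ℝ) < S.h k n := by exact_mod_cast hn
    positivity
  refine InR_of_mem (S.ok k) hn ?_
  have h3 : lat u / (S.R k n : ℂ) ∈ Metric.thickening ρ K := by
    rw [Metric.mem_thickening_iff]
    refine ⟨_, hv, ?_⟩
    rw [Complex.dist_eq, ← sub_div]
    have e1 : ‖(lat u - lat v) / (S.R k n : ℂ)‖ = ‖lat u - lat v‖ / S.R k n := by
      rw [norm_div, Complex.norm_real, Real.norm_of_nonneg hR.le]
    rw [e1, div_lt_iff₀ hR]
    have e2 : lat u - lat v = ⟨((u.1 - v.1 : ℤ) : ℝ), ((u.2 - v.2 : ℤ) : ℝ)⟩ := by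
      apply Complex.ext <;> simp [lat]
    rw [e2]
    refine lt_of_le_of_lt (Complex.norm_le_abs_re_add_abs_im _) ?_
    simp only
    have : 0 < ρ * S.R k n := by positivity
    linarith
  have h4 := hsub h3
  exact h4

lemma room_mem {k n : ℕ} (hn : 0 < S.h k n) {v : ℤ × ℤ} (hv : lat v / (S.R k n : ℂ) ∈ S.U k) :
    InR (S.B k) (2 * S.h k n) v.1 v.2 :=
  InR_of_mem (S.ok k) hn hv

lemma R_pos {k n : ℕ} (hn : 0 < S.h k n) : 0 < S.R k n := by
  have hH := H_pos (S.ok k)
  unfold Pool.Agent.H61.W.Setup.R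
  have : (0 : ℝ) < S.h k n := by exact_mod_cast hn
  positivity

/-- coordinates of a lattice point in a disc -/
lemma near_of_ball {R r : ℝ} (hR : 0 < R) {v : ℤ × ℤ} {z : ℂ}
    (h : lat v / (R : ℂ) ∈ Metric.closedBall z r) :
    |(v.1 : ℝ) - z.re * R| ≤ r * R ∧ |(v.2 : ℝ) - z.im * R| ≤ r * R := by
  rw [Metric.mem_closedBall, Complex.dist_eq] at h
  have h1 := (Complex.abs_re_le_norm (lat v / (R : ℂ) - z)).trans h
  have h2 := (Complex.abs_im_le_norm (lat v / (R : ℂ) - z)).trans h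
  rw [Complex.sub_re, lat_re] at h1
  rw [Complex.sub_im, lat_im] at h2
  constructor
  · have e : (v.1 : ℝ) - z.re * R = ((v.1 : ℝ) / R - z.re) * R := by field_simp
    rw [e, abs_mul, abs_of_pos hR]
    exact mul_le_mul_of_nonneg_right h1 hR.le
  · have e : (v.2 : ℝ) - z.im * R = ((v.2 : ℝ) / R - z.im) * R := by field_simp
    rw [e, abs_mul, abs_of_pos hR]
    exact mul_le_mul_of_nonneg_right h2 hR.le

end Setup

end Pool.Agent.H71.W
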