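import Mathlib
import Pool.Agent.H71.W.JGeo
import Pool.Agent.H19.W.MoveC

set_option autoImplicit false
open Finset

/-! # J6: tiles of the J worlds near the slit

Band = rows `-H n ≤ y < H n`. Tiles of the box, of the layer, of the strand graph in the band; tiles of the
plates (`chn_tile`), raised plates (`rch`). -/

namespace Pool.Agent.H71.W

open Pool.Agent.H61.W Pool.Agent.H6.W Pool.Agent.H58.W Pool.Agent.H21.W Pool.Agent.H50.W
open Pool.Agent.H19.W (cx cy lt_cc cx_lt cy_lt)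
open Pool.Agent.H33.Q1 (lt tt TL ct mem_TL lt_odd)

variable {b : JBox} {δ σ : ℝ} {n : ℤ}

/-! ### Division -/

lemma le_div_iff' (hn : 0 < n) {a x : ℤ} : a ≤ x / n ↔ a * n ≤ x := Int.le_ediv_iff_mul_le hn

lemma div_lt_iff' (hn : 0 < n) {a x : ℤ} : x / n < a ↔ x < a * n := Int.ediv_lt_iff_lt_mul hn

/-! ### The box -/

lemma dst_div_lt (hn : 0 < n) {y : ℤ} {H : ℤ} : dst (y / n) < H ↔ -(H * n) ≤ y ∧ y < H * n := by
  rw [dst_lt, le_div_iff' hn, div_lt_iff' hn]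
  constructor
  · rintro ⟨h1, h2⟩; exact ⟨by linarith, h2⟩
  · rintro ⟨h1, h2⟩; exact ⟨by linarith, h2⟩

/-- the box in the band -/
lemma InQ_band (hb : b.Ok δ σ) (hn : 0 < n) {x y : ℤ} (h1 : -(b.H * n) ≤ y) (h2 : y < b.H * n) :
    InQ b n x y ↔ -(b.X * n) ≤ x ∧ x < b.X * n := by
  unfold InQ
  have h3 : dst (y / n) < b.H := (dst_div_lt hn).2 ⟨h1, h2⟩
  rw [mem_Q hb, if_pos h3, le_div_iff' hn, div_lt_iff' hn]
  constructor
  · rintro ⟨-, g1, g2⟩; exact ⟨by linarith, g1⟩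
  · rintro ⟨g1, g2⟩; exact ⟨by unfold Ht; omega, g2, by linarith⟩

/-- columns of the box -/
lemma InQ_col (hb : b.Ok δ σ) (hn : 0 < n) {x y : ℤ} (h : InQ b n x y) :
    -(b.X * n) ≤ x ∧ x < b.X * n := by
  unfold InQ at h
  rw [mem_Q hb] at h
  obtain ⟨h1, h2, h3⟩ := h
  have h4 : -(b.X : ℤ) ≤ x / n := by
    split_ifs at h3 with h5
    · exact h3
    · have := (hb.st_lo (dst (y / n) - b.H).toNat (by unfold Ht at h1; omega)).1
      linarith
  rw [div_lt_iff' hn] at h2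
  rw [le_div_iff' hn] at h4
  exact ⟨by linarith, h2⟩

/-- columns of the layer -/
lemma Ly_col (hb : b.Ok δ σ) (hn : 0 < n) {x y : ℤ} (h : Ly b n x y) :
    -(b.X * n) - 3 ≤ x ∧ x < b.X * n + 3 := by
  obtain ⟨-, i, j, hi, -, h1⟩ := h
  have := InQ_col hb hn h1
  rw [abs_le] at hi
  constructor <;> linarith [this.1, this.2, hi.1, hi.2]

/-- the layer in the inner band -/
lemma Ly_band (hb : b.Ok δ σ) (hn : 0 < n) {x y : ℤ} (h1 : -(b.H * n) ≤ y) (h2 : y < b.H * n) :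
    Ly b n x y ↔ (-(b.X * n) - 3 ≤ x ∧ x < -(b.X * n)) ∨ (b.X * n ≤ x ∧ x < b.X * n + 3) := by
  constructor
  · intro h
    have h3 := Ly_col hb hn h
    have h4 := h.1
    rw [InQ_band hb hn h1 h2] at h4
    omega
  · intro h
    have hX : (0 : ℤ) < b.X * n := mul_pos (by exact_mod_cast X_pos hb) hn
    refine ⟨?_, ?_⟩
    · rw [InQ_band hb hn h1 h2]; omega
    · rcases h with h | h
      · refine ⟨-(b.X * n) - x, 0, ?_, by norm_num, ?_⟩
        · rw [abs_le]; constructor <;> linarith [h.1, h.2]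
        · rw [add_zero, InQ_band hb hn h1 h2]; constructor <;> linarith
      · refine ⟨b.X * n - 1 - x, 0, ?_, by norm_num, ?_⟩
        · rw [abs_le]; constructor <;> linarith [h.1, h.2]
        · rw [add_zero, InQ_band hb hn h1 h2]; constructor <;> linarith

/-- the rows of the diagonal tiles -/
lemma dgt_row (hn : 0 < n) (c : Bool × ℕ) :
    ((b.H : ℤ) * n ≤ (dgt b n c).2) ∨ ((dgt b n c).2 < -(b.H * n)) := by
  unfold dgt cpt
  have h1 : ((b.H : ℤ) + c.2 + 1) * n = b.H * n + (c.2 + 1) * n := by ring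
  have h2 : (0 : ℤ) < (c.2 + 1) * n := by positivity
  rcases hc : c.1 with _ | _
  · right
    simp only [Bool.false_eq_true, if_false]
    rw [h1]; linarith
  · left
    simp only [if_true]
    rw [h1]; linarith

lemma mem_Lam {M : Finset (Bool × ℕ)} {e : ℤ × ℤ} : e ∈ Lam b n M ↔ (e.1 + e.2) % 2 = 1 ∧
    (InQ b n (cx e) (cy e) ∨ (Ly b n (cx e) (cy e) ∧ ∀ c ∈ M, (cx e, cy e) ≠ dgt b n c)) := by
  constructor
  · rintro ⟨x, y, rfl, h⟩
    rw [cx_lt, cy_lt]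
    exact ⟨lt_odd _, h⟩
  · rintro ⟨h1, h2⟩
    exact ⟨cx e, cy e, (lt_cc h1).symm, h2⟩

lemma Lam_odd {M : Finset (Bool × ℕ)} {e : ℤ × ℤ} (h : e ∈ Lam b n M) : (e.1 + e.2) % 2 = 1 :=
  (mem_Lam.1 h).1

/-- the strand graph in the band -/
lemma mem_Lam_band (hb : b.Ok δ σ) (hn : 0 < n) {M : Finset (Bool × ℕ)} {e : ℤ × ℤ}
    (h1 : -(b.H * n) ≤ cy e) (h2 : cy e < b.H * n) : e ∈ Lam b n M ↔
      (e.1 + e.2) % 2 = 1 ∧ -(b.X * n) - 3 ≤ cx e ∧ cx e < b.X * n + 3 := by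
  rw [mem_Lam, InQ_band hb hn h1 h2, Ly_band hb hn h1 h2]
  have hX : (0 : ℤ) < b.X * n := mul_pos (by exact_mod_cast X_pos hb) hn
  have hd : ∀ c ∈ M, (cx e, cy e) ≠ dgt b n c := by
    intro c _ hc
    have := congrArg Prod.snd hc
    simp only at this
    rcases dgt_row (b := b) hn c with h | h
    · rw [← this] at h; linarith
    · rw [← this] at h; linarith
  constructor
  · rintro ⟨g, h | ⟨h, -⟩⟩
    · exact ⟨g, by linarith, by linarith⟩
    · exact ⟨g, by omega, by omega⟩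
  · rintro ⟨g, g1, g2⟩
    refine ⟨g, ?_⟩
    by_cases h3 : -(b.X * n) ≤ cx e ∧ cx e < b.X * n
    · exact Or.inl h3
    · exact Or.inr ⟨by omega, hd⟩

/-- columns of the strand graph -/
lemma Lam_col (hb : b.Ok δ σ) (hn : 0 < n) {M : Finset (Bool × ℕ)} {e : ℤ × ℤ}
    (h : e ∈ Lam b n M) : -(b.X * n) - 3 ≤ cx e ∧ cx e < b.X * n + 3 := by
  rcases (mem_Lam.1 h).2 with h | ⟨h, -⟩
  · have := InQ_col hb hn h
    exact ⟨by linarith, by linarith⟩
  · exact Ly_col hb hn h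

/-- labels of the box -/
lemma mem_B {h : ℕ} (hh : 0 < h) {e : ℤ × ℤ} :
    e ∈ b.B h ↔ (e.1 + e.2) % 2 = 1 ∧ InQ b (2 * h) (cx e) (cy e) := by
  unfold JBox.B
  rw [mem_TL (by positivity)]
  rfl

/-- the deleted row -/
lemma mem_strD {v e : ℤ × ℤ} (ho : (e.1 + e.2) % 2 = 1) :
    e ∈ lt '' strD v ↔ cy e = v.2 ∧ v.1 ≤ cx e := by
  constructor
  · rintro ⟨p, hp, rfl⟩
    rw [cx_lt, cy_lt]
    exact hp
  · intro h
    exact ⟨(cx e, cy e), h, lt_cc ho⟩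

/-! ### Plates -/

/-- the plate `i` in tiles -/
lemma chn_tile (hM : 0 < b.M) (hn : 0 < n) {x y : ℤ} {i : ℕ} :
    chn 0 b.M b.τ (x / n, y / n) = some i ↔
      (-((i + 1) * b.M * n : ℤ) ≤ x ∧ x < -(i * b.M * n : ℤ)) ∧
      (-(((b.τ : ℤ) + i) * n) ≤ y ∧ y < ((b.τ : ℤ) + i) * n) := by
  rw [chn_some hM, pix_le]
  simp only
  rw [le_div_iff' hn, div_lt_iff' hn, le_div_iff' hn, div_lt_iff' hn]
  have e1 : (0 - (((i : ℕ) : ℤ) + 1) * b.M) * n = -((i + 1) * b.M * n : ℤ) := by ring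
  have e2 : (0 - ((i : ℕ) : ℤ) * b.M) * n = -(i * b.M * n : ℤ) := by ring
  have e3 : -((b.τ : ℤ) + i) * n = -(((b.τ : ℤ) + i) * n) := by ring
  rw [e1, e2, e3]

/-- index of the plate of a column -/
def pin (b : JBox) (n x : ℤ) : ℕ := ((-x - 1) / (b.M * n)).toNat

lemma pin_eq (hM : 0 < b.M) (hn : 0 < n) {x : ℤ} (hx : x < 0) {i : ℕ} : pin b n x = i ↔
    (-((i + 1) * b.M * n : ℤ) ≤ x ∧ x < -(i * b.M * n : ℤ)) := by
  have hMn : (0 : ℤ) < b.M * n := mul_pos (by exact_mod_cast hM) hn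
  unfold pin
  have h0 : 0 ≤ (-x - 1) / (b.M * n) := Int.ediv_nonneg (by omega) hMn.le
  have key : (-x - 1) / (b.M * n) = i ↔ i * (b.M * n) ≤ -x - 1 ∧ -x - 1 < (i + 1) * (b.M * n) := by
    rw [← le_div_iff' hMn, ← div_lt_iff' hMn]; omega
  have h1 : ((-x - 1) / (b.M * n)).toNat = i ↔ (-x - 1) / (b.M * n) = i := by omega
  rw [h1, key]
  have e1 : (i : ℤ) * (b.M * n) = i * b.M * n := by ring
  have e2 : ((i : ℤ) + 1) * (b.M * n) = (i + 1) * b.M * n := by ring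
  rw [e1, e2]
  constructor <;> rintro ⟨h3, h4⟩ <;> constructor <;> omega

/-- columns of a plate are negative -/
lemma plate_neg (hn : 0 < n) {x : ℤ} {i : ℕ} (h : x < -(i * b.M * n : ℤ)) : x < 0 := by
  have : (0 : ℤ) ≤ i * b.M * n := by positivity
  linarith

/-- the plates right of `xs` with one more row on their top -/
def rch (b : JBox) (n xs x y : ℤ) : Option ℕ :=
  if xs ≤ x ∧ x < 0 ∧ y = ((b.τ : ℤ) + pin b n x) * n then some (pin b n x)
  else chn 0 b.M b.τ (x / n, y / n)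

/-- tiles of the raised plate `i` -/
lemma rch_some (hM : 0 < b.M) (hn : 0 < n) {xs x y : ℤ} {i : ℕ} : rch b n xs x y = some i ↔
    (-((i + 1) * b.M * n : ℤ) ≤ x ∧ x < -(i * b.M * n : ℤ)) ∧ -(((b.τ : ℤ) + i) * n) ≤ y ∧
      (y < ((b.τ : ℤ) + i) * n ∨ (xs ≤ x ∧ y = ((b.τ : ℤ) + i) * n)) := by
  unfold rch
  split_ifs with h
  · obtain ⟨h1, h2, h3⟩ := h
    rw [Option.some.injEq]
    constructor
    · intro h4
      have h5 := (pin_eq hM hn h2).1 h4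
      rw [h4] at h3
      refine ⟨h5, ?_, Or.inr ⟨h1, h3⟩⟩
      rw [h3]
      have : (0 : ℤ) ≤ ((b.τ : ℤ) + i) * n := by positivity
      linarith
    · rintro ⟨h4, -⟩
      exact (pin_eq hM hn h2).2 h4
  · rw [chn_tile hM hn]
    constructor
    · rintro ⟨h1, h2, h3⟩
      exact ⟨h1, h2, Or.inl h3⟩
    · rintro ⟨h1, h2, h3 | ⟨h3, h4⟩⟩
      · exact ⟨h1, h2, h3⟩
      · exfalso
        have h5 := plate_neg (b := b) hn h1.2
        rw [← (pin_eq hM hn h5).2 h1] at h4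
        exact h ⟨h3, h5, h4⟩

lemma chn_rch (hM : 0 < b.M) (hn : 0 < n) {xs x y : ℤ} {i : ℕ}
    (h : chn 0 b.M b.τ (x / n, y / n) = some i) : rch b n xs x y = some i := by
  rw [chn_tile hM hn] at h
  rw [rch_some hM hn]
  exact ⟨h.1, h.2.1, Or.inl h.2.2⟩

/-- labels of `P` -/
lemma mem_Pl (hM : 0 < b.M) {h : ℕ} (hh : 0 < h) {e : ℤ × ℤ} : e ∈ b.Pl h ↔
    (e.1 + e.2) % 2 = 1 ∧ ∃ i < b.m, chn 0 b.M b.τ (cx e / (2 * h : ℤ), cy e / (2 * h : ℤ)) = some i := by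
  have hn : (0 : ℤ) < 2 * h := by positivity
  unfold JBox.Pl
  rw [mem_TL hn]
  refine and_congr Iff.rfl ?_
  unfold JBox.Pc Pool.Agent.H6.W.RC
  simp only [mem_biUnion, mem_range, mem_product, mem_Ico]
  refine exists_congr fun i => and_congr Iff.rfl ?_
  rw [chn_some hM, pix_le]
  unfold ct cx cy tt
  simp only [zero_sub]

end Pool.Agent.H71.W
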