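import Mathlib
import Pool.Agent.H71.W.J6A
import Pool.Agent.H82.W.S3

set_option autoImplicit false
open Finset

/-! # J6: the worlds of the moving end above the slit and the canonical world

`n = 2 h`; tile `(x, y) = (cx e, cy e)`.
* `slR y0 x1` : deleted row `y0` left of `x1` (behind the mark of `P`; X worlds: `x1` left of everything),
  `fA s x1 y0` : the part of the plates behind it which is flipped.
* `WA b h M L o s x1 y0 v` : world of the moving end `v` (`GX`, `GY`), chunk `P` in the state `o`, open labels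
  `L` of the outer layer.
* `WB b h M L o s x1 y0 xs Yd` : canonical world, string in the row `Yd` inside the slit, from `xs` to the
  right wall; right of `xs` the plates have one more row on their top and are flipped above `Yd`. -/

namespace Pool.Agent.H71.W

open Pool.Agent.H61.W Pool.Agent.H6.W Pool.Agent.H58.W Pool.Agent.H21.W Pool.Agent.H50.W
open Pool.Agent.H82.W Pool.Agent.H13.W
open Pool.Agent.H19.W (cx cy lt_cc cx_lt cy_lt)
open Pool.Agent.H33.Q1 (lt tt TL ct mem_TL lt_odd)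

/-- deleted row behind the mark of `P` -/
def slR (y0 x1 : ℤ) : Set (ℤ × ℤ) := {p | p.2 = y0 ∧ p.1 < x1}

/-- flipped part of the plates -/
def fA (s : Bool) (x1 y0 x y : ℤ) : Prop := x < x1 ∧ (if s then y0 < y else y < y0)

/-- the plate of the label `e` (one more row on the top of the plates right of `xs`) -/
def rpl (b : JBox) (n xs : ℤ) (e : ℤ × ℤ) : Option ℕ := rch b n xs (cx e) (cy e)

/-- the plate of the label `e` -/
def cpl (b : JBox) (n : ℤ) (e : ℤ × ℤ) : Option ℕ := chn 0 b.M b.τ (cx e / n, cy e / n)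

/-- block of a label for a plate function -/
def blk (p : ℤ × ℤ → Option ℕ) (e : ℤ × ℤ) : (ℤ × ℤ) ⊕ ℕ :=
  match p e with
  | none => Sum.inl e
  | some k => Sum.inr k

lemma blk_eq_iff {p : ℤ × ℤ → Option ℕ} {e e' : ℤ × ℤ} : blk p e = blk p e' ↔
    e = e' ∨ (p e ≠ none ∧ p e = p e') := by
  unfold blk
  rcases h1 : p e with _ | k <;> rcases h2 : p e' with _ | k'
  · simp
  · simp only [reduceCtorEq, ne_eq, not_true_eq_false, false_and, or_false, false_iff]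
    rintro rfl
    rw [h1] at h2; simp at h2
  · simp only [reduceCtorEq, ne_eq, not_false_eq_true, true_and, or_false, false_iff]
    rintro rfl
    rw [h1] at h2; simp at h2
  · simp only [Sum.inr.injEq, ne_eq, reduceCtorEq, not_false_eq_true, Option.some.injEq, true_and]
    constructor
    · intro h; exact Or.inr h
    · rintro (rfl | h)
      · rw [h1] at h2; simpa using h2
      · exact h

lemma blk_none {p : ℤ × ℤ → Option ℕ} {e : ℤ × ℤ} (h : p e = none) : blk p e = Sum.inl e := by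
  unfold blk; rw [h]

lemma blk_some {p : ℤ × ℤ → Option ℕ} {e : ℤ × ℤ} {k : ℕ} (h : p e = some k) :
    blk p e = Sum.inr k := by
  unfold blk; rw [h]

lemma blk_cpl (b : JBox) (n : ℤ) : blk (cpl b n) = bk n (chn 0 b.M b.τ) := by
  funext e
  rcases h : cpl b n e with _ | k
  · rw [blk_none h, bk_none (n := n) (pl := chn 0 b.M b.τ) (e := e) h]
  · rw [blk_some h, bk_some (n := n) (pl := chn 0 b.M b.τ) (e := e) h]

open Classical in
/-- **World of the moving end `v`.** -/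
noncomputable def WA (b : JBox) (h : ℕ) (M : Finset (Bool × ℕ)) (L : Finset (ℤ × ℤ)) (o s : Bool)
    (x1 y0 : ℤ) (v : ℤ × ℤ) : WD ((ℤ × ℤ) ⊕ ℕ) where
  Λ := Lam b (2 * h) M
  D := lt '' (strD v ∪ slR y0 x1)
  E := b.B h \ b.Pl h
  b := blk (cpl b (2 * h))
  F := (b.B h).filter fun e => (∃ i, b.m ≤ i ∧ cpl b (2 * h) e = some i) ∧ fA s x1 y0 (cx e) (cy e)
  W := L ∪ (b.B h).filter fun e => (∃ i < b.m, cpl b (2 * h) e = some i) ∧
      Xor (o = true) (fA s x1 y0 (cx e) (cy e))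

open Classical in
/-- **The canonical world.** -/
noncomputable def WB (b : JBox) (h : ℕ) (M : Finset (Bool × ℕ)) (L : Finset (ℤ × ℤ)) (o s : Bool)
    (x1 y0 xs Yd : ℤ) : WD ((ℤ × ℤ) ⊕ ℕ) where
  Λ := Lam b (2 * h) M
  D := lt '' (strD (xs, Yd) ∪ slR y0 x1)
  E := (b.B h).filter fun e => ¬ ∃ i < b.m, rpl b (2 * h) xs e = some i
  b := blk (rpl b (2 * h) xs)
  F := (b.B h).filter fun e => (∃ i, b.m ≤ i ∧ rpl b (2 * h) xs e = some i) ∧
    Xor (fA s x1 y0 (cx e) (cy e)) (xs ≤ cx e ∧ Yd < cy e)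
  W := L ∪ (b.B h).filter fun e => (∃ i < b.m, rpl b (2 * h) xs e = some i) ∧
      Xor (o = true) (Xor (fA s x1 y0 (cx e) (cy e)) (xs ≤ cx e ∧ Yd < cy e))

/-- the block: a rectangle of tiles -/
def Bk (xl xe ρ : ℤ) : Set (ℤ × ℤ) := {e | (xl ≤ cx e ∧ cx e < xe) ∧ (-ρ ≤ cy e ∧ cy e < ρ)}

/-- the strip -/
def St (b : JBox) (n xe Yd : ℤ) (v : ℤ × ℤ) : Set (ℤ × ℤ) :=
  Pool.Agent.H19.W.Rc xe (b.X * n + 2) Yd v.2

/-- the open labels of the outer layer of the two worlds correspond -/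
structure Lay (b : JBox) (h : ℕ) (M : Finset (Bool × ℕ)) (L L' : Finset (ℤ × ℤ)) (x1 y0 xe Yd : ℤ)
    (v : ℤ × ℤ) : Prop where
  dA : ∀ e ∈ L, e ∉ b.B h
  dB : ∀ e ∈ L', e ∉ b.B h
  out : ∀ e ∈ Lam b (2 * h) M, e ∉ b.B h → e ∉ St b (2 * h) xe Yd v →
    ¬ (cy e = v.2 ∧ v.1 ≤ cx e) → ¬ (cy e = y0 ∧ cx e < x1) → (e ∈ L' ↔ e ∈ L)
  st : ∀ e ∈ Lam b (2 * h) M, e ∉ b.B h → e ∈ St b (2 * h) xe Yd v → (up e ∈ L' ↔ e ∉ L)

/-- **Numerical hypotheses.** -/
structure UpH (δ σ : ℝ) (b : JBox) (h : ℕ) (x1 y0 xs xe xl ρ Yd : ℤ) (v : ℤ × ℤ) : Prop where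
  ok : b.Ok δ σ
  hh : 0 < h
  /-- thickness -/
  thk : (b.τ : ℤ) + nP b < b.H
  mn : b.m ≤ nP b
  xl0 : -(b.X * (2 * h : ℤ)) ≤ xl
  xls : xl ≤ xs
  xse : xs ≤ xe
  xlv : xl ≤ v.1
  vxe : v.1 < xe
  xem : xe ≤ -(b.m * b.M * (2 * h) : ℤ)
  rho : ((b.τ : ℤ) + nP b) * (2 * h) < ρ
  vr : v.2 < ρ
  y0d : y0 + 2 ≤ Yd
  y0l : -(b.τ * (2 * h) : ℤ) ≤ y0
  Ydt : Yd < b.τ * (2 * h)
  /-- the row of the string is above the chord right of the block -/
  vt : ∀ i : ℕ, xe < -(i * b.M * (2 * h) : ℤ) → i < nP b → ((b.τ : ℤ) + i) * (2 * h) ≤ v.2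
  vH : v.2 < b.H * (2 * h)
  vd : Yd < v.2

end Pool.Agent.H71.W
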