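import Mathlib
import Pool.Agent.H71.W.J6B

set_option autoImplicit false
open Finset

/-! # J6: from the world of the moving end to the canonical world

`UpH.lm` : bookkeeping of the labels; `UpH.move` : the strip move; `UpH.simu` : the simulation. -/

namespace Pool.Agent.H71.W

open Pool.Agent.H61.W Pool.Agent.H6.W Pool.Agent.H58.W Pool.Agent.H21.W Pool.Agent.H50.W
open Pool.Agent.H82.W Pool.Agent.H13.W
open Pool.Agent.H19.W (cx cy lt_cc cx_lt cy_lt mv mv_in mv_out StripOK Moved Rc stripOK_rect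
  cx_up cy_up cx_dn cy_dn tile_ext)
open Pool.Agent.H33.Q1 (lt tt TL ct mem_TL lt_odd)

variable {δ σ : ℝ} {b : JBox} {h : ℕ} {M : Finset (Bool × ℕ)}
  {L L' : Finset (ℤ × ℤ)} {o s : Bool} {x1 y0 xs xe xl ρ Yd : ℤ} {v : ℤ × ℤ}

lemma mem_slR {e : ℤ × ℤ} (ho : (e.1 + e.2) % 2 = 1) : e ∈ lt '' slR y0 x1 ↔ cy e = y0 ∧ cx e < x1 := by
  constructor
  · rintro ⟨p, hp, rfl⟩
    rw [cx_lt, cy_lt]
    exact hp
  · intro h
    exact ⟨(cx e, cy e), h, lt_cc ho⟩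

lemma mem_DA {e : ℤ × ℤ} (ho : (e.1 + e.2) % 2 = 1) : e ∈ (WA b h M L o s x1 y0 v).D ↔
    (cy e = v.2 ∧ v.1 ≤ cx e) ∨ (cy e = y0 ∧ cx e < x1) := by
  show e ∈ lt '' (strD v ∪ slR y0 x1) ↔ _
  rw [Set.image_union, Set.mem_union, mem_strD ho, mem_slR ho]

lemma mem_DB {e : ℤ × ℤ} (ho : (e.1 + e.2) % 2 = 1) : e ∈ (WB b h M L' o s x1 y0 xs Yd).D ↔
    (cy e = Yd ∧ xs ≤ cx e) ∨ (cy e = y0 ∧ cx e < x1) := by
  show e ∈ lt '' (strD (xs, Yd) ∪ slR y0 x1) ↔ _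
  rw [Set.image_union, Set.mem_union, mem_strD ho, mem_slR ho]

/-- layer tiles are not in the box -/
lemma Wl_notMem {cl : Cl} {e : ℤ × ℤ} (he : e ∈ Wl b (2 * h) cl) (hh : 0 < h) : e ∉ b.B h := by
  classical
  intro hB
  unfold Wl at he
  rw [mem_image] at he
  obtain ⟨t, ht, rfl⟩ := he
  rw [mem_filter] at ht
  rw [mem_B hh, cx_lt, cy_lt] at hB
  exact ht.2.1 hB.2

/-- open layer tiles -/
lemma mem_Wl (hb : b.Ok δ σ) (hh : 0 < h) {cl : Cl} {e : ℤ × ℤ} (ho : (e.1 + e.2) % 2 = 1)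
    (hI : ¬ InQ b (2 * h) (cx e) (cy e)) (h1 : -(b.X * (2 * h : ℤ)) - 3 ≤ cx e)
    (h2 : cx e < b.X * (2 * h : ℤ) + 3) (h3 : -((b.H + b.K) * (2 * h : ℤ)) - 3 ≤ cy e)
    (h4 : cy e < (b.H + b.K) * (2 * h : ℤ) + 3) :
    e ∈ Wl b (2 * h) cl ↔ lcol b (2 * h) cl (cx e) (cy e) = true := by
  classical
  unfold Wl
  rw [mem_image]
  constructor
  · rintro ⟨t, ht, rfl⟩
    rw [mem_filter] at ht
    rw [cx_lt, cy_lt]
    exact ht.2.2
  · intro hc
    refine ⟨(cx e, cy e), ?_, lt_cc ho⟩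
    rw [mem_filter, mem_product, mem_Icc, mem_Icc]
    exact ⟨⟨⟨h1, by linarith⟩, h3, by linarith⟩, hI, hc⟩

/-- rows of the box -/
lemma InQ_row (hb : b.Ok δ σ) {n : ℤ} (hn : 0 < n) {x y : ℤ} (h : InQ b n x y) :
    -((b.H + b.K) * n) ≤ y ∧ y < (b.H + b.K) * n := by
  unfold InQ at h
  rw [mem_Q hb] at h
  exact (dst_div_lt hn).1 h.1

/-- rows of the layer -/
lemma Ly_row (hb : b.Ok δ σ) {n : ℤ} (hn : 0 < n) {x y : ℤ} (h : Ly b n x y) :
    -((b.H + b.K) * n) - 3 ≤ y ∧ y < (b.H + b.K) * n + 3 := by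
  obtain ⟨-, i, j, -, hj, h1⟩ := h
  have := InQ_row hb hn h1
  rw [abs_le] at hj
  constructor <;> linarith [this.1, this.2, hj.1, hj.2]

/-- open layer tiles of the strand graph -/
lemma mem_Wl' (hb : b.Ok δ σ) (hh : 0 < h) {cl : Cl} {e : ℤ × ℤ} (he : e ∈ Lam b (2 * h) M)
    (hI : ¬ InQ b (2 * h) (cx e) (cy e)) :
    e ∈ Wl b (2 * h) cl ↔ lcol b (2 * h) cl (cx e) (cy e) = true := by
  have hn : (0 : ℤ) < 2 * h := by positivity
  rcases (mem_Lam.1 he).2 with h1 | ⟨h1, -⟩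
  · exact absurd h1 hI
  · have h2 := Ly_col hb hn h1
    have h3 := Ly_row hb hn h1
    exact mem_Wl hb hh (mem_Lam.1 he).1 hI h2.1 h2.2 h3.1 h3.2

/-- tiles of the plates -/
lemma cpl_some (hM : 0 < b.M) {n : ℤ} (hn : 0 < n) {e : ℤ × ℤ} {i : ℕ} : cpl b n e = some i ↔
    (-((i + 1) * b.M * n : ℤ) ≤ cx e ∧ cx e < -(i * b.M * n : ℤ)) ∧
      (-(((b.τ : ℤ) + i) * n) ≤ cy e ∧ cy e < ((b.τ : ℤ) + i) * n) := chn_tile hM hn

lemma rpl_some (hM : 0 < b.M) {n : ℤ} (hn : 0 < n) {e : ℤ × ℤ} {i : ℕ} : rpl b n xs e = some i ↔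
    (-((i + 1) * b.M * n : ℤ) ≤ cx e ∧ cx e < -(i * b.M * n : ℤ)) ∧ -(((b.τ : ℤ) + i) * n) ≤ cy e ∧
      (cy e < ((b.τ : ℤ) + i) * n ∨ (xs ≤ cx e ∧ cy e = ((b.τ : ℤ) + i) * n)) := rch_some hM hn

/-- plates of the box -/
lemma plate_lt (hb : b.Ok δ σ) {n : ℤ} (hn : 0 < n) {x : ℤ} {i : ℕ} (h1 : -(b.X * n) ≤ x)
    (h2 : x < -(i * b.M * n : ℤ)) : i < nP b := by
  by_contra hc
  have h3 : (nP b : ℤ) ≤ i := by exact_mod_cast not_lt.1 hc
  have h4 := X_eq hb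
  have hM : (0 : ℤ) < b.M := by exact_mod_cast hb.M0
  rw [h4] at h1
  have h5 : (nP b : ℤ) * b.M * n ≤ i * b.M * n := by
    have : (nP b : ℤ) * b.M ≤ i * b.M := mul_le_mul_of_nonneg_right h3 hM.le
    exact mul_le_mul_of_nonneg_right this hn.le
  linarith

lemma mem_Pl' (hM : 0 < b.M) (hh : 0 < h) {e : ℤ × ℤ} : e ∈ b.Pl h ↔
    (e.1 + e.2) % 2 = 1 ∧ ∃ i < b.m, cpl b (2 * h) e = some i := mem_Pl hM hh

namespace UpH

variable (U : UpH δ σ b h x1 y0 xs xe xl ρ Yd v)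
include U

lemma hn : (0 : ℤ) < 2 * h := by
  have := U.hh
  positivity

lemma hM : 0 < b.M := U.ok.M0

lemma hMn : (0 : ℤ) < b.M * (2 * h : ℤ) := mul_pos (by exact_mod_cast U.hM) U.hn

lemma Xn : (0 : ℤ) < b.X * (2 * h : ℤ) := mul_pos (by exact_mod_cast X_pos U.ok) U.hn

lemma xe0 : xe ≤ 0 := by
  have h1 := U.xem
  have h2 : (0 : ℤ) ≤ b.m * b.M * (2 * h) := by positivity
  linarith

lemma tau0 : (0 : ℤ) ≤ b.τ * (2 * h : ℤ) := by positivity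

lemma tau_le (i : ℕ) : (b.τ * (2 * h) : ℤ) ≤ ((b.τ : ℤ) + i) * (2 * h) := by
  have : (0 : ℤ) ≤ i * (2 * h : ℤ) := by positivity
  linarith

lemma tauH {i : ℕ} (hi : i < nP b) : ((b.τ : ℤ) + i) * (2 * h) < ρ ∧
    ((b.τ : ℤ) + i) * (2 * h) < b.H * (2 * h : ℤ) := by
  have h1 := U.thk
  have h2 := U.rho
  have h3 : (i : ℤ) < nP b := by exact_mod_cast hi
  have hn := U.hn
  constructor
  · have : ((b.τ : ℤ) + i) * (2 * h) ≤ ((b.τ : ℤ) + nP b) * (2 * h) :=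
      mul_le_mul_of_nonneg_right (by linarith) hn.le
    linarith
  · exact mul_lt_mul_of_pos_right (by linarith) hn

/-- an outside label of the box in the columns of the plate `i` and of the strip -/
lemma out_row {e : ℤ × ℤ} {i : ℕ} (hX : -(b.X * (2 * h : ℤ)) ≤ cx e) (hX2 : cx e < b.X * (2 * h : ℤ))
    (hB : e ∉ Bk xl xe ρ) (ho : (e.1 + e.2) % 2 = 1) (hD : e ∉ (WA b h M L o s x1 y0 v).D)
    (hS : e ∉ St b (2 * h) xe Yd v) (h1 : cx e < -(i * b.M * (2 * h) : ℤ)) (hxs : xs ≤ cx e)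
    (h2 : Yd ≤ cy e) (h3 : cy e ≤ ((b.τ : ℤ) + i) * (2 * h)) : False := by
  have hi := plate_lt U.ok U.hn hX h1
  have h4 := U.tauH hi
  have h5 : xe ≤ cx e := by
    by_contra hc
    apply hB
    refine ⟨⟨by linarith [U.xls], by linarith⟩, ?_, by linarith⟩
    have := U.y0d; have := U.y0l; have := U.tau_le i
    linarith
  have h6 := U.vt i (by linarith) hi
  rcases lt_or_ge (cy e) v.2 with h7 | h7
  · exact hS ⟨⟨h5, by linarith⟩, h2, h7⟩
  · apply hD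
    rw [mem_DA ho]
    left
    exact ⟨by linarith, by linarith [U.vxe]⟩

/-- plates of an outside label and of its image -/
lemma rpl_mv {e : ℤ × ℤ} (he : e ∈ b.B h) (hB : e ∉ Bk xl xe ρ)
    (hD : e ∉ (WA b h M L o s x1 y0 v).D) :
    rpl b (2 * h) xs (mv (St b (2 * h) xe Yd v) e) = cpl b (2 * h) e := by
  have he' := (mem_B U.hh).1 he
  have ho := he'.1
  have hcol := InQ_col U.ok U.hn he'.2
  have hn := U.hn
  have key : ∀ i, rpl b (2 * h) xs (mv (St b (2 * h) xe Yd v) e) = some i ↔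
      cpl b (2 * h) e = some i := by
    intro i
    have g0 := U.tau_le i
    by_cases hS : e ∈ St b (2 * h) xe Yd v
    · rw [mv_in hS, rpl_some U.hM hn, cpl_some U.hM hn, cx_up, cy_up]
      obtain ⟨⟨a1, a2⟩, a3, a4⟩ := hS
      have := U.y0d; have := U.y0l
      constructor
      · rintro ⟨g1, g2, g3⟩
        refine ⟨g1, by linarith, ?_⟩
        rcases g3 with g3 | g3
        · linarith
        · linarith [g3.2]
      · rintro ⟨g1, g2, g3⟩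
        refine ⟨g1, by linarith, ?_⟩
        rcases (show cy e + 1 ≤ ((b.τ : ℤ) + i) * (2 * h) by linarith).lt_or_eq with g4 | g4
        · exact Or.inl g4
        · exact Or.inr ⟨by linarith [U.xse], g4⟩
    · rw [mv_out hS, rpl_some U.hM hn, cpl_some U.hM hn]
      constructor
      · rintro ⟨g1, g2, g3⟩
        refine ⟨g1, g2, ?_⟩
        rcases g3 with g3 | ⟨g3, g4⟩
        · exact g3
        · exfalso
          exact U.out_row (M := M) (L := L) (o := o) (s := s) hcol.1 hcol.2 hB ho hD hS g1.2 g3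
            (by have := U.Ydt; linarith) g4.le
      · rintro ⟨g1, g2, g3⟩
        exact ⟨g1, g2, Or.inl g3⟩
  rcases hc : cpl b (2 * h) e with _ | i
  · rcases hr : rpl b (2 * h) xs (mv (St b (2 * h) xe Yd v) e) with _ | i
    · rfl
    · rw [key i, hc] at hr
      exact absurd hr (by simp)
  · exact (key i).2 hc

/-- the map is injective on the outside labels -/
lemma mv_inj {e e' : ℤ × ℤ} (ho : (e.1 + e.2) % 2 = 1) (ho' : (e'.1 + e'.2) % 2 = 1)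
    (hD : e ∉ (WA b h M L o s x1 y0 v).D) (hD' : e' ∉ (WA b h M L o s x1 y0 v).D)
    (hm : mv (St b (2 * h) xe Yd v) e = mv (St b (2 * h) xe Yd v) e') : e = e' := by
  have key : ∀ {e e' : ℤ × ℤ}, (e'.1 + e'.2) % 2 = 1 → e' ∉ (WA b h M L o s x1 y0 v).D →
      e ∈ St b (2 * h) xe Yd v → e' ∉ St b (2 * h) xe Yd v → up e = e' → False := by
    intro e e' ho' hD' hS hS' hm
    obtain ⟨⟨a1, a2⟩, a3, a4⟩ := hS
    have c1 : cx e' = cx e := by rw [← hm, cx_up]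
    have c2 : cy e' = cy e + 1 := by rw [← hm, cy_up]
    rcases (show cy e' ≤ v.2 by linarith).lt_or_eq with h | h
    · exact hS' ⟨⟨by linarith, by linarith⟩, by linarith, h⟩
    · exact hD' ((mem_DA ho').2 (Or.inl ⟨h, by linarith [U.vxe]⟩))
  by_cases hS : e ∈ St b (2 * h) xe Yd v <;> by_cases hS' : e' ∈ St b (2 * h) xe Yd v
  · rw [mv_in hS, mv_in hS'] at hm
    exact up_inj hm
  · rw [mv_in hS, mv_out hS'] at hm
    exact (key ho' hD' hS hS' hm).elim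
  · rw [mv_out hS, mv_in hS'] at hm
    exact (key ho hD hS' hS hm.symm).elim
  · rwa [mv_out hS, mv_out hS'] at hm

end UpH

open Classical in
/-- outside labels of the world of the moving end -/
noncomputable def O1 (b : JBox) (h : ℕ) (x1 y0 xe xl ρ : ℤ) (v : ℤ × ℤ) : Finset (ℤ × ℤ) :=
  (b.B h \ b.Pl h).filter fun e => e ∉ Bk xl xe ρ ∧ ¬ (cy e = v.2 ∧ v.1 ≤ cx e) ∧
    ¬ (cy e = y0 ∧ cx e < x1)

/-- their images -/
noncomputable def O2 (b : JBox) (h : ℕ) (x1 y0 xe xl ρ Yd : ℤ) (v : ℤ × ℤ) : Finset (ℤ × ℤ) :=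
  (O1 b h x1 y0 xe xl ρ v).image (mv (St b (2 * h) xe Yd v))

lemma mem_O1 {e : ℤ × ℤ} (M : Finset (Bool × ℕ)) (L : Finset (ℤ × ℤ)) (o s : Bool) (hh : 0 < h) :
    e ∈ O1 b h x1 y0 xe xl ρ v ↔
    e ∈ b.B h ∧ e ∉ b.Pl h ∧ e ∉ Bk xl xe ρ ∧ e ∉ (WA b h M L o s x1 y0 v).D := by
  classical
  unfold O1
  rw [mem_filter, mem_sdiff]
  constructor
  · rintro ⟨⟨g1, g2⟩, g3, g4, g5⟩
    refine ⟨g1, g2, g3, ?_⟩
    rw [mem_DA ((mem_B hh).1 g1).1]
    tauto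
  · rintro ⟨g1, g2, g3, g4⟩
    rw [mem_DA ((mem_B hh).1 g1).1] at g4
    exact ⟨⟨g1, g2⟩, g3, by tauto, by tauto⟩

namespace UpH

variable (U : UpH δ σ b h x1 y0 xs xe xl ρ Yd v)
include U

lemma mem_BE {e : ℤ × ℤ} (he : e ∈ b.B h) (hB : e ∉ Bk xl xe ρ)
    (hD : e ∉ (WA b h M L o s x1 y0 v).D) : mv (St b (2 * h) xe Yd v) e ∈ b.B h := by
  by_cases hS : e ∈ St b (2 * h) xe Yd v
  · rw [mv_in hS]
    obtain ⟨h1, h2⟩ := (mem_B U.hh).1 he
    have hcol := InQ_col U.ok U.hn h2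
    obtain ⟨⟨a1, a2⟩, a3, a4⟩ := hS
    have g1 := U.vH
    have g2 := U.y0d
    have g3 := U.y0l
    have g4 : (b.τ : ℤ) * (2 * h) < b.H * (2 * h : ℤ) :=
      mul_lt_mul_of_pos_right (by linarith [U.thk]) U.hn
    rw [mem_B U.hh, Pool.Agent.H19.W.odd_up, cx_up, cy_up,
      InQ_band U.ok U.hn (by linarith) (by linarith)]
    exact ⟨h1, hcol⟩
  · rw [mv_out hS]
    exact he

/-- the flipped labels of the two worlds correspond -/
lemma par_plate {e : ℤ × ℤ} {i : ℕ} (he : e ∈ b.B h) (hB : e ∉ Bk xl xe ρ)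
    (hD : e ∉ (WA b h M L o s x1 y0 v).D) (hi : cpl b (2 * h) e = some i) :
    ¬ Xor (e ∈ St b (2 * h) xe Yd v) (Xor (fA s x1 y0 (cx e) (cy e))
      (Xor (fA s x1 y0 (cx (mv (St b (2 * h) xe Yd v) e)) (cy (mv (St b (2 * h) xe Yd v) e)))
        (xs ≤ cx (mv (St b (2 * h) xe Yd v) e) ∧ Yd < cy (mv (St b (2 * h) xe Yd v) e)))) := by
  obtain ⟨h1, h2⟩ := (mem_B U.hh).1 he
  have hcol := InQ_col U.ok U.hn h2
  rw [cpl_some U.hM U.hn] at hi
  by_cases hS : e ∈ St b (2 * h) xe Yd v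
  · have hS' := hS
    obtain ⟨⟨a1, a2⟩, a3, a4⟩ := hS'
    rw [mv_in hS, cx_up, cy_up]
    have g1 : (xs ≤ cx e ∧ Yd < cy e + 1) := ⟨by linarith [U.xse], by linarith⟩
    have g2 : fA s x1 y0 (cx e) (cy e + 1) ↔ fA s x1 y0 (cx e) (cy e) := by
      unfold fA
      have := U.y0d
      rcases s
      · simp only [Bool.false_eq_true, if_false]
        constructor <;> rintro ⟨_, g⟩ <;> exfalso <;> linarith
      · simp only [if_true]
        constructor <;> rintro ⟨g, _⟩ <;> exact ⟨g, by linarith⟩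
    simp only [hS, g1, g2, and_self]
    by_cases g3 : fA s x1 y0 (cx e) (cy e) <;> simp [g3, Xor]
  · rw [mv_out hS]
    have g1 : ¬ (xs ≤ cx e ∧ Yd < cy e) := by
      rintro ⟨g2, g3⟩
      exact U.out_row (M := M) (L := L) (o := o) (s := s) hcol.1 hcol.2 hB h1 hD hS hi.1.2 g2
        g3.le hi.2.2.le
    simp only [hS, g1]
    by_cases g3 : fA s x1 y0 (cx e) (cy e) <;> simp [g3, Xor]

/-- **Bookkeeping of the labels.** -/
theorem lm (hL : Lay b h M L L' x1 y0 xe Yd v) : LMove (WA b h M L o s x1 y0 v) (WB b h M L' o s x1 y0 xs Yd) (mv (St b (2 * h) xe Yd v))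
    (St b (2 * h) xe Yd v) (O1 b h x1 y0 xe xl ρ v) (O2 b h x1 y0 xe xl ρ Yd v) := by
  classical
  have hO : ∀ e, e ∈ O1 b h x1 y0 xe xl ρ v ↔ _ := fun e => mem_O1 (e := e) M L o s U.hh
  have hE2 : ∀ e ∈ O1 b h x1 y0 xe xl ρ v, mv (St b (2 * h) xe Yd v) e ∈
      (WB b h M L' o s x1 y0 xs Yd).E := by
    intro e he
    obtain ⟨g1, g2, g3, g4⟩ := (hO e).1 he
    show _ ∈ (b.B h).filter _
    rw [mem_filter]
    refine ⟨U.mem_BE g1 g3 g4, ?_⟩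
    rw [U.rpl_mv g1 g3 g4]
    intro hc
    exact g2 ((mem_Pl' U.hM U.hh).2 ⟨((mem_B U.hh).1 g1).1, hc⟩)
  constructor
  · intro e he
    obtain ⟨g1, g2, -, -⟩ := (hO e).1 he
    exact mem_sdiff.2 ⟨g1, g2⟩
  · intro e he
    unfold O2 at he
    rw [mem_image] at he
    obtain ⟨e', he', rfl⟩ := he
    exact hE2 e' he'
  · rfl
  · intro e he e' he' hm
    obtain ⟨g1, -, -, g4⟩ := (hO e).1 he
    obtain ⟨k1, -, -, k4⟩ := (hO e').1 he'
    exact U.mv_inj ((mem_B U.hh).1 g1).1 ((mem_B U.hh).1 k1).1 g4 k4 hm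
  · intro e he e' he'
    obtain ⟨g1, -, g3, g4⟩ := (hO e).1 he
    obtain ⟨k1, -, k3, k4⟩ := (hO e').1 he'
    show blk (cpl b (2 * h)) e = blk (cpl b (2 * h)) e' ↔ blk (rpl b (2 * h) xs) _ =
      blk (rpl b (2 * h) xs) _
    rw [blk_eq_iff, blk_eq_iff, U.rpl_mv g1 g3 g4, U.rpl_mv k1 k3 k4]
    refine or_congr ⟨fun hm => by rw [hm], fun hm => ?_⟩ Iff.rfl
    exact U.mv_inj ((mem_B U.hh).1 g1).1 ((mem_B U.hh).1 k1).1 g4 k4 hm
  · intro e he e' he' hm hf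
    obtain ⟨g1, g2, g3, g4⟩ := (hO e).1 he
    rcases hc : cpl b (2 * h) e with _ | i
    · have hm' : blk (cpl b (2 * h)) e = blk (cpl b (2 * h)) e' := hm
      rw [blk_eq_iff] at hm'
      rcases hm' with h1 | ⟨h1, -⟩
      · exact h1 ▸ hf
      · exact absurd hc h1
    · exfalso
      have hmi : b.m ≤ i := by
        by_contra hlt
        exact g2 ((mem_Pl' U.hM U.hh).2 ⟨((mem_B U.hh).1 g1).1, i, not_le.1 hlt, hc⟩)
      unfold fl at hf
      rw [mem_filter] at hf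
      have e1 : e ∈ (WA b h M L o s x1 y0 v).F ↔ fA s x1 y0 (cx e) (cy e) := by
        show e ∈ (b.B h).filter _ ↔ _
        rw [mem_filter]
        exact ⟨fun g => g.2.2, fun g => ⟨g1, ⟨i, hmi, hc⟩, g⟩⟩
      have e2 : mv (St b (2 * h) xe Yd v) e ∈ (WB b h M L' o s x1 y0 xs Yd).F ↔
          Xor (fA s x1 y0 (cx (mv (St b (2 * h) xe Yd v) e)) (cy (mv (St b (2 * h) xe Yd v) e)))
            (xs ≤ cx (mv (St b (2 * h) xe Yd v) e) ∧ Yd < cy (mv (St b (2 * h) xe Yd v) e)) := by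
        show _ ∈ (b.B h).filter _ ↔ _
        rw [mem_filter]
        exact ⟨fun g => g.2.2, fun g => ⟨U.mem_BE g1 g3 g4, ⟨i, hmi, by rw [U.rpl_mv g1 g3 g4, hc]⟩, g⟩⟩
      rw [e1, e2] at hf
      exact U.par_plate g1 g3 g4 hc hf.2
  · intro e he hW
    obtain ⟨g1, g2, -, -⟩ := (hO e).1 he
    have hW' : e ∈ L ∪ _ := hW
    rw [mem_union] at hW'
    rcases hW' with h1 | h1
    · exact hL.dA e h1 g1
    · rw [mem_filter] at h1
      exact g2 ((mem_Pl' U.hM U.hh).2 ⟨((mem_B U.hh).1 g1).1, h1.2.1⟩)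
  · intro e he hW
    unfold O2 at he
    rw [mem_image] at he
    obtain ⟨e', he', rfl⟩ := he
    have h2 := hE2 e' he'
    have h2' : _ ∈ (b.B h).filter _ := h2
    rw [mem_filter] at h2'
    have hW' : mv (St b (2 * h) xe Yd v) e' ∈ L' ∪ _ := hW
    rw [mem_union] at hW'
    rcases hW' with h1 | h1
    · exact hL.dB _ h1 h2'.1
    · rw [mem_filter] at h1
      exact h2'.2 h1.2.1

end UpH

end Pool.Agent.H71.W
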