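import Mathlib
import Pool.Agent.H71.W.J6C

set_option autoImplicit false
open Finset

/-! # J6: the strip move from the world of the moving end to the canonical world

`UpH.sok` : the strip is closed; `UpH.move` : `StripMove`; `UpH.simu` : `Simu` of 82. -/

namespace Pool.Agent.H71.W

open Pool.Agent.H61.W Pool.Agent.H6.W Pool.Agent.H58.W Pool.Agent.H21.W Pool.Agent.H50.W
open Pool.Agent.H82.W Pool.Agent.H13.W
open Pool.Agent.H19.W (cx cy lt_cc cx_lt cy_lt mv mv_in mv_out StripOK Moved Rc stripOK_rect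
  cx_up cy_up cx_dn cy_dn tile_ext odd_up odd_dn)
open Pool.Agent.H33.Q1 (lt tt TL ct mem_TL lt_odd)

variable {δ σ : ℝ} {b : JBox} {h : ℕ} {M : Finset (Bool × ℕ)}
  {L L' : Finset (ℤ × ℤ)} {o s : Bool} {x1 y0 xs xe xl ρ Yd : ℤ} {v : ℤ × ℤ}

namespace UpH

variable (U : UpH δ σ b h x1 y0 xs xe xl ρ Yd v)
include U

lemma rho_lo : -ρ < y0 ∧ -(b.H * (2 * h : ℤ)) < y0 := by
  have h1 := U.rho
  have h2 := U.y0l
  have h3 : (b.τ : ℤ) * (2 * h) ≤ ((b.τ : ℤ) + nP b) * (2 * h) :=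
    mul_le_mul_of_nonneg_right (by linarith [(Nat.cast_nonneg (nP b) : (0 : ℤ) ≤ nP b)]) U.hn.le
  have h4 : ((b.τ : ℤ) + nP b) * (2 * h) < b.H * (2 * h : ℤ) :=
    mul_lt_mul_of_pos_right U.thk U.hn
  constructor <;> linarith

/-- **The strip is closed.** -/
theorem sok : StripOK (WA b h M L o s x1 y0 v).Λ (WA b h M L o s x1 y0 v).D (Bk xl xe ρ)
    (St b (2 * h) xe Yd v) := by
  have hr := U.rho_lo
  have hy := U.y0d
  apply stripOK_rect
  · exact fun e he => Lam_odd he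
  · exact fun e _ he => he.1.2
  · intro e he h1 h2 h3
    refine ⟨⟨?_, by linarith⟩, by linarith, by linarith [U.vr]⟩
    have := U.xlv
    have := U.vxe
    linarith
  · intro e he h1 _ _
    have := (Lam_col U.ok U.hn he).2
    linarith
  · intro e he h1 h2 h3 h4
    rw [mem_DA (Lam_odd he)]
    constructor
    · rintro (h5 | h5)
      · exact h5.1
      · exfalso; linarith [h5.1]
    · intro h5
      exact Or.inl ⟨h5, by linarith [U.vxe]⟩
  · intro e he _ h1 h2 h3 h4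
    have h5 := Lam_col U.ok U.hn he
    show dn e ∈ Lam b (2 * h) M
    rw [mem_Lam_band U.ok U.hn (by rw [cy_dn]; linarith) (by rw [cy_dn]; linarith [U.vH]), odd_dn,
      cx_dn]
    exact ⟨Lam_odd he, h5⟩

/-- the states of the labels of `P` -/
lemma stP {ω1 ω2 : Finset (ℤ × ℤ)} (hL : Lay b h M L L' x1 y0 xe Yd v)
    (h1 : ω1 ⊆ (WA b h M L o s x1 y0 v).E) (h2 : ω2 ⊆ (WB b h M L' o s x1 y0 xs Yd).E)
    {e : ℤ × ℤ} (he : e ∈ b.B h) (heP : e ∈ b.Pl h) (hB : e ∉ Bk xl xe ρ)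
    (hD : e ∉ (WA b h M L o s x1 y0 v).D) :
    mv (St b (2 * h) xe Yd v) e ∈ (WB b h M L' o s x1 y0 xs Yd).st ω2 ↔
      Xor (e ∈ (WA b h M L o s x1 y0 v).st ω1) (e ∈ St b (2 * h) xe Yd v) := by
  classical
  obtain ⟨ho, i, hi, hc⟩ := (mem_Pl' U.hM U.hh).1 heP
  have hr := U.rpl_mv he hB hD
  rw [hc] at hr
  have a1 : e ∉ ω1 := fun g => (mem_sdiff.1 (h1 g)).2 heP
  have a2 : e ∉ (WA b h M L o s x1 y0 v).F := by
    intro g
    have g' : e ∈ (b.B h).filter _ := g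
    rw [mem_filter] at g'
    obtain ⟨j, hj, hj2⟩ := g'.2.1
    rw [hc, Option.some.injEq] at hj2
    omega
  have b1 : mv (St b (2 * h) xe Yd v) e ∉ ω2 := by
    intro g
    have g' : _ ∈ (b.B h).filter _ := h2 g
    rw [mem_filter] at g'
    exact g'.2 ⟨i, hi, hr⟩
  have b2 : mv (St b (2 * h) xe Yd v) e ∉ (WB b h M L' o s x1 y0 xs Yd).F := by
    intro g
    have g' : _ ∈ (b.B h).filter _ := g
    rw [mem_filter] at g'
    obtain ⟨j, hj, hj2⟩ := g'.2.1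
    rw [hr, Option.some.injEq] at hj2
    omega
  rw [WD.mem_st' b1 b2, WD.mem_st' a1 a2]
  have e1 : e ∈ (WA b h M L o s x1 y0 v).W ↔ Xor (o = true) (fA s x1 y0 (cx e) (cy e)) := by
    show e ∈ L ∪ (b.B h).filter _ ↔ _
    rw [mem_union, mem_filter]
    constructor
    · rintro (g | g)
      · exact absurd he (hL.dA e g)
      · exact g.2.2
    · exact fun g => Or.inr ⟨he, ⟨i, hi, hc⟩, g⟩
  have hBE := U.mem_BE (M := M) (L := L) (o := o) (s := s) he hB hD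
  have e2 : mv (St b (2 * h) xe Yd v) e ∈ (WB b h M L' o s x1 y0 xs Yd).W ↔ Xor (o = true)
      (Xor (fA s x1 y0 (cx (mv (St b (2 * h) xe Yd v) e)) (cy (mv (St b (2 * h) xe Yd v) e)))
        (xs ≤ cx (mv (St b (2 * h) xe Yd v) e) ∧ Yd < cy (mv (St b (2 * h) xe Yd v) e))) := by
    show _ ∈ L' ∪ (b.B h).filter _ ↔ _
    rw [mem_union, mem_filter]
    constructor
    · rintro (g | g)
      · exact absurd hBE (hL.dB _ g)
      · exact g.2.2
    · exact fun g => Or.inr ⟨hBE, ⟨i, hi, hr⟩, g⟩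
  rw [e1, e2]
  have key := U.par_plate (M := M) (L := L) (o := o) (s := s) he hB hD hc
  by_cases p1 : e ∈ St b (2 * h) xe Yd v <;> by_cases p2 : fA s x1 y0 (cx e) (cy e) <;>
    by_cases p3 : fA s x1 y0 (cx (mv (St b (2 * h) xe Yd v) e)) (cy (mv (St b (2 * h) xe Yd v) e)) <;>
    by_cases p4 : (xs ≤ cx (mv (St b (2 * h) xe Yd v) e) ∧ Yd < cy (mv (St b (2 * h) xe Yd v) e)) <;>
    simp [p1, p2, p3, p4, Xor] at key ⊢

/-- the states of the labels of the box -/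
lemma stB {ω1 ω2 : Finset (ℤ × ℤ)} (hL : Lay b h M L L' x1 y0 xe Yd v)
    (hC : Cor (WA b h M L o s x1 y0 v) (WB b h M L' o s x1 y0 xs Yd) (mv (St b (2 * h) xe Yd v))
      (St b (2 * h) xe Yd v) (O1 b h x1 y0 xe xl ρ v) (O2 b h x1 y0 xe xl ρ Yd v) ω1 ω2)
    {e : ℤ × ℤ} (he : e ∈ b.B h) (hB : e ∉ Bk xl xe ρ)
    (hD : e ∉ (WA b h M L o s x1 y0 v).D) :
    mv (St b (2 * h) xe Yd v) e ∈ (WB b h M L' o s x1 y0 xs Yd).st ω2 ↔
      Xor (e ∈ (WA b h M L o s x1 y0 v).st ω1) (e ∈ St b (2 * h) xe Yd v) := by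
  by_cases heP : e ∈ b.Pl h
  · exact U.stP hL hC.1 hC.2.1 he heP hB hD
  · exact (U.lm hL).state hC ((mem_O1 M L o s U.hh).2 ⟨he, heP, hB, hD⟩)

/-- layer labels -/
lemma st_lay {ω1 : Finset (ℤ × ℤ)} (h1 : ω1 ⊆ (WA b h M L o s x1 y0 v).E) {e : ℤ × ℤ}
    (he : e ∉ b.B h) : e ∈ (WA b h M L o s x1 y0 v).st ω1 ↔ e ∈ L := by
  classical
  have a1 : e ∉ ω1 := fun g => he (mem_sdiff.1 (h1 g)).1
  have a2 : e ∉ (WA b h M L o s x1 y0 v).F := fun g => he (mem_filter.1 g).1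
  rw [WD.mem_st' a1 a2]
  show e ∈ L ∪ (b.B h).filter _ ↔ _
  rw [mem_union, mem_filter]
  tauto

lemma st_lay' {ω2 : Finset (ℤ × ℤ)} (h1 : ω2 ⊆ (WB b h M L' o s x1 y0 xs Yd).E) {e : ℤ × ℤ}
    (he : e ∉ b.B h) : e ∈ (WB b h M L' o s x1 y0 xs Yd).st ω2 ↔ e ∈ L' := by
  classical
  have a1 : e ∉ ω2 := fun g => he (mem_filter.1 (h1 g)).1
  have a2 : e ∉ (WB b h M L' o s x1 y0 xs Yd).F := fun g => he (mem_filter.1 g).1
  rw [WD.mem_st' a1 a2]
  show e ∈ L' ∪ (b.B h).filter _ ↔ _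
  rw [mem_union, mem_filter]
  tauto

/-- **The canonical world is the moved world outside the block.** -/
theorem moved {ω1 ω2 : Finset (ℤ × ℤ)} (hL : Lay b h M L L' x1 y0 xe Yd v)
    (hC : Cor (WA b h M L o s x1 y0 v) (WB b h M L' o s x1 y0 xs Yd) (mv (St b (2 * h) xe Yd v))
      (St b (2 * h) xe Yd v) (O1 b h x1 y0 xe xl ρ v) (O2 b h x1 y0 xe xl ρ Yd v) ω1 ω2) :
    Moved (WA b h M L o s x1 y0 v).Λ (WB b h M L' o s x1 y0 xs Yd).Λ (WA b h M L o s x1 y0 v).D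
      (WB b h M L' o s x1 y0 xs Yd).D ((WA b h M L o s x1 y0 v).st ω1)
      ((WB b h M L' o s x1 y0 xs Yd).st ω2) (Bk xl xe ρ) (St b (2 * h) xe Yd v) where
  plain e h1 h2 h3 h4 := by
    have hr := U.rho_lo
    have hy := U.y0d
    have ho := Lam_odd h1
    have hcol := Lam_col U.ok U.hn h1
    have h4' := h4
    rw [mem_DA ho] at h4'
    refine ⟨h1, ?_, ?_⟩
    · rw [mem_DB ho]
      rintro (⟨g1, g2⟩ | g)
      · rcases lt_or_ge (cx e) xe with g3 | g3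
        · exact h2 ⟨⟨by linarith [U.xls], g3⟩, by linarith, by linarith [U.vd, U.vr]⟩
        · exact h3 ⟨⟨g3, by linarith⟩, by linarith, by linarith [U.vd]⟩
      · exact h4' (Or.inr g)
    · by_cases hb : e ∈ b.B h
      · have := U.stB hL hC hb h2 h4
        rw [mv_out h3] at this
        rw [this]
        simp [h3, Xor]
      · rw [U.st_lay hC.1 hb, U.st_lay' hC.2.1 hb]
        exact hL.out e h1 hb h3 (fun g => h4' (Or.inl g)) (fun g => h4' (Or.inr g))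
  strip e h1 h2 h3 := by
    have hr := U.rho_lo
    have hy := U.y0d
    have ho := Lam_odd h1
    have hcol := Lam_col U.ok U.hn h1
    have h4 := U.sok.sD e h1 h2 h3
    obtain ⟨⟨a1, a2⟩, a3, a4⟩ := id h3
    have g0 := U.vH
    refine ⟨?_, ?_, ?_⟩
    · show up e ∈ Lam b (2 * h) M
      rw [mem_Lam_band U.ok U.hn (by rw [cy_up]; linarith) (by rw [cy_up]; linarith), odd_up, cx_up]
      exact ⟨ho, hcol⟩
    · rw [mem_DB (odd_up.2 ho), cy_up, cx_up]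
      rintro (⟨g1, -⟩ | ⟨g1, -⟩) <;> linarith
    · by_cases hb : e ∈ b.B h
      · have := U.stB hL hC hb h2 h4
        rw [mv_in h3] at this
        rw [this]
        simp [h3, Xor]
      · have hb2 : up e ∉ b.B h := by
          intro g
          apply hb
          rw [mem_B U.hh, odd_up, cx_up, cy_up, InQ_band U.ok U.hn (by linarith) (by linarith)] at g
          rw [mem_B U.hh, InQ_band U.ok U.hn (by linarith) (by linarith)]
          exact g
        rw [U.st_lay hC.1 hb, U.st_lay' hC.2.1 hb2]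
        exact hL.st e h1 hb h3
  stay e h1 h2 h3 h4 := by
    have hr := U.rho_lo
    have hy := U.y0d
    have ho := Lam_odd h1
    have hcol := Lam_col U.ok U.hn h1
    refine ⟨h1, ?_⟩
    rw [mem_DA ho] at h3
    rw [mem_DB ho]
    rcases h3 with ⟨g1, g2⟩ | g
    · exfalso
      rcases lt_or_ge (cx e) xe with g3 | g3
      · exact h2 ⟨⟨by linarith [U.xlv], g3⟩, by linarith [U.vd], by linarith [U.vr]⟩
      · apply h4
        refine ⟨⟨by rw [cx_dn]; exact g3, by rw [cx_dn]; linarith⟩, by rw [cy_dn]; linarith [U.vd],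
          by rw [cy_dn]; linarith⟩
    · exact Or.inr g
  bot e h1 h2 h3 h4 h5 h6 := by
    refine ⟨h1, ?_⟩
    rw [mem_DB (Lam_odd h1)]
    obtain ⟨⟨a1, a2⟩, a3, a4⟩ := h3
    left
    refine ⟨?_, by linarith [U.xse]⟩
    by_contra hc
    apply h6
    refine ⟨⟨by rw [cx_dn]; exact a1, by rw [cx_dn]; exact a2⟩, by rw [cy_dn]; omega,
      by rw [cy_dn]; linarith⟩

/-- **The strip move.** -/
theorem move {ω1 ω2 : Finset (ℤ × ℤ)} (hL : Lay b h M L L' x1 y0 xe Yd v)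
    (hC : Cor (WA b h M L o s x1 y0 v) (WB b h M L' o s x1 y0 xs Yd) (mv (St b (2 * h) xe Yd v))
      (St b (2 * h) xe Yd v) (O1 b h x1 y0 xe xl ρ v) (O2 b h x1 y0 xe xl ρ Yd v) ω1 ω2) :
    StripMove (WA b h M L o s x1 y0 v).Λ (WB b h M L' o s x1 y0 xs Yd).Λ (WA b h M L o s x1 y0 v).D
      (WB b h M L' o s x1 y0 xs Yd).D ((WA b h M L o s x1 y0 v).st ω1)
      ((WB b h M L' o s x1 y0 xs Yd).st ω2) (Bk xl xe ρ) (St b (2 * h) xe Yd v) :=
  U.sok.move (U.moved hL hC)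

/-- **The simulation** (field `simu` of `Half`). -/
theorem simu {ω1 ω2 : Finset (ℤ × ℤ)} (hL : Lay b h M L L' x1 y0 xe Yd v)
    (hC : Cor (WA b h M L o s x1 y0 v) (WB b h M L' o s x1 y0 xs Yd) (mv (St b (2 * h) xe Yd v))
      (St b (2 * h) xe Yd v) (O1 b h x1 y0 xe xl ρ v) (O2 b h x1 y0 xe xl ρ Yd v) ω1 ω2) :
    ∃ G1o, Simu ((WA b h M L o s x1 y0 v).G ω1) G1o (KB (Bk xl xe ρ))
      ((WB b h M L' o s x1 y0 xs Yd).G ω2)
      (SR (WA b h M L o s x1 y0 v).Λ (WA b h M L o s x1 y0 v).D (Bk xl xe ρ)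
        (St b (2 * h) xe Yd v)) :=
  ⟨_, (U.move hL hC).simu⟩

end UpH

end Pool.Agent.H71.W
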