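import Mathlib
import Pool.Agent.H71.W.J6D
import Pool.Agent.H16.W.JMir

set_option autoImplicit false
open Finset

/-! # J6: layer colours, outside labels of the canonical world, far ends, the world `GX`

`lay_Wl` : the colours `colM`; `mem_O2` : `O2` = labels of the canonical world outside the block which are not
deleted; `sr_f1`, `sr_f2` : the corners of the marks do not move; `GX_WA` : the world `GX` is `WA`. -/

namespace Pool.Agent.H71.W

open Pool.Agent.H61.W Pool.Agent.H6.W Pool.Agent.H58.W Pool.Agent.H21.W Pool.Agent.H50.W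
open Pool.Agent.H82.W Pool.Agent.H13.W
open Pool.Agent.H19.W (cx cy lt_cc cx_lt cy_lt mv mv_in mv_out StripOK Moved Rc stripOK_rect
  cx_up cy_up cx_dn cy_dn tile_ext odd_up odd_dn dn_up up_dn)
open Pool.Agent.H33.Q1 (lt tt TL ct mem_TL lt_odd)

variable {δ σ : ℝ} {b : JBox} {h : ℕ} {M : Finset (Bool × ℕ)}
  {L L' : Finset (ℤ × ℤ)} {o s : Bool} {x1 y0 xs xe xl ρ Yd : ℤ} {v : ℤ × ℤ}

namespace UpH

variable (U : UpH δ σ b h x1 y0 xs xe xl ρ Yd v)
include U

/-- a tile of the strand graph outside of the box right of the block in the band is a tile of the right layer -/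
lemma right_lay {e : ℤ × ℤ} (he : e ∈ Lam b (2 * h) M) (hb : e ∉ b.B h) (h1 : -(b.H * (2 * h : ℤ)) ≤ cy e)
    (h2 : cy e < b.H * (2 * h : ℤ)) (h3 : xe ≤ cx e) : b.X * (2 * h : ℤ) ≤ cx e := by
  by_contra hc
  apply hb
  rw [mem_B U.hh, InQ_band U.ok U.hn h1 h2]
  refine ⟨Lam_odd he, ?_, not_le.1 hc⟩
  linarith [U.xl0, U.xls, U.xse]

/-- **The colours of the layer.** -/
theorem lay_Wl (bse : Bool) : Lay b h M (Wl b (2 * h) (colM bse M (some v.2)))
    (Wl b (2 * h) (colM bse M (some Yd))) x1 y0 xe Yd v where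
  dA e he := Wl_notMem he U.hh
  dB e he := Wl_notMem he U.hh
  out e he hb hS h1 _ := by
    have ho := Lam_odd he
    have hI : ¬ InQ b (2 * h) (cx e) (cy e) := fun g => hb ((mem_B U.hh).2 ⟨ho, g⟩)
    have hcol := Lam_col U.ok U.hn he
    rw [mem_Wl' U.ok U.hh he hI, mem_Wl' U.ok U.hh he hI]
    unfold lcol
    by_cases hx : b.X * (2 * h : ℤ) ≤ cx e
    · rw [if_pos hx, if_pos hx]
      have h3 : decide (cy e < Yd) = decide (cy e < v.2) := by
        rw [decide_eq_decide]
        have hX := U.Xn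
        have := U.vd
        have hxe := U.xe0
        constructor
        · intro g; linarith
        · intro g
          by_contra hc
          exact hS ⟨⟨by linarith, by linarith⟩, not_lt.1 hc, g⟩
      unfold colM
      simp only [h3]
    · rw [if_neg hx, if_neg hx]
      rfl
  st e he hb hS := by
    obtain ⟨⟨a1, a2⟩, a3, a4⟩ := hS
    have hr := U.rho_lo
    have hy := U.y0d
    have hv := U.vH
    have ho := Lam_odd he
    have hcol := Lam_col U.ok U.hn he
    have hx := U.right_lay he hb (by linarith) (by linarith) a1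
    have hI : ¬ InQ b (2 * h) (cx e) (cy e) := fun g => hb ((mem_B U.hh).2 ⟨ho, g⟩)
    have hu : up e ∈ Lam b (2 * h) M := by
      rw [mem_Lam_band U.ok U.hn (by rw [cy_up]; linarith) (by rw [cy_up]; linarith), odd_up, cx_up]
      exact ⟨ho, hcol⟩
    have hI' : ¬ InQ b (2 * h) (cx (up e)) (cy (up e)) := by
      rw [cx_up, cy_up, InQ_band U.ok U.hn (by linarith) (by linarith)]
      intro g
      linarith [g.2]
    rw [mem_Wl' U.ok U.hh hu hI', mem_Wl' U.ok U.hh he hI]
    unfold lcol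
    rw [cx_up, cy_up, if_pos hx, if_pos hx]
    unfold colM
    simp only
    have g1 : decide (cy e + 1 < Yd) = false := decide_eq_false (by linarith)
    have g2 : decide (cy e < v.2) = true := decide_eq_true a4
    rw [g1, g2]
    cases bse <;> cases par _ <;> simp

/-- **The outside labels of the canonical world.** -/
theorem mem_O2 {e : ℤ × ℤ} (M : Finset (Bool × ℕ)) (L : Finset (ℤ × ℤ)) (o s : Bool) :
    e ∈ O2 b h x1 y0 xe xl ρ Yd v ↔ e ∈ (WB b h M L o s x1 y0 xs Yd).E ∧ e ∉ Bk xl xe ρ ∧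
      e ∉ (WB b h M L o s x1 y0 xs Yd).D := by
  classical
  have hr := U.rho_lo
  have hy := U.y0d
  have hX := U.Xn
  constructor
  · intro he
    unfold O2 at he
    rw [mem_image] at he
    obtain ⟨e', he', rfl⟩ := he
    obtain ⟨g1, g2, g3, g4⟩ := (mem_O1 M L o s U.hh).1 he'
    obtain ⟨ho, hI⟩ := (mem_B U.hh).1 g1
    have hcol := InQ_col U.ok U.hn hI
    have hE : mv (St b (2 * h) xe Yd v) e' ∈ (WB b h M L o s x1 y0 xs Yd).E := by
      show _ ∈ (b.B h).filter _
      rw [mem_filter]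
      refine ⟨U.mem_BE g1 g3 g4, ?_⟩
      rw [U.rpl_mv g1 g3 g4]
      intro hc
      exact g2 ((mem_Pl' U.hM U.hh).2 ⟨ho, hc⟩)
    refine ⟨hE, ?_, ?_⟩
    · by_cases hS : e' ∈ St b (2 * h) xe Yd v
      · rw [mv_in hS]
        rintro ⟨⟨-, k2⟩, -⟩
        rw [cx_up] at k2
        linarith [hS.1.1]
      · rw [mv_out hS]; exact g3
    · by_cases hS : e' ∈ St b (2 * h) xe Yd v
      · rw [mv_in hS, mem_DB (odd_up.2 ho), cy_up, cx_up]
        obtain ⟨⟨a1, a2⟩, a3, a4⟩ := hS
        rintro (⟨k1, -⟩ | ⟨k1, -⟩) <;> linarith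
      · rw [mv_out hS, mem_DB ho]
        rw [mem_DA ho] at g4
        rintro (⟨k1, k2⟩ | k)
        · rcases lt_or_ge (cx e') xe with k3 | k3
          · exact g3 ⟨⟨by linarith [U.xls], k3⟩, by linarith, by linarith [U.vd, U.vr]⟩
          · exact hS ⟨⟨k3, by linarith⟩, by linarith, by linarith [U.vd]⟩
        · exact g4 (Or.inr k)
  · rintro ⟨h1, h2, h3⟩
    have h1' : e ∈ (b.B h).filter _ := h1
    rw [mem_filter] at h1'
    obtain ⟨hb, hP⟩ := h1'
    obtain ⟨ho, hI⟩ := (mem_B U.hh).1 hb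
    have hcol := InQ_col U.ok U.hn hI
    rw [mem_DB ho] at h3
    unfold O2
    rw [mem_image]
    by_cases hm : xe ≤ cx e ∧ Yd < cy e ∧ cy e ≤ v.2
    · obtain ⟨m1, m2, m3⟩ := hm
      have hv := U.vH
      have hS : dn e ∈ St b (2 * h) xe Yd v :=
        ⟨⟨by rw [cx_dn]; exact m1, by rw [cx_dn]; linarith⟩, by rw [cy_dn]; omega,
          by rw [cy_dn]; omega⟩
      have hm2 : mv (St b (2 * h) xe Yd v) (dn e) = e := by rw [mv_in hS, up_dn]
      have k1 : dn e ∈ b.B h := by
        rw [mem_B U.hh, odd_dn, cx_dn, cy_dn, InQ_band U.ok U.hn (by linarith) (by linarith)]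
        exact ⟨ho, hcol⟩
      have k3 : dn e ∉ Bk xl xe ρ := by
        rintro ⟨⟨-, q⟩, -⟩
        rw [cx_dn] at q
        linarith
      have k4 : dn e ∉ (WA b h M L o s x1 y0 v).D := by
        rw [mem_DA (odd_dn.2 ho), cx_dn, cy_dn]
        rintro (⟨q1, -⟩ | ⟨q1, -⟩) <;> linarith
      refine ⟨dn e, (mem_O1 M L o s U.hh).2 ⟨k1, ?_, k3, k4⟩, hm2⟩
      intro g
      obtain ⟨-, hc⟩ := (mem_Pl' U.hM U.hh).1 g
      rw [← U.rpl_mv k1 k3 k4, hm2] at hc
      exact hP hc
    · have hS : e ∉ St b (2 * h) xe Yd v := by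
        rintro ⟨⟨a1, a2⟩, a3, a4⟩
        rcases a3.lt_or_eq with a5 | a5
        · exact hm ⟨a1, a5, a4.le⟩
        · exact h3 (Or.inl ⟨a5.symm, by linarith [U.xse]⟩)
      have hm2 : mv (St b (2 * h) xe Yd v) e = e := mv_out hS
      have k4 : e ∉ (WA b h M L o s x1 y0 v).D := by
        rw [mem_DA ho]
        rintro (⟨q1, q2⟩ | q)
        · rcases lt_or_ge (cx e) xe with q3 | q3
          · exact h2 ⟨⟨by linarith [U.xlv], q3⟩, by linarith [U.vd], by linarith [U.vr]⟩
          · exact hm ⟨q3, by linarith [U.vd], q1.le⟩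
        · exact h3 (Or.inr q)
      refine ⟨e, (mem_O1 M L o s U.hh).2 ⟨hb, ?_, h2, k4⟩, hm2⟩
      intro g
      obtain ⟨-, hc⟩ := (mem_Pl' U.hM U.hh).1 g
      rw [← U.rpl_mv hb h2 k4, hm2] at hc
      exact hP hc

/-- a corner of a tile which does not move -/
lemma sr_of {e c : ℤ × ℤ} (he : e ∈ Lam b (2 * h) M) (hr : b.H * (2 * h : ℤ) ≤ cy e ∨ cy e < -(b.H * (2 * h : ℤ)))
    (hB : ρ ≤ b.H * (2 * h : ℤ)) (hc : Sd e c) :
    SR (WA b h M L o s x1 y0 v).Λ (WA b h M L o s x1 y0 v).D (Bk xl xe ρ) (St b (2 * h) xe Yd v) c c := by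
  have h0 := U.rho_lo
  have hy := U.y0d
  have hd := U.vd
  left
  refine ⟨rfl, Or.inl ⟨e, he, ?_, ?_, ?_, hc⟩⟩
  · rintro ⟨-, k1, k2⟩
    rcases hr with hr | hr <;> linarith
  · rintro ⟨-, k1, k2⟩
    have := U.vH
    rcases hr with hr | hr <;> linarith
  · rw [mem_DA (Lam_odd he)]
    have := U.vH
    rintro (⟨k1, -⟩ | ⟨k1, -⟩)
    · rcases hr with hr | hr <;> linarith
    · have h3 := U.Ydt
      have h4 : (b.τ : ℤ) * (2 * h) < b.H * (2 * h : ℤ) :=
        mul_lt_mul_of_pos_right (by linarith [U.thk]) U.hn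
      rcases hr with hr | hr <;> linarith

end UpH

/-! ### The corners of the marks -/

section marks
variable {n : ℤ}

/-- the box at the row of the diagonal tile -/
lemma InQ_step (hb : b.Ok δ σ) (hn : 0 < n) {i : ℕ} {x y : ℤ}
    (hy : dst (y / n) = b.H + i) : InQ b n x y ↔ i < b.K ∧ b.st i * n ≤ x ∧ x < b.X * n := by
  unfold InQ
  rw [mem_Q hb, if_neg (by omega), hy, show ((b.H : ℤ) + i - b.H).toNat = i by omega,
    le_div_iff' hn, div_lt_iff' hn]
  unfold Ht
  constructor
  · rintro ⟨h1, h2, h3⟩; exact ⟨by omega, h3, h2⟩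
  · rintro ⟨h1, h2, h3⟩; exact ⟨by omega, h3, h2⟩

lemma dst_row (hn : 0 < n) {a : ℤ} {y : ℤ} (ha : 0 ≤ a) (h1 : a * n ≤ y) (h2 : y < (a + 1) * n) :
    dst (y / n) = a := by
  have : y / n = a := by
    have e1 := (le_div_iff' hn).2 h1
    have e2 := (div_lt_iff' hn).2 h2
    omega
  rw [this]; unfold dst; rw [if_pos ha]

lemma dst_row' (hn : 0 < n) {a : ℤ} {y : ℤ} (ha : 0 ≤ a) (h1 : -((a + 1) * n) ≤ y) (h2 : y < -(a * n)) :
    dst (y / n) = a := by
  have : y / n = -1 - a := by
    have e1 := (le_div_iff' hn).2 (show (-1 - a) * n ≤ y by linarith)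
    have e2 := (div_lt_iff' hn).2 (show y < -a * n by linarith)
    omega
  rw [this]; unfold dst; rw [if_neg (by omega)]; omega

/-- the tile right of the diagonal tile and the one on its other side -/
def nb1 (b : JBox) (n : ℤ) (c : Bool × ℕ) : ℤ × ℤ := ((dgt b n c).1 + 1, (dgt b n c).2)
/-- the neighbour of the diagonal tile towards the slit -/
def nb2 (b : JBox) (n : ℤ) (c : Bool × ℕ) : ℤ × ℤ :=
  ((dgt b n c).1, if c.1 then (dgt b n c).2 - 1 else (dgt b n c).2 + 1)

lemma f1_nb (c : Bool × ℕ) : f1 b n c = eW (lt (nb1 b n c)) := by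
  unfold f1 nb1 eE eW lt
  simp only
  exact Prod.ext (by simp only; ring) (by simp only; ring)

lemma f2_nb (c : Bool × ℕ) : Sd (lt (nb2 b n c)) (f2 b n c) := by
  unfold f2 nb2
  rcases c.1 with _ | _
  · right; right; left
    simp only [Bool.false_eq_true, if_false]
    unfold eN eS lt
    exact Prod.ext (by simp only; ring) (by simp only; ring)
  · right; right; right
    simp only [if_true]
    unfold eN eS lt
    exact Prod.ext (by simp only; ring) (by simp only; ring)

/-- **neighbours of the diagonal tiles belong to the strand graph** -/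
lemma nb_Lam (hb : b.Ok δ σ) (hn : 2 ≤ n) {c : Bool × ℕ} (hc : c.2 < b.K)
    (hM : ∀ q ∈ M, q.2 < b.K) :
    lt (nb1 b n c) ∈ Lam b n M ∧ lt (nb2 b n c) ∈ Lam b n M := by
  have hn0 : 0 < n := by linarith
  have hst := hb.st_lo c.2 hc
  have hHn : (0 : ℤ) ≤ b.H := by positivity
  -- the diagonal tiles of two different marks are far apart
  have hfar : ∀ q ∈ M, ∀ t : ℤ × ℤ, (t = nb1 b n c ∨ t = nb2 b n c) → t ≠ dgt b n q := by
    intro q hq t ht he
    have hqK := hM q hq
    obtain ⟨cs, ci⟩ := c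
    obtain ⟨qs, qi⟩ := q
    simp only at hqK hc hst
    have hci : (0 : ℤ) ≤ ci := by positivity
    have hqi : (0 : ℤ) ≤ qi := by positivity
    have key : ∀ a : ℤ, a * n = 1 → False := by
      intro a ha
      have : n ∣ 1 := ⟨a, by linarith⟩
      have := Int.le_of_dvd one_pos this
      linarith
    have key0 : ∀ a a' : ℤ, a * n = a' * n → a = a' := fun a a' haa => by
      exact Int.eq_of_mul_eq_mul_right hn0.ne' haa
    have hpos : ∀ k : ℤ, 0 ≤ k → 0 < ((b.H : ℤ) + k + 1) * n := fun k hk => by positivity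
    have p1 := hpos ci hci
    have p2 := hpos qi hqi
    unfold nb1 nb2 dgt cpt at ht
    unfold dgt cpt at he
    cases cs <;> cases qs <;> simp only [Bool.false_eq_true, if_false, if_true] at ht he <;>
      rcases ht with rfl | rfl <;> rw [Prod.mk.injEq] at he <;> obtain ⟨e1, e2⟩ := he
    · exact key (b.st qi - b.st ci) (by linarith)
    · exact key ((b.H : ℤ) + ci + 1 - (b.H + qi + 1)) (by linarith)
    · linarith
    · linarith
    · linarith
    · linarith
    · exact key (b.st qi - b.st ci) (by linarith)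
    · exact key ((b.H : ℤ) + ci + 1 - (b.H + qi + 1)) (by linarith)
  have mk : ∀ t : ℤ × ℤ, (t = nb1 b n c ∨ t = nb2 b n c) → ¬ InQ b n t.1 t.2 →
      (∃ i j : ℤ, |i| ≤ 3 ∧ |j| ≤ 3 ∧ InQ b n (t.1 + i) (t.2 + j)) → lt t ∈ Lam b n M := by
    intro t ht h1 h2
    exact ⟨t.1, t.2, rfl, Or.inr ⟨⟨h1, h2⟩, fun q hq => hfar q hq t ht⟩⟩
  obtain ⟨cs, ci⟩ := c
  simp only at hc hst
  have e1 : ((b.H : ℤ) + ci + 1) * n = (b.H + ci) * n + n := by ring
  have e2 : ((b.H : ℤ) + ci + 1 + 1) * n = (b.H + ci) * n + n + n := by ring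
  have e3 : ((b.H : ℤ) + (ci + 1 : ℕ)) = b.H + ci + 1 := by push_cast; ring
  have hp : (0 : ℤ) ≤ (b.H + ci) * n := by positivity
  have hXs : b.st ci * n + n ≤ b.X * n := by
    have : (b.st ci + 1) * n ≤ b.X * n := mul_le_mul_of_nonneg_right (by omega) hn0.le
    linarith
  have hns : ∀ y, dst (y / n) = (b.H : ℤ) + (ci + 1 : ℕ) → ¬ InQ b n (b.st ci * n) y := by
    intro y hy
    rw [InQ_step hb hn0 hy]
    rintro ⟨g1, g2, -⟩
    have := mul_lt_mul_of_pos_right (hb.st_mono ci g1) hn0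
    linarith
  constructor
  · refine mk _ (Or.inl rfl) ?_ ?_
    · unfold nb1 dgt cpt
      cases cs <;> simp only [Bool.false_eq_true, if_false, if_true, sub_add_cancel]
      · refine hns _ ?_
        rw [e3]
        exact dst_row' hn0 (by positivity) (by linarith) (by linarith)
      · refine hns _ ?_
        rw [e3]
        exact dst_row hn0 (by positivity) (by linarith) (by linarith)
    · unfold nb1 dgt cpt
      cases cs <;> simp only [Bool.false_eq_true, if_false, if_true, sub_add_cancel]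
      · refine ⟨0, 1, by norm_num, by norm_num, ?_⟩
        rw [InQ_step (i := ci) hb hn0 (dst_row' hn0 (by positivity) (by linarith) (by linarith))]
        exact ⟨hc, by linarith, by linarith⟩
      · refine ⟨0, -1, by norm_num, by norm_num, ?_⟩
        rw [InQ_step (i := ci) hb hn0 (dst_row hn0 (by positivity) (by linarith) (by linarith))]
        exact ⟨hc, by linarith, by linarith⟩
  · refine mk _ (Or.inr rfl) ?_ ?_
    · unfold nb2 dgt cpt
      cases cs <;> simp only [Bool.false_eq_true, if_false, if_true]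
      · rw [InQ_step (i := ci) hb hn0 (dst_row' hn0 (by positivity) (by linarith) (by linarith))]
        rintro ⟨-, g2, -⟩
        linarith
      · rw [InQ_step (i := ci) hb hn0 (dst_row hn0 (by positivity) (by linarith) (by linarith))]
        rintro ⟨-, g2, -⟩
        linarith
    · unfold nb2 dgt cpt
      cases cs <;> simp only [Bool.false_eq_true, if_false, if_true]
      · refine ⟨1, 0, by norm_num, by norm_num, ?_⟩
        rw [InQ_step (i := ci) hb hn0 (dst_row' hn0 (by positivity) (by linarith) (by linarith))]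
        exact ⟨hc, by linarith, by linarith⟩
      · refine ⟨1, 0, by norm_num, by norm_num, ?_⟩
        rw [InQ_step (i := ci) hb hn0 (dst_row hn0 (by positivity) (by linarith) (by linarith))]
        exact ⟨hc, by linarith, by linarith⟩

/-- rows of the neighbours -/
lemma nb_row (hn : 2 ≤ n) (c : Bool × ℕ) :
    (b.H * n ≤ (nb1 b n c).2 ∨ (nb1 b n c).2 < -(b.H * n)) ∧
      (b.H * n ≤ (nb2 b n c).2 ∨ (nb2 b n c).2 < -(b.H * n)) := by
  have h1 : ((b.H : ℤ) + c.2 + 1) * n = b.H * n + c.2 * n + n := by ring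
  have h2 : (0 : ℤ) ≤ c.2 * n := by positivity
  unfold nb1 nb2 dgt cpt
  rcases c.1 with _ | _
  · simp only [Bool.false_eq_true, if_false]
    constructor <;> right <;> linarith
  · simp only [if_true]
    constructor <;> left <;> linarith

end marks

namespace UpH

variable (U : UpH δ σ b h x1 y0 xs xe xl ρ Yd v)
include U

/-- **The corners of the marks do not move.** -/
theorem sr_marks (hM : ∀ q ∈ M, q.2 < b.K) {c : Bool × ℕ} (hc : c ∈ M) (hB : ρ ≤ b.H * (2 * h : ℤ)) :
    SR (WA b h M L o s x1 y0 v).Λ (WA b h M L o s x1 y0 v).D (Bk xl xe ρ) (St b (2 * h) xe Yd v)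
      (f1 b (2 * h) c) (f1 b (2 * h) c) ∧
    SR (WA b h M L o s x1 y0 v).Λ (WA b h M L o s x1 y0 v).D (Bk xl xe ρ) (St b (2 * h) xe Yd v)
      (f2 b (2 * h) c) (f2 b (2 * h) c) := by
  have hh := U.hh
  have hn : (2 : ℤ) ≤ 2 * h := by omega
  obtain ⟨h1, h2⟩ := nb_Lam (M := M) U.ok hn (hM c hc) hM
  obtain ⟨h3, h4⟩ := nb_row (b := b) hn c
  constructor
  · refine U.sr_of h1 ?_ hB ?_
    · rw [cy_lt]; exact h3
    · rw [f1_nb]; exact Or.inl rfl
  · refine U.sr_of h2 ?_ hB (f2_nb c)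
    rw [cy_lt]; exact h4

end UpH

end Pool.Agent.H71.W
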