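import Mathlib
import Pool.Agent.H71.W.J6E

set_option autoImplicit false
open Finset

/-! # J6: the worlds `GX`, `GY` of 61 are the worlds `WA`

`GX_eq`, `GY_eq`, `PJ_WA` (law). -/

namespace Pool.Agent.H71.W

open Pool.Agent.H61.W Pool.Agent.H6.W Pool.Agent.H58.W Pool.Agent.H21.W Pool.Agent.H50.W
open Pool.Agent.H82.W Pool.Agent.H13.W
open Pool.Agent.H19.W (cx cy lt_cc cx_lt cy_lt)
open Pool.Agent.H33.Q1 (lt tt TL ct mem_TL lt_odd)

variable {δ σ : ℝ} {b : JBox} {h : ℕ} {M : Finset (Bool × ℕ)}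
  {L L' : Finset (ℤ × ℤ)} {o s : Bool} {x1 y0 : ℤ} {v : ℤ × ℤ}

/-- `P` is in the box -/
lemma Pl_sub (hb : b.Ok δ σ) (hh : 0 < h) (hm : b.m ≤ nP b) (ht : (b.τ : ℤ) + nP b ≤ b.H) :
    b.Pl h ⊆ b.B h := by
  intro e he
  have hn : (0 : ℤ) < 2 * h := by positivity
  obtain ⟨ho, i, hi, hc⟩ := (mem_Pl' hb.M0 hh).1 he
  rw [cpl_some hb.M0 hn] at hc
  obtain ⟨⟨h1, h2⟩, h3, h4⟩ := hc
  have hM : (0 : ℤ) < b.M := by exact_mod_cast hb.M0
  have hiP : (i : ℤ) + 1 ≤ nP b := by exact_mod_cast (by omega : i + 1 ≤ nP b)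
  have h5 : ((b.τ : ℤ) + i) * (2 * h) ≤ b.H * (2 * h) :=
    mul_le_mul_of_nonneg_right (by linarith) hn.le
  have h6 : ((i : ℤ) + 1) * b.M * (2 * h) ≤ b.X * (2 * h) := by
    rw [X_eq hb]
    exact mul_le_mul_of_nonneg_right (mul_le_mul_of_nonneg_right hiP hM.le) hn.le
  have hX : (0 : ℤ) < b.X * (2 * h) := mul_pos (by exact_mod_cast X_pos hb) hn
  have h7 := plate_neg (b := b) hn h2
  rw [mem_B hh, InQ_band hb hn (by linarith) (by linarith)]
  exact ⟨ho, by linarith, by linarith⟩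

/-- tiles of plates in the box -/
lemma InC_iff {n : ℤ} {e : ℤ × ℤ} : InC b n (cx e) (cy e) ↔
    InQ b n (cx e) (cy e) ∧ ∃ i, cpl b n e = some i := by
  unfold InC cpl
  rw [Option.ne_none_iff_exists']

/-- membership in the states of `WA` -/
lemma mem_stA (hh : 0 < h) (hL : ∀ e ∈ L, e ∉ b.B h) {ω : Finset (ℤ × ℤ)} (hω : ω ⊆ b.B h \ b.Pl h)
    {e : ℤ × ℤ} (hM : 0 < b.M) : e ∈ (WA b h M L o s x1 y0 v).st ω ↔
      (e ∉ b.B h ∧ e ∈ L) ∨ (e ∈ b.B h ∧ e ∈ b.Pl h ∧ Xor (o = true) (fA s x1 y0 (cx e) (cy e))) ∨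
      (e ∈ b.B h ∧ e ∉ b.Pl h ∧ Xor (e ∈ ω) ((∃ i, cpl b (2 * h) e = some i) ∧
        fA s x1 y0 (cx e) (cy e))) := by
  classical
  have hF : e ∈ (WA b h M L o s x1 y0 v).F ↔ e ∈ b.B h ∧ (∃ i, b.m ≤ i ∧ cpl b (2 * h) e = some i) ∧
      fA s x1 y0 (cx e) (cy e) := by
    show e ∈ (b.B h).filter _ ↔ _
    rw [mem_filter]
  have hW : e ∈ (WA b h M L o s x1 y0 v).W ↔ e ∈ L ∨ (e ∈ b.B h ∧
      (∃ i < b.m, cpl b (2 * h) e = some i) ∧ Xor (o = true) (fA s x1 y0 (cx e) (cy e))) := by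
    show e ∈ L ∪ (b.B h).filter _ ↔ _
    rw [mem_union, mem_filter]
  unfold WD.st
  rw [mem_union, mem_symmDiff, hF, hW]
  by_cases hB : e ∈ b.B h
  · have hnL : e ∉ L := fun g => hL e g hB
    have ho := ((mem_B hh).1 hB).1
    by_cases hP : e ∈ b.Pl h
    · obtain ⟨-, hc⟩ := (mem_Pl' hM hh).1 hP
      have h1 : e ∉ ω := fun g => (mem_sdiff.1 (hω g)).2 hP
      have h2 : ¬ ∃ i, b.m ≤ i ∧ cpl b (2 * h) e = some i := by
        rintro ⟨i, hi, hi2⟩
        obtain ⟨j, hj, hj2⟩ := hc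
        rw [hi2, Option.some.injEq] at hj2
        omega
      simp [hB, hP, hnL, h1, h2, hc]
    · have h2 : ¬ ∃ i < b.m, cpl b (2 * h) e = some i := fun g => hP ((mem_Pl' hM hh).2 ⟨ho, g⟩)
      have h3 : (∃ i, b.m ≤ i ∧ cpl b (2 * h) e = some i) ↔ ∃ i, cpl b (2 * h) e = some i := by
        constructor
        · rintro ⟨i, -, hi⟩; exact ⟨i, hi⟩
        · rintro ⟨i, hi⟩
          refine ⟨i, ?_, hi⟩
          by_contra hc
          exact h2 ⟨i, not_le.1 hc, hi⟩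
      rw [h3]
      simp only [hB, hP, hnL, h2, Xor, true_and, false_and, or_false, false_or, not_true_eq_false,
        not_false_eq_true]
  · have h1 : e ∉ ω := fun g => hB (mem_sdiff.1 (hω g)).1
    simp [hB, h1]

/-- **61's `Y` world** -/
theorem GY_eq (hb : b.Ok δ σ) (hh : 0 < h) (hm : b.m ≤ nP b) (ht : (b.τ : ℤ) + nP b ≤ b.H) (cl : Cl)
    (hL : ∀ e ∈ Lam b (2 * h) M, e ∉ b.B h → e ∉ lt '' (strD v ∪ slD s x1) →
      (e ∈ L ↔ e ∈ Wl b (2 * h) cl)) (hL' : ∀ e ∈ L, e ∉ b.B h)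
    {ω : Finset (ℤ × ℤ)} (hω : ω ⊆ b.B h) :
    GG b (2 * h) M cl (strD v ∪ slD s x1) (symmDiff (cfg b h o ω) (flp b h s x1)) =
      (WA b h M L o s x1 (Yr s) v).G (ω \ b.Pl h) := by
  classical
  have hn : (0 : ℤ) < 2 * h := by positivity
  have hPB := Pl_sub hb hh hm ht
  unfold GG WD.G
  have hD : (WA b h M L o s x1 (Yr s) v).D = lt '' (strD v ∪ slD s x1) := rfl
  rw [hD]
  refine SG_congr (fun e _ => Iff.rfl) fun e he heD => ?_
  rw [mem_stA hh hL' (sdiff_subset_sdiff hω subset_rfl) hb.M0, mem_union, mem_symmDiff]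
  have hfl : e ∈ flp b h s x1 ↔ e ∈ b.B h ∧ (∃ i, cpl b (2 * h) e = some i) ∧
      fA s x1 (Yr s) (cx e) (cy e) := by
    unfold flp
    rw [mem_filter]
    have h1 : InC b (2 * h) (tt e).1 (tt e).2 ↔ InC b (2 * h) (cx e) (cy e) := Iff.rfl
    rw [h1, InC_iff]
    have h2 : (if s = true then 0 < (tt e).2 else (tt e).2 < -1) ↔
        (if s = true then Yr s < cy e else cy e < Yr s) := by
      unfold Yr
      rcases s <;> exact Iff.rfl
    rw [h2]
    constructor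
    · rintro ⟨g1, ⟨g2, g3⟩, g4, g5⟩
      exact ⟨g1, g3, g4, g5⟩
    · rintro ⟨g1, g3, g4, g5⟩
      exact ⟨g1, ⟨((mem_B hh).1 g1).2, g3⟩, g4, g5⟩
  rw [hfl]
  by_cases hB : e ∈ b.B h
  · have hnW : e ∉ Wl b (2 * h) cl := fun g => Wl_notMem g hh hB
    have hcf : e ∈ cfg b h o ω ↔ if e ∈ b.Pl h then o = true else e ∈ ω := by
      unfold cfg
      by_cases hP : e ∈ b.Pl h <;> rcases o <;> simp [hP]
    rw [hcf]
    by_cases hP : e ∈ b.Pl h
    · obtain ⟨-, j, -, hj⟩ := (mem_Pl' hb.M0 hh).1 hP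
      have hc : ∃ i, cpl b (2 * h) e = some i := ⟨j, hj⟩
      simp only [hB, hP, hnW, hc, if_true, true_and, false_and, or_false, not_true_eq_false, Xor,
        mem_sdiff, false_or, and_false]
    · simp only [hB, hP, hnW, if_false, true_and, false_and, or_false, not_true_eq_false, Xor,
        mem_sdiff, false_or, not_false_eq_true, and_true]
  · have h1 : e ∉ ω := fun g => hB (hω g)
    have h2 : e ∉ b.Pl h := fun g => hB (hPB g)
    have h3 : e ∉ cfg b h o ω := by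
      unfold cfg
      rcases o <;> simp [h1, h2]
    rw [← hL e he hB heD]
    simp [hB, h3]

/-- no row behind a mark: `x1` is left of everything -/
noncomputable def xL (b : JBox) (h : ℕ) : ℤ := -(b.X * (2 * h : ℤ)) - 4

lemma slR_xL (hb : b.Ok δ σ) (hh : 0 < h) {e : ℤ × ℤ} (he : e ∈ Lam b (2 * h) M) :
    ¬ cx e < xL b h := by
  have hn : (0 : ℤ) < 2 * h := by positivity
  have := Lam_col hb hn he
  unfold xL
  linarith

/-- **61's `X` world** -/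
theorem GX_eq (hb : b.Ok δ σ) (hh : 0 < h) (hm : b.m ≤ nP b) (ht : (b.τ : ℤ) + nP b ≤ b.H) (cl : Cl)
    {ω : Finset (ℤ × ℤ)} (hω : ω ⊆ b.B h) :
    GG b (2 * h) M cl (strD v) (cfg b h o ω) =
      (WA b h M (Wl b (2 * h) cl) o s (xL b h) y0 v).G (ω \ b.Pl h) := by
  classical
  have hn : (0 : ℤ) < 2 * h := by positivity
  have hPB := Pl_sub hb hh hm ht
  have hL' : ∀ e ∈ Wl b (2 * h) cl, e ∉ b.B h := fun e he => Wl_notMem he hh
  unfold GG WD.G
  refine SG_congr (fun e he => ?_) fun e he _ => ?_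
  · have ho := Lam_odd he
    rw [mem_DA ho, mem_strD ho]
    have := slR_xL hb hh he
    tauto
  · have hf : ¬ fA s (xL b h) y0 (cx e) (cy e) := fun g => slR_xL hb hh he g.1
    rw [mem_stA hh hL' (sdiff_subset_sdiff hω subset_rfl) hb.M0, mem_union]
    by_cases hB : e ∈ b.B h
    · have hnW : e ∉ Wl b (2 * h) cl := fun g => Wl_notMem g hh hB
      have hcf : e ∈ cfg b h o ω ↔ if e ∈ b.Pl h then o = true else e ∈ ω := by
        unfold cfg
        by_cases hP : e ∈ b.Pl h <;> rcases o <;> simp [hP]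
      rw [hcf]
      by_cases hP : e ∈ b.Pl h
      · simp [hB, hP, hnW, hf, Xor]
      · simp [hB, hP, hnW, hf, Xor]
    · have h1 : e ∉ ω := fun g => hB (hω g)
      have h2 : e ∉ b.Pl h := fun g => hB (hPB g)
      have h3 : e ∉ cfg b h o ω := by
        unfold cfg
        rcases o <;> simp [h1, h2]
      simp [hB, h3]

/-- the law of the labels outside `P` -/
theorem PJ_sdiff (A : Finset (ℤ × ℤ) → Prop) : b.PJ h (fun ω => A (ω \ b.Pl h)) =
    PB (b.B h \ b.Pl h) (blk (cpl b (2 * h))) A := by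
  unfold JBox.PJ
  rw [blk_cpl, ← PB_restrict (sdiff_subset : b.B h \ b.Pl h ⊆ b.B h)]
  refine PB_congr fun ω hω => ?_
  have : ω ∩ (b.B h \ b.Pl h) = ω \ b.Pl h := by
    ext e
    rw [mem_inter, mem_sdiff, mem_sdiff]
    exact ⟨fun g => ⟨g.1, g.2.2⟩, fun g => ⟨g.1, hω g.1, g.2⟩⟩
  rw [this]

end Pool.Agent.H71.W
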