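import Mathlib
import Pool.Agent.H71.W.J6F
import Pool.Agent.H35.W.Force

set_option autoImplicit false
open Finset

/-! # J6: the canonical world = the base world with the forced upper bank

`Fr b h xs` : first row of the room over the plates right of `xs`. `w0 b h o xs Yd ω` : the plates right of `xs`
flipped above the row `Yd`. `G0 b h M bse o xs Yd ω` : base world. `PB_WB` : law of the canonical world. -/

namespace Pool.Agent.H71.W

open Pool.Agent.H61.W Pool.Agent.H6.W Pool.Agent.H58.W Pool.Agent.H21.W Pool.Agent.H50.W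
open Pool.Agent.H82.W Pool.Agent.H13.W
open Pool.Agent.H75.Perc (Pr Pr_restrict Pr_congr)
open Pool.Agent.H35.W (Force mem_Force)
open Pool.Agent.H19.W (cx cy lt_cc cx_lt cy_lt cx_up cy_up cx_dn cy_dn odd_up odd_dn)
open Pool.Agent.H33.Q1 (lt tt TL ct mem_TL lt_odd)

variable {δ σ : ℝ} {b : JBox} {h : ℕ} {M : Finset (Bool × ℕ)} {bse o s : Bool} {xs Yd y0 : ℤ}

section pull
variable {α β : Type*} [DecidableEq α] [DecidableEq β]

/-- a world whose labels are read from the labels of another one -/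
theorem PB_pull {E E' : Finset α} {b b' : α → β} (src : α → α) (h1 : ∀ e ∈ E', src e ∈ E)
    (h2 : ∀ e ∈ E', b' e = b (src e)) (A : Finset α → Prop) :
    PB E b (fun ω => A (E'.filter fun e => src e ∈ ω)) = PB E' b' A := by
  unfold PB
  have hs : E'.image b' ⊆ E.image b := by
    intro x hx
    obtain ⟨e, he, rfl⟩ := mem_image.1 hx
    rw [h2 e he]
    exact mem_image_of_mem b (h1 e he)
  rw [← Pr_restrict hs (fun ω => A (up E' b' ω))]
  refine Pr_congr fun ω _ => ?_
  beta_reduce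
  have : (E'.filter fun e => src e ∈ up E b ω) = up E' b' (ω ∩ E'.image b') := by
    ext e
    rw [mem_filter, mem_up, mem_up, mem_inter]
    constructor
    · rintro ⟨g1, -, g2⟩
      exact ⟨g1, by rw [h2 e g1]; exact g2, mem_image_of_mem b' g1⟩
    · rintro ⟨g1, g2, -⟩
      rw [h2 e g1] at g2
      exact ⟨g1, h1 e g1, g2⟩
  rw [this]

end pull

open Classical in
/-- first row of the room over the plates right of `xs` -/
noncomputable def Fr (b : JBox) (h : ℕ) (xs : ℤ) : Finset (ℤ × ℤ) :=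
  (b.B h).filter fun e => xs ≤ cx e ∧ cx e < 0 ∧ cy e = ((b.τ : ℤ) + pin b (2 * h) (cx e)) * (2 * h)

open Classical in
/-- the part of the plates which is flipped -/
noncomputable def fU (b : JBox) (h : ℕ) (xs Yd : ℤ) : Finset (ℤ × ℤ) :=
  (b.B h).filter fun e => (∃ i, cpl b (2 * h) e = some i) ∧ xs ≤ cx e ∧ Yd < cy e

/-- configuration of the base world -/
noncomputable def w0 (b : JBox) (h : ℕ) (o : Bool) (xs Yd : ℤ) (ω : Finset (ℤ × ℤ)) :
    Finset (ℤ × ℤ) := symmDiff (cfg b h o ω) (fU b h xs Yd)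

/-- **the base world** -/
noncomputable def G0 (b : JBox) (h : ℕ) (M : Finset (Bool × ℕ)) (bse o : Bool) (xs Yd : ℤ)
    (ω : Finset (ℤ × ℤ)) : SimpleGraph (ℤ × ℤ) :=
  GG b (2 * h) M (colM bse M (some Yd)) (strD (xs, Yd)) (w0 b h o xs Yd ω)

/-- the same with the forced upper bank -/
noncomputable def G1 (b : JBox) (h : ℕ) (M : Finset (Bool × ℕ)) (bse o : Bool) (xs Yd : ℤ)
    (ω : Finset (ℤ × ℤ)) : SimpleGraph (ℤ × ℤ) :=
  GG b (2 * h) M (colM bse M (some Yd)) (strD (xs, Yd)) (Force (Fr b h xs) dn (w0 b h o xs Yd ω))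

open Classical in
/-- the label which shows the state of a label of the canonical world -/
noncomputable def src (b : JBox) (h : ℕ) (xs : ℤ) (e : ℤ × ℤ) : ℤ × ℤ :=
  if e ∈ Fr b h xs then dn e else e

lemma mem_Fr {e : ℤ × ℤ} : e ∈ Fr b h xs ↔ e ∈ b.B h ∧ xs ≤ cx e ∧ cx e < 0 ∧
    cy e = ((b.τ : ℤ) + pin b (2 * h) (cx e)) * (2 * h) := by
  unfold Fr
  rw [mem_filter]

lemma mem_fU {e : ℤ × ℤ} : e ∈ fU b h xs Yd ↔ e ∈ b.B h ∧ (∃ i, cpl b (2 * h) e = some i) ∧
    xs ≤ cx e ∧ Yd < cy e := by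
  classical
  unfold fU
  exact mem_filter

/-- the plate under a forced tile -/
lemma cpl_dn (hM : 0 < b.M) (hτ : 0 < b.τ) (hh : 0 < h) {e : ℤ × ℤ} (he : e ∈ Fr b h xs) :
    cpl b (2 * h) (dn e) = some (pin b (2 * h) (cx e)) ∧
      rpl b (2 * h) xs e = some (pin b (2 * h) (cx e)) ∧ cpl b (2 * h) e = none := by
  have hn : (0 : ℤ) < 2 * h := by positivity
  obtain ⟨-, h1, h2, h3⟩ := mem_Fr.1 he
  have h4 := (pin_eq (b := b) hM hn h2).1 rfl
  have h5 : (0 : ℤ) < ((b.τ : ℤ) + pin b (2 * h) (cx e)) * (2 * h) := by positivity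
  refine ⟨?_, ?_, ?_⟩
  · rw [cpl_some hM hn, cx_dn, cy_dn]
    exact ⟨h4, by linarith, by linarith⟩
  · rw [rpl_some hM hn]
    exact ⟨h4, by linarith, Or.inr ⟨h1, h3⟩⟩
  · by_contra hc
    rw [← ne_eq, Option.ne_none_iff_exists'] at hc
    obtain ⟨j, hj⟩ := hc
    rw [cpl_some hM hn] at hj
    have := (pin_eq (b := b) hM hn h2).2 hj.1
    rw [← this] at hj
    linarith [hj.2.2]

/-- the plates of a label of the canonical world -/
lemma rpl_src (hM : 0 < b.M) (hτ : 0 < b.τ) (hh : 0 < h) {e : ℤ × ℤ} (he : e ∈ b.B h) :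
    rpl b (2 * h) xs e = cpl b (2 * h) (src b h xs e) := by
  unfold src
  split_ifs with hF
  · obtain ⟨h1, h2, -⟩ := cpl_dn hM hτ hh hF
    rw [h1, h2]
  · unfold rpl rch
    rw [if_neg]
    · rfl
    · rintro ⟨g1, g2, g3⟩
      exact hF (mem_Fr.2 ⟨he, g1, g2, g3⟩)

/-- the tile under a forced tile is in the box -/
lemma dn_mem (hb : b.Ok δ σ) (hh : 0 < h) (ht : (b.τ : ℤ) + nP b < b.H) {e : ℤ × ℤ}
    (he : e ∈ Fr b h xs) : dn e ∈ b.B h := by
  have hn : (0 : ℤ) < 2 * h := by positivity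
  obtain ⟨h0, h1, h2, h3⟩ := mem_Fr.1 he
  obtain ⟨ho, hI⟩ := (mem_B hh).1 h0
  have hcol := InQ_col hb hn hI
  have h4 := (pin_eq (b := b) hb.M0 hn h2).1 rfl
  have h5 := plate_lt hb hn hcol.1 h4.2
  have h6 : ((b.τ : ℤ) + pin b (2 * h) (cx e)) * (2 * h) ≤ b.H * (2 * h) := by
    have : (pin b (2 * h) (cx e) : ℤ) < nP b := by exact_mod_cast h5
    exact mul_le_mul_of_nonneg_right (by linarith) hn.le
  have h7 : (0 : ℤ) ≤ ((b.τ : ℤ) + pin b (2 * h) (cx e)) * (2 * h) := by positivity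
  have h8 : (0 : ℤ) < b.H * (2 * h) := mul_pos (by exact_mod_cast hb.H0) hn
  rw [mem_B hh, odd_dn, cx_dn, cy_dn, InQ_band hb hn (by linarith) (by linarith)]
  exact ⟨ho, hcol⟩

/-- membership in the states of the canonical world -/
lemma mem_stB {L : Finset (ℤ × ℤ)} {x1 : ℤ} (hL : ∀ e ∈ L, e ∉ b.B h)
    {ω : Finset (ℤ × ℤ)} (hω : ω ⊆ (WB b h M L o s x1 y0 xs Yd).E) {e : ℤ × ℤ} :
    e ∈ (WB b h M L o s x1 y0 xs Yd).st ω ↔
      (e ∉ b.B h ∧ e ∈ L) ∨ (e ∈ b.B h ∧ (∃ i < b.m, rpl b (2 * h) xs e = some i) ∧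
        Xor (o = true) (Xor (fA s x1 y0 (cx e) (cy e)) (xs ≤ cx e ∧ Yd < cy e))) ∨
      (e ∈ b.B h ∧ (¬ ∃ i < b.m, rpl b (2 * h) xs e = some i) ∧
        Xor (e ∈ ω) ((∃ i, rpl b (2 * h) xs e = some i) ∧
          Xor (fA s x1 y0 (cx e) (cy e)) (xs ≤ cx e ∧ Yd < cy e))) := by
  classical
  have hF : e ∈ (WB b h M L o s x1 y0 xs Yd).F ↔ e ∈ b.B h ∧
      (∃ i, b.m ≤ i ∧ rpl b (2 * h) xs e = some i) ∧
      Xor (fA s x1 y0 (cx e) (cy e)) (xs ≤ cx e ∧ Yd < cy e) := by
    show e ∈ (b.B h).filter _ ↔ _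
    rw [mem_filter]
  have hW : e ∈ (WB b h M L o s x1 y0 xs Yd).W ↔ e ∈ L ∨ (e ∈ b.B h ∧
      (∃ i < b.m, rpl b (2 * h) xs e = some i) ∧
      Xor (o = true) (Xor (fA s x1 y0 (cx e) (cy e)) (xs ≤ cx e ∧ Yd < cy e))) := by
    show e ∈ L ∪ (b.B h).filter _ ↔ _
    rw [mem_union, mem_filter]
  unfold WD.st
  rw [mem_union, mem_symmDiff, hF, hW]
  by_cases hB : e ∈ b.B h
  · have hnL : e ∉ L := fun g => hL e g hB
    by_cases hP : ∃ i < b.m, rpl b (2 * h) xs e = some i
    · have h1 : e ∉ ω := fun g => (mem_filter.1 (hω g)).2 hP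
      have h2 : ¬ ∃ i, b.m ≤ i ∧ rpl b (2 * h) xs e = some i := by
        rintro ⟨i, hi, hi2⟩
        obtain ⟨j, hj, hj2⟩ := hP
        rw [hi2, Option.some.injEq] at hj2
        omega
      simp only [hB, hP, hnL, h1, h2, true_and, false_and, or_false, false_or, not_true_eq_false,
        not_false_eq_true]
    · have h3 : (∃ i, b.m ≤ i ∧ rpl b (2 * h) xs e = some i) ↔
          ∃ i, rpl b (2 * h) xs e = some i := by
        constructor
        · rintro ⟨i, -, hi⟩; exact ⟨i, hi⟩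
        · rintro ⟨i, hi⟩
          refine ⟨i, ?_, hi⟩
          by_contra hc
          exact hP ⟨i, not_le.1 hc, hi⟩
      rw [h3]
      simp only [hB, hP, hnL, Xor, true_and, false_and, or_false, false_or, not_true_eq_false,
        not_false_eq_true]
  · have h1 : e ∉ ω := fun g => hB (mem_filter.1 (hω g)).1
    simp [hB, h1]

lemma mem_cfg {ω : Finset (ℤ × ℤ)} {e : ℤ × ℤ} : e ∈ cfg b h o ω ↔
    (e ∈ b.Pl h ∧ o = true) ∨ (e ∉ b.Pl h ∧ e ∈ ω) := by
  unfold cfg
  by_cases hP : e ∈ b.Pl h <;> rcases o <;> simp [hP]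

/-- **The canonical world (no row behind a mark) is the base world with the forced upper bank.** -/
theorem WB_G (hb : b.Ok δ σ) (hh : 0 < h) (hm : b.m ≤ nP b) (ht : (b.τ : ℤ) + nP b < b.H)
    (hY : Yd + 1 < b.τ * (2 * h : ℤ)) {ω : Finset (ℤ × ℤ)} (hω : ω ⊆ b.B h) :
    (WB b h M (Wl b (2 * h) (colM bse M (some Yd))) o s (xL b h) y0 xs Yd).G
      ((WB b h M (Wl b (2 * h) (colM bse M (some Yd))) o s (xL b h) y0 xs Yd).E.filter
        fun e => src b h xs e ∈ ω) = G1 b h M bse o xs Yd ω := by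
  classical
  have hn : (0 : ℤ) < 2 * h := by positivity
  have hPB := Pl_sub hb hh hm ht.le
  have hL' : ∀ e ∈ Wl b (2 * h) (colM bse M (some Yd)), e ∉ b.B h := fun e he => Wl_notMem he hh
  unfold G1 GG WD.G
  refine SG_congr (fun e he => ?_) fun e he _ => ?_
  · have ho := Lam_odd he
    rw [mem_DB ho, mem_strD ho]
    have := slR_xL hb hh he
    tauto
  · have hf : ¬ fA s (xL b h) y0 (cx e) (cy e) := fun g => slR_xL hb hh he g.1
    rw [mem_stB hL' (filter_subset _ _), mem_union, mem_Force]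
    by_cases hB : e ∈ b.B h
    · have hnW : e ∉ Wl b (2 * h) (colM bse M (some Yd)) := fun g => Wl_notMem g hh hB
      have ho := ((mem_B hh).1 hB).1
      have hE : e ∈ (WB b h M (Wl b (2 * h) (colM bse M (some Yd))) o s (xL b h) y0 xs Yd).E ↔
          ¬ ∃ i < b.m, rpl b (2 * h) xs e = some i := by
        show e ∈ (b.B h).filter _ ↔ _
        rw [mem_filter]
        exact ⟨fun g => g.2, fun g => ⟨hB, g⟩⟩
      by_cases hF : e ∈ Fr b h xs
      · obtain ⟨h1, h2, h3⟩ := cpl_dn hb.M0 hb.τ0 hh hF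
        have hd := dn_mem hb hh ht hF
        obtain ⟨-, g1, g2, g3⟩ := mem_Fr.1 hF
        have g4 : (b.τ : ℤ) * (2 * h) ≤ ((b.τ : ℤ) + pin b (2 * h) (cx e)) * (2 * h) := by
          have : (0 : ℤ) ≤ (pin b (2 * h) (cx e) : ℤ) * (2 * h) := by positivity
          linarith
        have c1 : (xs ≤ cx e ∧ Yd < cy e) := ⟨g1, by linarith⟩
        have c2 : dn e ∈ fU b h xs Yd := by
          rw [mem_fU, cx_dn, cy_dn]
          exact ⟨hd, ⟨_, h1⟩, g1, by linarith⟩
        have hsrc : src b h xs e = dn e := if_pos hF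
        have hod : ((dn e).1 + (dn e).2) % 2 = 1 := odd_dn.2 ho
        have hPd : dn e ∈ b.Pl h ↔ pin b (2 * h) (cx e) < b.m := by
          rw [mem_Pl' hb.M0 hh, h1]
          simp only [Option.some.injEq]
          constructor
          · rintro ⟨-, i, hi, rfl⟩; exact hi
          · intro g; exact ⟨hod, _, g, rfl⟩
        have hP' : (∃ i < b.m, rpl b (2 * h) xs e = some i) ↔ pin b (2 * h) (cx e) < b.m := by
          rw [h2]
          simp only [Option.some.injEq]
          constructor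
          · rintro ⟨i, hi, rfl⟩; exact hi
          · intro g; exact ⟨_, g, rfl⟩
        have hex : ∃ i, rpl b (2 * h) xs e = some i := ⟨_, h2⟩
        unfold w0
        rw [mem_symmDiff, mem_symmDiff, mem_cfg, mem_cfg, hPd, mem_filter, hE, hP', hsrc]
        by_cases hp : pin b (2 * h) (cx e) < b.m
        · simp only [hB, hF, hnW, c1, c2, hp, hf, Xor, true_and, false_and, or_false,
            false_or, not_true_eq_false, not_false_eq_true, and_true, and_false, and_self]
        · simp only [hB, hF, hnW, c1, c2, hp, hf, hex, Xor, true_and, false_and, or_false,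
            false_or, not_true_eq_false, not_false_eq_true, and_true, and_false, and_self]
      · have hsrc : src b h xs e = e := if_neg hF
        have hr := rpl_src (xs := xs) hb.M0 hb.τ0 hh hB
        rw [hsrc] at hr
        have hPd : e ∈ b.Pl h ↔ ∃ i < b.m, cpl b (2 * h) e = some i := by
          rw [mem_Pl' hb.M0 hh]
          exact ⟨fun g => g.2, fun g => ⟨ho, g⟩⟩
        unfold w0
        rw [mem_symmDiff, mem_symmDiff, mem_cfg, mem_cfg, mem_filter, hE, hsrc, hr, mem_fU, hPd]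
        by_cases hp : ∃ i < b.m, cpl b (2 * h) e = some i
        · have hex : ∃ i, cpl b (2 * h) e = some i := by
            obtain ⟨i, -, hi⟩ := hp
            exact ⟨i, hi⟩
          simp only [hB, hF, hnW, hp, hf, hex, Xor, true_and, false_and, or_false,
            false_or, not_true_eq_false, not_false_eq_true, and_true, and_false]
        · simp only [hB, hF, hnW, hp, hf, Xor, true_and, false_and, or_false,
            false_or, not_true_eq_false, not_false_eq_true, and_true, and_false]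
    · have h1 : e ∉ ω := fun g => hB (hω g)
      have h2 : e ∉ b.Pl h := fun g => hB (hPB g)
      have h3 : e ∉ Fr b h xs := fun g => hB (mem_Fr.1 g).1
      have h4 : e ∉ w0 b h o xs Yd ω := by
        unfold w0
        rw [mem_symmDiff, mem_cfg, mem_fU]
        simp [h1, h2, hB]
      simp [hB, h3, h4]

/-- **Law of the canonical world.** -/
theorem PB_WB (hb : b.Ok δ σ) (hh : 0 < h) (hm : b.m ≤ nP b) (ht : (b.τ : ℤ) + nP b < b.H)
    (hY : Yd + 1 < b.τ * (2 * h : ℤ)) (A : SimpleGraph (ℤ × ℤ) → Prop) :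
    PB (WB b h M (Wl b (2 * h) (colM bse M (some Yd))) o s (xL b h) y0 xs Yd).E
      (WB b h M (Wl b (2 * h) (colM bse M (some Yd))) o s (xL b h) y0 xs Yd).b
      (fun ω => A ((WB b h M (Wl b (2 * h) (colM bse M (some Yd))) o s (xL b h) y0 xs Yd).G ω)) =
    b.PJ h (fun ω => A (G1 b h M bse o xs Yd ω)) := by
  set W := WB b h M (Wl b (2 * h) (colM bse M (some Yd))) o s (xL b h) y0 xs Yd with hW
  have hsub : ∀ e ∈ W.E, e ∈ b.B h := fun e he => (mem_filter.1 he).1
  rw [← PB_pull (E := b.B h) (b := blk (cpl b (2 * h))) (src b h xs) ?_ ?_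
    (fun ω => A (W.G ω))]
  · unfold JBox.PJ
    rw [← blk_cpl]
    refine PB_congr fun ω hω => ?_
    rw [hW, WB_G hb hh hm ht hY hω]
  · intro e he
    unfold src
    split_ifs with hF
    · exact dn_mem hb hh ht hF
    · exact hsub e he
  · intro e he
    show blk (rpl b (2 * h) xs) e = blk (cpl b (2 * h)) (src b h xs e)
    have h1 := rpl_src (xs := xs) hb.M0 hb.τ0 hh (hsub e he)
    rcases hc : cpl b (2 * h) (src b h xs e) with _ | i
    · rw [hc] at h1
      have hF : e ∉ Fr b h xs := by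
        intro hF
        rw [(cpl_dn hb.M0 hb.τ0 hh hF).2.1] at h1
        exact absurd h1 (by simp)
      have hsrc : src b h xs e = e := if_neg hF
      rw [blk_none h1, blk_none hc, hsrc]
    · rw [hc] at h1
      rw [blk_some h1, blk_some hc]

end Pool.Agent.H71.W
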