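import Mathlib
import Pool.Agent.H71.W.J6G

set_option autoImplicit false
open Finset

/-! # J6: reflection and flip of the coins right of `xs` for the base world

`PJ_G0_mir` : the reflected base world with the row `-1 - Yd` and the chunk `P` in the state `o` is the base
world with the row `Yd` and `P` in the state `!o`. -/

namespace Pool.Agent.H71.W

open Pool.Agent.H61.W Pool.Agent.H6.W Pool.Agent.H58.W Pool.Agent.H21.W Pool.Agent.H50.W
open Pool.Agent.H82.W Pool.Agent.H13.W Pool.Agent.H16.W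
open Pool.Agent.H45.W (sw sw_sw swF mem_swF swF_swF)
open Pool.Agent.H35.W (PB_flip)
open Pool.Agent.H19.W (cx cy lt_cc cx_lt cy_lt cx_up cy_up cx_dn cy_dn odd_up odd_dn)
open Pool.Agent.H33.Q1 (lt tt TL ct mem_TL lt_odd)

variable {δ σ : ℝ} {b : JBox} {h : ℕ} {M : Finset (Bool × ℕ)} {bse o s : Bool} {xs Yd y0 : ℤ}

lemma cx_sw (e : ℤ × ℤ) : cx (sw e) = cx e := by
  unfold cx sw; simp only; rw [add_comm e.2 e.1]

lemma cy_sw {e : ℤ × ℤ} (ho : (e.1 + e.2) % 2 = 1) : cy (sw e) = -1 - cy e := by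
  unfold cy sw; simp only; omega

lemma odd_sw {e : ℤ × ℤ} : ((sw e).1 + (sw e).2) % 2 = 1 ↔ (e.1 + e.2) % 2 = 1 := by
  unfold sw; simp only; rw [add_comm]

lemma cpl_sw {n : ℤ} (hM : 0 < b.M) (hn : 0 < n) {e : ℤ × ℤ} (ho : (e.1 + e.2) % 2 = 1) :
    cpl b n (sw e) = cpl b n e := by
  have key : ∀ i, cpl b n (sw e) = some i ↔ cpl b n e = some i := by
    intro i
    rw [cpl_some hM hn, cpl_some hM hn, cx_sw, cy_sw ho]
    constructor
    · rintro ⟨h1, h2, h3⟩; exact ⟨h1, by omega, by omega⟩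
    · rintro ⟨h1, h2, h3⟩; exact ⟨h1, by omega, by omega⟩
  rcases hc : cpl b n e with _ | i
  · rcases hr : cpl b n (sw e) with _ | i
    · rfl
    · rw [key i, hc] at hr
      exact absurd hr (by simp)
  · exact (key i).2 hc

lemma sw_mem_B (hh : 0 < h) {e : ℤ × ℤ} : sw e ∈ b.B h ↔ e ∈ b.B h := by
  rw [← mem_swF, B_sw hh]

lemma sw_mem_Pl (hh : 0 < h) {e : ℤ × ℤ} : sw e ∈ b.Pl h ↔ e ∈ b.Pl h := by
  rw [← mem_swF, Pl_sw hh]

open Classical in
/-- labels of the plates right of `xs` -/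
noncomputable def FK (b : JBox) (h : ℕ) (xs : ℤ) : Finset (ℤ × ℤ) :=
  (b.B h).filter fun e => (∃ i, cpl b (2 * h) e = some i) ∧ xs ≤ cx e

lemma mem_FK {e : ℤ × ℤ} : e ∈ FK b h xs ↔ e ∈ b.B h ∧ (∃ i, cpl b (2 * h) e = some i) ∧
    xs ≤ cx e := by
  classical
  unfold FK
  exact mem_filter

/-- flipping the coins right of a plate boundary preserves the law -/
theorem PJ_flip (hM : 0 < b.M) (hh : 0 < h) {k : ℕ} (hxs : xs = -(k * b.M * (2 * h) : ℤ))
    (A : Finset (ℤ × ℤ) → Prop) :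
    b.PJ h (fun ω => A (symmDiff ω (FK b h xs))) = b.PJ h A := by
  have hn : (0 : ℤ) < 2 * h := by positivity
  have hMn : (0 : ℤ) < b.M * (2 * h) := mul_pos (by exact_mod_cast hM) hn
  unfold JBox.PJ
  refine PB_flip (fun e he => (mem_FK.1 he).1) (fun l hl l' hl' hll => ?_) A
  rw [← blk_cpl, blk_eq_iff] at hll
  rcases hll with rfl | ⟨-, h2⟩
  · exact hl
  · obtain ⟨g1, ⟨i, hi⟩, g3⟩ := mem_FK.1 hl
    rw [hi] at h2
    refine mem_FK.2 ⟨hl', ⟨i, h2.symm⟩, ?_⟩
    have k1 := (cpl_some hM hn).1 hi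
    have k2 := (cpl_some hM hn).1 h2.symm
    have h3 : (i : ℤ) * (b.M * (2 * h)) < k * (b.M * (2 * h)) := by
      have := k1.1.2
      linarith
    have h4 : (i : ℤ) < k := lt_of_mul_lt_mul_right h3 hMn.le
    have h5 : ((i : ℤ) + 1) * (b.M * (2 * h)) ≤ k * (b.M * (2 * h)) :=
      mul_le_mul_of_nonneg_right (by omega) hMn.le
    linarith [k2.1.1]

/-- the states of the reflected base world -/
lemma w0_mir (hb : b.Ok δ σ) (hh : 0 < h) (hm : b.m ≤ nP b) (ht : (b.τ : ℤ) + nP b ≤ b.H) (hP : xs ≤ -(b.m * b.M * (2 * h) : ℤ)) {ω : Finset (ℤ × ℤ)}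
    {e : ℤ × ℤ} (ho : (e.1 + e.2) % 2 = 1) (hD : ¬ (cy e = Yd ∧ xs ≤ cx e)) :
    e ∈ swF (w0 b h o xs (-1 - Yd) ω) ↔ e ∈ w0 b h (!o) xs Yd (symmDiff (swF ω) (FK b h xs)) := by
  have hn : (0 : ℤ) < 2 * h := by positivity
  have hM : (0 : ℤ) < b.M := by exact_mod_cast hb.M0
  rw [mem_swF]
  unfold w0
  rw [mem_symmDiff, mem_symmDiff, mem_cfg, mem_cfg, mem_fU, mem_fU, sw_mem_B hh, sw_mem_Pl hh,
    cpl_sw hb.M0 hn ho, cx_sw, cy_sw ho, mem_symmDiff, mem_swF, mem_FK]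
  have hlt : (-1 - Yd < -1 - cy e) ↔ cy e < Yd := by omega
  rw [hlt]
  by_cases hPl : e ∈ b.Pl h
  · obtain ⟨-, i, hi, hc⟩ := (mem_Pl' hb.M0 hh).1 hPl
    have hx : xs ≤ cx e := by
      have h1 := ((cpl_some hb.M0 hn).1 hc).1.1
      have h2 : ((i : ℤ) + 1) * b.M * (2 * h) ≤ b.m * b.M * (2 * h) := by
        have : (i : ℤ) + 1 ≤ b.m := by exact_mod_cast (by omega : i + 1 ≤ b.m)
        exact mul_le_mul_of_nonneg_right (mul_le_mul_of_nonneg_right this hM.le) hn.le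
      linarith
    have hy : (cy e < Yd) ↔ ¬ (Yd < cy e) := by
      constructor
      · intro g; omega
      · intro g
        rcases lt_trichotomy (cy e) Yd with g1 | g1 | g1
        · exact g1
        · exact absurd ⟨g1, hx⟩ hD
        · exact absurd g1 g
    have hex : ∃ i, cpl b (2 * h) e = some i := ⟨i, hc⟩
    have hB : e ∈ b.B h := Pl_sub hb hh hm ht hPl
    rw [hy]
    by_cases hY : Yd < cy e <;> rcases o <;> simp [hPl, hB, hY, hex, hx]
  · by_cases hx : xs ≤ cx e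
    · have hy : (cy e < Yd) ↔ ¬ (Yd < cy e) := by
        constructor
        · intro g; omega
        · intro g
          rcases lt_trichotomy (cy e) Yd with g1 | g1 | g1
          · exact g1
          · exact absurd ⟨g1, hx⟩ hD
          · exact absurd g1 g
      rw [hy]
      by_cases hB : e ∈ b.B h <;> by_cases hY : Yd < cy e <;> by_cases hw : sw e ∈ ω <;>
        by_cases hex : ∃ i, cpl b (2 * h) e = some i <;>
        simp [hPl, hB, hY, hex, hx, hw]
    · simp [hPl, hx]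

/-- **Reflection and coin flip of the base world.** -/
theorem reach_G0_mir (hb : b.Ok δ σ) (hh : 0 < h) (hm : b.m ≤ nP b) (ht : (b.τ : ℤ) + nP b ≤ b.H)
    (hP : xs ≤ -(b.m * b.M * (2 * h) : ℤ)) (bse o : Bool) (M : Finset (Bool × ℕ)) (ω : Finset (ℤ × ℤ))
    {c d : ℤ × ℤ} :
    (G0 b h (M.image rm) (bse ^^ tp M (some Yd)) o xs (-1 - Yd) ω).Reachable (sw c) (sw d) ↔
      (G0 b h M bse (!o) xs Yd (symmDiff (swF ω) (FK b h xs))).Reachable c d := by
  have hn : (0 : ℤ) < 2 * h := by positivity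
  have hX : (0 : ℤ) < b.X * (2 * h) := mul_pos (by exact_mod_cast X_pos hb) hn
  have hxs0 : xs ≤ 0 := by
    have h2 : (0 : ℤ) ≤ b.m * b.M * (2 * h) := by positivity
    linarith
  unfold G0
  have e1 : strD (xs, -1 - Yd) = rpS (strD (xs, Yd)) := strD_rp (xs, Yd)
  rw [e1, ← swF_swF (w0 b h o xs (-1 - Yd) ω),
    reach_GGM hn bse M (some Yd) (some (-1 - Yd)) rfl (strD (xs, Yd))
      (by
        intro r hr x hx
        rw [Option.some.injEq] at hr
        exact ⟨hr.symm, by show xs ≤ x; linarith⟩)]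
  have e2 : GG b (2 * h) M (colM bse M (some Yd)) (strD (xs, Yd)) (swF (w0 b h o xs (-1 - Yd) ω)) =
      GG b (2 * h) M (colM bse M (some Yd)) (strD (xs, Yd))
        (w0 b h (!o) xs Yd (symmDiff (swF ω) (FK b h xs))) := by
    unfold GG
    refine SG_congr (fun _ _ => Iff.rfl) fun e he hD => ?_
    have ho := Lam_odd he
    rw [mem_strD ho] at hD
    rw [mem_union, mem_union, w0_mir hb hh hm ht hP ho hD]
  rw [e2]

/-- **law form**: the lower canonical value is the upper one with `P` in the other state. -/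
theorem PJ_G0_mir (hb : b.Ok δ σ) (hh : 0 < h) (hm : b.m ≤ nP b) (ht : (b.τ : ℤ) + nP b ≤ b.H)
    {k : ℕ} (hxs : xs = -(k * b.M * (2 * h) : ℤ)) (hP : xs ≤ -(b.m * b.M * (2 * h) : ℤ))
    (bse o : Bool) (M : Finset (Bool × ℕ)) (c d : ℤ × ℤ) :
    b.PJ h (fun ω => (G0 b h (M.image rm) (bse ^^ tp M (some Yd)) o xs (-1 - Yd) ω).Reachable
      (sw c) (sw d)) =
      b.PJ h (fun ω => (G0 b h M bse (!o) xs Yd ω).Reachable c d) := by
  have e1 : (fun ω => (G0 b h (M.image rm) (bse ^^ tp M (some Yd)) o xs (-1 - Yd) ω).Reachable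
      (sw c) (sw d)) = fun ω => (fun η => (G0 b h M bse (!o) xs Yd
        (symmDiff η (FK b h xs))).Reachable c d) (swF ω) := by
    funext ω
    exact propext (reach_G0_mir hb hh hm ht hP bse o M ω)
  rw [e1]
  exact (PJ_sw hh (fun η => (G0 b h M bse (!o) xs Yd (symmDiff η (FK b h xs))).Reachable c d)).trans
    (PJ_flip hb.M0 hh hxs (fun η => (G0 b h M bse (!o) xs Yd η).Reachable c d))

end Pool.Agent.H71.W
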