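import Mathlib
import Pool.Agent.H71.W.J6H
import Pool.Agent.H45.W.Ends

set_option autoImplicit false
open Finset

/-! # J6: the far ends, `Half` for the junction worlds

`fM b n q β` : the two corners of the mark `q` (`β = true` : `f1`). `fM_inj`, `fM_end`, `zc_end`, `fM_ne_zc`,
`fM_un` : a moving end is joined to at most one of them. `UpH.half` : the structure `Half` of 82. -/

namespace Pool.Agent.H71.W

open Pool.Agent.H61.W Pool.Agent.H6.W Pool.Agent.H58.W Pool.Agent.H21.W Pool.Agent.H50.W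
open Pool.Agent.H82.W Pool.Agent.H13.W Pool.Agent.H99.W
open Pool.Agent.H75.Perc (lab)
open Pool.Agent.H75.TwoArm (plab)
open Pool.Agent.H19.W (cx cy lt_cc cx_lt cy_lt mv)
open Pool.Agent.H33.Q1 (lt tt TL ct mem_TL lt_odd lt_inj)

variable {δ σ : ℝ} {b : JBox} {h : ℕ} {n : ℤ} {M : Finset (Bool × ℕ)}
  {L L' : Finset (ℤ × ℤ)} {o s : Bool} {x1 y0 xs xe xl ρ Yd : ℤ} {v : ℤ × ℤ}

/-- the corners of a mark -/
def fM (b : JBox) (n : ℤ) (q : Bool × ℕ) (β : Bool) : ℤ × ℤ := if β then f1 b n q else f2 b n q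

lemma Sd_f1 (q : Bool × ℕ) : Sd (lt (dgt b n q)) (f1 b n q) := Or.inr (Or.inl rfl)

lemma Sd_f2 (q : Bool × ℕ) : Sd (lt (dgt b n q)) (f2 b n q) := by
  unfold f2
  rcases q.1 with _ | _
  · exact Or.inr (Or.inr (Or.inr rfl))
  · exact Or.inr (Or.inr (Or.inl rfl))

lemma Sd_fM (q : Bool × ℕ) (β : Bool) : Sd (lt (dgt b n q)) (fM b n q β) := by
  unfold fM
  rcases β with _ | _
  · exact Sd_f2 q
  · exact Sd_f1 q

/-- rows of the corners of a tile -/
lemma Sd_coord {e c : ℤ × ℤ} (hs : Sd e c) : (e.1 ≤ c.1 ∧ c.1 ≤ e.1 + 1) ∧ (e.2 ≤ c.2 ∧ c.2 ≤ e.2 + 1) := by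
  rcases hs with rfl | rfl | rfl | rfl <;> simp [eW, eE, eS, eN]

/-- the diagonal tiles are not in the strand graph -/
lemma dgt_notMem (hb : b.Ok δ σ) (hn : 0 < n) {q : Bool × ℕ} (hq : q ∈ M) (hK : q.2 < b.K) :
    lt (dgt b n q) ∉ Lam b n M := by
  rw [mem_Lam, cx_lt, cy_lt]
  rintro ⟨-, h | ⟨-, h⟩⟩
  · obtain ⟨qs, i⟩ := q
    simp only at hK
    have e1 : ((b.H : ℤ) + i + 1) * n = (b.H + i) * n + n := by ring
    have e2 : ((b.H : ℤ) + i + 1 + 1) * n = (b.H + i) * n + n + n := by ring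
    have e3 : ((b.H : ℤ) + (i + 1 : ℕ)) = b.H + i + 1 := by push_cast; ring
    have hns : ∀ y, dst (y / n) = (b.H : ℤ) + (i + 1 : ℕ) → ¬ InQ b n (b.st i * n - 1) y := by
      intro y hy
      rw [InQ_step hb hn hy]
      rintro ⟨g1, g2, -⟩
      have := mul_lt_mul_of_pos_right (hb.st_mono i g1) hn
      linarith
    unfold dgt cpt at h
    cases qs <;> simp only [Bool.false_eq_true, if_false, if_true] at h
    · refine hns _ ?_ h
      rw [e3]
      exact dst_row' hn (by positivity) (by linarith) (by linarith)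
    · refine hns _ ?_ h
      rw [e3]
      exact dst_row hn (by positivity) (by linarith) (by linarith)
  · exact h q hq rfl

/-- the corners of the marks are ends -/
lemma fM_end (hb : b.Ok δ σ) (hn : 0 < n) {q : Bool × ℕ} (hq : q ∈ M) (hK : q.2 < b.K) (β : Bool)
    (D : Set (ℤ × ℤ)) (w : Finset (ℤ × ℤ)) : IsEnd (SG (Lam b n M) D w) (fM b n q β) := by
  refine isEnd_of_notMem ?_
  have h1 := dgt_notMem hb hn hq hK
  rcases of_side (lt_odd _) (fM b n q β) (Sd_fM q β) with h | h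
  · left; rwa [← h]
  · right; rwa [← h]

/-- the moving end is an end -/
lemma zc_end {D : Set (ℤ × ℤ)} {w : Finset (ℤ × ℤ)} {Λ : Set (ℤ × ℤ)} (hD : lt v ∈ D) :
    IsEnd (SG Λ D w) (zc v) := isEnd_eW hD (lt_odd v)

/-- rows of the diagonal tiles, stronger -/
lemma dgt_row' (hn : 0 < n) (q : Bool × ℕ) :
    ((b.H : ℤ) * n + n ≤ (dgt b n q).2) ∨ ((dgt b n q).2 < -(b.H * n) - n) := by
  unfold dgt cpt
  have h1 : ((b.H : ℤ) + q.2 + 1) * n = b.H * n + n + q.2 * n := by ring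
  have h2 : (0 : ℤ) ≤ q.2 * n := by positivity
  rcases q.1 with _ | _
  · right
    simp only [Bool.false_eq_true, if_false]
    rw [h1]; linarith
  · left
    simp only [if_true]
    rw [h1]; linarith

/-- corners of the marks and a corner in the band -/
lemma fM_ne (hn : 2 ≤ n) {q : Bool × ℕ} {β : Bool} {e c : ℤ × ℤ} (ho : (e.1 + e.2) % 2 = 1)
    (hc : Sd e c) (h1 : -(b.H * n) ≤ cy e) (h2 : cy e < b.H * n) : fM b n q β ≠ c := by
  intro he
  have a1 := Sd_coord hc
  have a2 := Sd_coord (Sd_fM (b := b) (n := n) q β)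
  rw [he] at a2
  have a3 := dgt_row' (b := b) (by linarith : 0 < n) q
  have a4 : (lt (dgt b n q)).2 - (lt (dgt b n q)).1 = 2 * (dgt b n q).2 + 1 := by
    unfold lt; simp only; ring
  have a5 : e.2 - e.1 = 2 * cy e + 1 := by
    unfold cy; omega
  rcases a3 with a3 | a3 <;> omega

/-- the marks are determined by their corners -/
lemma fM_inj (hb : b.Ok δ σ) (hn : 0 < n) {q q' : Bool × ℕ} {β β' : Bool} (hK : q.2 < b.K)
    (hK' : q'.2 < b.K) (he : fM b n q β = fM b n q' β') : q = q' ∧ β = β' := by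
  have hd : ∀ {q q' : Bool × ℕ}, q.2 < b.K → q'.2 < b.K → dgt b n q = dgt b n q' → q = q' := by
    intro q q' hK hK' h
    obtain ⟨s, i⟩ := q
    obtain ⟨s', j⟩ := q'
    simp only at hK hK'
    have r1 := dgt_row' (b := b) hn (s, i)
    unfold dgt cpt at h
    have p1 : (0 : ℤ) < (b.H + i + 1) * n := by positivity
    have p2 : (0 : ℤ) < (b.H + j + 1) * n := by positivity
    have hx := congrArg Prod.fst h
    simp only at hx
    have hx' : b.st i = b.st j := by
      have : b.st i * n = b.st j * n := by linarith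
      exact Int.eq_of_mul_eq_mul_right hn.ne' this
    have hij : i = j := by
      have k1 := (st_le_iff hb hK hK').1 hx'.le
      have k2 := (st_le_iff hb hK' hK).1 hx'.ge
      omega
    subst hij
    have hs : s = s' := by
      cases s <;> cases s' <;> simp only [Bool.false_eq_true, if_false, if_true, Prod.mk.injEq] at h <;>
        first
        | rfl
        | (exfalso; linarith [h.2])
    rw [hs]
  have o1 := lt_odd (dgt b n q)
  have o2 := lt_odd (dgt b n q')
  have r1 := dgt_row' (b := b) hn q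
  have r2 := dgt_row' (b := b) hn q'
  have y1 : (lt (dgt b n q)).2 - (lt (dgt b n q)).1 = 2 * (dgt b n q).2 + 1 := by
    unfold lt; simp only; ring
  have y2 : (lt (dgt b n q')).2 - (lt (dgt b n q')).1 = 2 * (dgt b n q').2 + 1 := by
    unfold lt; simp only; ring
  have hHn : (0 : ℤ) ≤ b.H * n := by positivity
  have p1 : (0 : ℤ) < ((b.H : ℤ) + q.2 + 1) * n := by positivity
  have p2 : (0 : ℤ) < ((b.H : ℤ) + q'.2 + 1) * n := by positivity
  unfold fM f1 f2 at he
  have key : lt (dgt b n q) = lt (dgt b n q') → β = β' → q = q' ∧ β = β' := fun h1 h2 =>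
    ⟨hd hK hK' (lt_inj h1), h2⟩
  cases β <;> cases β' <;> simp only [Bool.false_eq_true, if_false, if_true] at he
  · rcases hq : q.1 with _ | _ <;> rcases hq' : q'.1 with _ | _ <;>
      simp only [hq, hq', Bool.false_eq_true, if_false, if_true] at he
    · refine key ?_ rfl
      unfold eN at he
      rw [Prod.mk.injEq] at he
      exact Prod.ext (by omega) (by omega)
    · exfalso
      unfold eN eS at he
      rw [Prod.mk.injEq] at he
      unfold dgt cpt at r1 r2 y1 y2 he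
      simp only [hq, hq', Bool.false_eq_true, if_false, if_true] at r1 r2 y1 y2 he
      omega
    · exfalso
      unfold eN eS at he
      rw [Prod.mk.injEq] at he
      unfold dgt cpt at r1 r2 y1 y2 he
      simp only [hq, hq', Bool.false_eq_true, if_false, if_true] at r1 r2 y1 y2 he
      omega
    · refine key ?_ rfl
      unfold eS at he
      rw [Prod.mk.injEq] at he
      exact Prod.ext (by omega) (by omega)
  · exfalso
    unfold eN eS eE at he
    split_ifs at he <;> rw [Prod.mk.injEq] at he <;> omega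
  · exfalso
    unfold eN eS eE at he
    split_ifs at he <;> rw [Prod.mk.injEq] at he <;> omega
  · refine key ?_ rfl
    unfold eE at he
    rw [Prod.mk.injEq] at he
    exact Prod.ext (by omega) (by omega)

/-- far ends: index set -/
abbrev Ix (M : Finset (Bool × ℕ)) : Type := {q // q ∈ M} × Bool

/-- the corner with the index `i` -/
def yM (b : JBox) (n : ℤ) (M : Finset (Bool × ℕ)) (i : Ix M) : ℤ × ℤ := fM b n i.1.1 i.2

/-- **a moving end in the band is joined to at most one corner of the marks** -/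
theorem yM_un (hb : b.Ok δ σ) (hn : 2 ≤ n) (hM : ∀ q ∈ M, q.2 < b.K) {D : Set (ℤ × ℤ)}
    {w : Finset (ℤ × ℤ)} (hD : lt v ∈ D) (h1 : -(b.H * n) ≤ v.2) (h2 : v.2 < b.H * n) (i j : Ix M)
    (hi : (SG (Lam b n M) D w).Reachable (zc v) (yM b n M i))
    (hj : (SG (Lam b n M) D w).Reachable (zc v) (yM b n M j)) : i = j := by
  have hn0 : 0 < n := by linarith
  have hne : ∀ i : Ix M, yM b n M i ≠ zc v := fun i => by
    refine fM_ne hn (lt_odd v) (Or.inl rfl) ?_ ?_
    · rw [cy_lt]; exact h1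
    · rw [cy_lt]; exact h2
  have key : yM b n M i = yM b n M j :=
    Pool.Agent.H45.W.far_unique (zc_end hD) (fM_end hb hn0 j.1.2 (hM _ j.1.2) _ _ _)
      (fM_end hb hn0 i.1.2 (hM _ i.1.2) _ _ _) (hne j) (hne i) hj hi
  have := fM_inj hb hn0 (hM _ i.1.2) (hM _ j.1.2) key
  exact Prod.ext (Subtype.ext this.1) this.2

/-- the worlds of the `X` kind as graphs of 61 -/
lemma WA_GG (hb : b.Ok δ σ) (hh : 0 < h) (cl : Cl) {ω : Finset (ℤ × ℤ)} (hω : ω ⊆ b.B h \ b.Pl h) :
    (WA b h M (Wl b (2 * h) cl) o s (xL b h) y0 v).G ω = GG b (2 * h) M cl (strD v)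
      ((WA b h M (Wl b (2 * h) cl) o s (xL b h) y0 v).st ω ∩ b.B h) := by
  have hL' : ∀ e ∈ Wl b (2 * h) cl, e ∉ b.B h := fun e he => Wl_notMem he hh
  unfold GG WD.G
  refine SG_congr (fun e he => ?_) fun e he _ => ?_
  · have ho := Lam_odd he
    rw [mem_DA ho, mem_strD ho]
    have := slR_xL hb hh he
    tauto
  · rw [mem_union, mem_inter, mem_stA hh hL' hω hb.M0]
    by_cases hB : e ∈ b.B h
    · have hnW : e ∉ Wl b (2 * h) cl := fun g => Wl_notMem g hh hB
      simp only [hB, hnW, and_true, or_false, not_true_eq_false, false_or, and_false]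
    · simp only [hB, not_false_eq_true, true_and, false_and, and_false, or_false, false_or]

lemma WB_GG (hb : b.Ok δ σ) (hh : 0 < h) (cl : Cl) {ω : Finset (ℤ × ℤ)}
    (hω : ω ⊆ (WB b h M (Wl b (2 * h) cl) o s (xL b h) y0 xs Yd).E) :
    (WB b h M (Wl b (2 * h) cl) o s (xL b h) y0 xs Yd).G ω = GG b (2 * h) M cl (strD (xs, Yd))
      ((WB b h M (Wl b (2 * h) cl) o s (xL b h) y0 xs Yd).st ω ∩ b.B h) := by
  have hL' : ∀ e ∈ Wl b (2 * h) cl, e ∉ b.B h := fun e he => Wl_notMem he hh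
  unfold GG WD.G
  refine SG_congr (fun e he => ?_) fun e he _ => ?_
  · have ho := Lam_odd he
    rw [mem_DB ho, mem_strD ho]
    have := slR_xL hb hh he
    tauto
  · rw [mem_union, mem_inter, mem_stB hL' hω]
    by_cases hB : e ∈ b.B h
    · have hnW : e ∉ Wl b (2 * h) cl := fun g => Wl_notMem g hh hB
      simp only [hB, hnW, and_true, or_false, not_true_eq_false, false_or, and_false]
    · simp only [hB, not_false_eq_true, true_and, false_and, and_false, or_false, false_or]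

namespace UpH

variable (U : UpH δ σ b h x1 y0 xs xe xl ρ Yd v)
include U

lemma zc_KB : zc v ∈ KB (Bk xl xe ρ) := by
  have hr := U.rho_lo
  have hm : lt v ∈ Bk xl xe ρ := by
    refine ⟨⟨?_, ?_⟩, ?_, ?_⟩
    · rw [cx_lt]; exact U.xlv
    · rw [cx_lt]; exact U.vxe
    · rw [cy_lt]; linarith [U.vd, U.y0d]
    · rw [cy_lt]; exact U.vr
  show lab (zc v) ∈ Bk xl xe ρ ∨ plab (zc v) ∈ Bk xl xe ρ
  rcases of_side (lt_odd v) (zc v) (Or.inl rfl) with h | h
  · left; rwa [← h]
  · right; rwa [← h]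

/-- **`Half` for the junction worlds.** -/
theorem half (hL : Lay b h M L L' x1 y0 xe Yd v) (hM : ∀ q ∈ M, q.2 < b.K)
    (hB : ρ ≤ b.H * (2 * h : ℤ)) {Blk : Finset (ℤ × ℤ) → Prop}
    (blk : ∀ ω2, ω2 ⊆ (WB b h M L' o s x1 y0 xs Yd).E → Blk (ω2 ∩ O2 b h x1 y0 xe xl ρ Yd v) →
      ∃ (I : Set (ℤ × ℤ)) (e : ℤ × ℤ),
        (∀ u w, u ∈ I → w ∉ I → ((WB b h M L' o s x1 y0 xs Yd).G ω2).Adj u w → w = e) ∧
        (∀ c ∈ KB (Bk xl xe ρ), ∀ c', SR (WA b h M L o s x1 y0 v).Λ (WA b h M L o s x1 y0 v).D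
          (Bk xl xe ρ) (St b (2 * h) xe Yd v) c c' → c' ∈ I) ∧ zc (xs, Yd) ∈ I ∧
        ∀ i : Ix M, yM b (2 * h) M i ∉ I)
    (ex1 : ∀ ω, ω ⊆ (WA b h M L o s x1 y0 v).E → ∃ i : Ix M,
      ((WA b h M L o s x1 y0 v).G ω).Reachable (zc v) (yM b (2 * h) M i))
    (ex2 : ∀ ω, ω ⊆ (WB b h M L' o s x1 y0 xs Yd).E → ∃ i : Ix M,
      ((WB b h M L' o s x1 y0 xs Yd).G ω).Reachable (zc (xs, Yd)) (yM b (2 * h) M i)) :
    Half (WA b h M L o s x1 y0 v) (WB b h M L' o s x1 y0 xs Yd) (mv (St b (2 * h) xe Yd v))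
      (St b (2 * h) xe Yd v) (O1 b h x1 y0 xe xl ρ v) (O2 b h x1 y0 xe xl ρ Yd v)
      (KB (Bk xl xe ρ)) (SR (WA b h M L o s x1 y0 v).Λ (WA b h M L o s x1 y0 v).D (Bk xl xe ρ)
        (St b (2 * h) xe Yd v)) (zc v) (zc (xs, Yd)) (yM b (2 * h) M) (yM b (2 * h) M) Blk where
  lm := U.lm hL
  simu ω1 ω2 hC := U.simu hL hC
  blk := blk
  hz := U.zc_KB
  hR i := by
    obtain ⟨h1, h2⟩ := U.sr_marks (L := L) (o := o) (s := s) hM i.1.2 hB
    unfold yM fM
    rcases i.2 with _ | _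
    · exact h2
    · exact h1
  ex1 := ex1
  ex2 := ex2
  un ω _ i j hi hj := by
    have hr := U.rho_lo
    have hY := U.Ydt
    have hH : (b.τ : ℤ) * (2 * h) < b.H * (2 * h : ℤ) := by
      have h1 : (b.τ : ℤ) < b.H := by
        linarith [U.thk, (Nat.cast_nonneg (nP b) : (0 : ℤ) ≤ nP b)]
      exact mul_lt_mul_of_pos_right h1 U.hn
    have hh := U.hh
    refine yM_un (v := (xs, Yd)) U.ok (by omega) hM ?_ ?_ ?_ i j hi hj
    · exact ⟨(xs, Yd), Or.inl ⟨rfl, le_refl _⟩, rfl⟩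
    · show -(b.H * (2 * h : ℤ)) ≤ Yd
      linarith [U.y0d]
    · show Yd < b.H * (2 * h : ℤ)
      linarith

end UpH

end Pool.Agent.H71.W
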