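import Mathlib
import Pool.Agent.H71.W.J6I
import Pool.Agent.H45.W.EndsJ8
import Pool.Agent.H82.W.Conv

set_option autoImplicit false
open Finset hiding val

/-! # J6: values of the moving end as sums over the marks

`SMk M K p = ∑ q ∈ M, K q * p q`. `GX_val` : the value of the moving end is `val WA`; `WB_val` : the value of the
canonical world is the value of the base world with the forced bank. `ex_A`, `ex_B` : a far end exists (45). -/

namespace Pool.Agent.H71.W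

open Pool.Agent.H61.W Pool.Agent.H6.W Pool.Agent.H58.W Pool.Agent.H21.W Pool.Agent.H50.W
open Pool.Agent.H82.W Pool.Agent.H13.W
open Pool.Agent.H19.W (cx cy lt_cc cx_lt cy_lt mv)
open Pool.Agent.H33.Q1 (lt tt TL ct mem_TL lt_odd lt_inj)

variable {δ σ : ℝ} {b : JBox} {h : ℕ} {M : Finset (Bool × ℕ)} {bse o s : Bool}
  {x1 y0 xs xe xl ρ Yd : ℤ} {v : ℤ × ℤ} {K : Bool × ℕ → ℂ}

/-- sum over the marks -/
noncomputable def SMk (M : Finset (Bool × ℕ)) (K : Bool × ℕ → ℂ) (p : Bool × ℕ → ℝ) : ℂ :=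
  ∑ q ∈ M, K q * (p q : ℂ)

lemma SMk_congr {p p' : Bool × ℕ → ℝ} (hp : ∀ q ∈ M, p q = p' q) : SMk M K p = SMk M K p' :=
  sum_congr rfl fun q hq => by rw [hp q hq]

lemma SMk_sub_le {p p' : Bool × ℕ → ℝ} {η : ℝ} (hK : ∀ q, ‖K q‖ ≤ 1) (hp : ∀ q ∈ M, |p q - p' q| ≤ η) :
    ‖SMk M K p - SMk M K p'‖ ≤ M.card * η := by
  unfold SMk
  rw [← sum_sub_distrib]
  refine (norm_sum_le _ _).trans ?_
  rw [← nsmul_eq_mul]
  refine sum_le_card_nsmul _ _ _ fun q hq => ?_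
  rw [← mul_sub, norm_mul, ← Complex.ofReal_sub, Complex.norm_real, Real.norm_eq_abs]
  calc ‖K q‖ * |p q - p' q| ≤ 1 * |p q - p' q| :=
        mul_le_mul_of_nonneg_right (hK q) (abs_nonneg _)
    _ ≤ η := by rw [one_mul]; exact hp q hq

/-- **the value with weights constant on the marks** -/
theorem val_eq {β : Type*} [DecidableEq β] {n : ℤ} {W : WD β} {z : ℤ × ℤ}
    (un : ∀ ω, ω ⊆ W.E → ∀ i j : Ix M, (W.G ω).Reachable z (yM b n M i) →
      (W.G ω).Reachable z (yM b n M j) → i = j) (K : Bool × ℕ → ℂ) :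
    val W z (yM b n M) (fun i => K i.1.1) =
      SMk M K fun q => PB W.E W.b (fun ω => RF b n (W.G ω) z q) := by
  unfold val SMk
  rw [Fintype.sum_prod_type, ← sum_coe_sort M]
  refine sum_congr rfl fun q _ => ?_
  beta_reduce
  show ∑ y : Bool, K q.1 * _ = _
  rw [← mul_sum]
  congr 1
  symm
  refine PB_disj W.E W.b (fun (β : Bool) ω => (W.G ω).Reachable z (yM b n M (q, β))) _ ?_ ?_
  · intro ω _
    unfold RF yM fM
    constructor
    · rintro (h1 | h1)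
      · exact ⟨true, h1⟩
      · exact ⟨false, h1⟩
    · rintro ⟨β, h1⟩
      rcases β with _ | _
      · exact Or.inr h1
      · exact Or.inl h1
  · intro ω hω k k' h1 h2
    have := un ω hω (q, k) (q, k') h1 h2
    exact (Prod.ext_iff.1 this).2

/-- one corner from the mark -/
lemma ix_of_ex {G : SimpleGraph (ℤ × ℤ)} {n : ℤ} {z : ℤ × ℤ} (h1 : ∃! q, q ∈ M ∧ RF b n G z q) :
    ∃ i : Ix M, G.Reachable z (yM b n M i) := by
  obtain ⟨q, ⟨hq, h2⟩, -⟩ := h1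
  rcases h2 with h2 | h2
  · exact ⟨(⟨q, hq⟩, true), h2⟩
  · exact ⟨(⟨q, hq⟩, false), h2⟩

namespace UpH

variable (U : UpH δ σ b h x1 y0 xs xe xl ρ Yd v)
include U

lemma tH : (b.τ : ℤ) * (2 * h) < b.H * (2 * h : ℤ) := by
  have h1 : (b.τ : ℤ) < b.H := by
    linarith [U.thk, (Nat.cast_nonneg (nP b) : (0 : ℤ) ≤ nP b)]
  exact mul_lt_mul_of_pos_right h1 U.hn

lemma inQv : InQ b (2 * h) v.1 v.2 := by
  have hr := U.rho_lo
  have h3 := U.Xn
  have h4 := U.xe0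
  rw [InQ_band U.ok U.hn (by linarith [U.vd, U.y0d]) U.vH]
  exact ⟨by linarith [U.xl0, U.xlv], by linarith [U.vxe]⟩

lemma inQs : InQ b (2 * h) xs Yd := by
  have hr := U.rho_lo
  have h3 := U.Xn
  have h4 := U.xe0
  rw [InQ_band U.ok U.hn (by linarith [U.y0d]) (by linarith [U.Ydt, U.tH])]
  exact ⟨by linarith [U.xl0, U.xls], by linarith [U.xse]⟩

/-- a far end exists, world of the moving end -/
theorem ex_A (hM : ∀ q ∈ M, q.2 < b.K) (hc : par M.card = true) (ω : Finset (ℤ × ℤ))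
    (hω : ω ⊆ (WA b h M (Wl b (2 * h) (colM bse M (some v.2))) o s (xL b h) y0 v).E) :
    ∃ i : Ix M, ((WA b h M (Wl b (2 * h) (colM bse M (some v.2))) o s (xL b h) y0 v).G ω).Reachable
      (zc v) (yM b (2 * h) M i) := by
  rw [WA_GG U.ok U.hh _ hω]
  exact ix_of_ex (Pool.Agent.H45.W.GG_ex (Pool.Agent.H45.W.BG.of_ok U.ok) U.hh hM hc U.inQv
    inter_subset_right)

/-- a far end exists, canonical world -/
theorem ex_B (hM : ∀ q ∈ M, q.2 < b.K) (hc : par M.card = true) (ω : Finset (ℤ × ℤ))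
    (hω : ω ⊆ (WB b h M (Wl b (2 * h) (colM bse M (some Yd))) o s (xL b h) y0 xs Yd).E) :
    ∃ i : Ix M, ((WB b h M (Wl b (2 * h) (colM bse M (some Yd))) o s (xL b h) y0 xs Yd).G ω).Reachable
      (zc (xs, Yd)) (yM b (2 * h) M i) := by
  rw [WB_GG U.ok U.hh _ hω]
  exact ix_of_ex (Pool.Agent.H45.W.GG_ex (v := (xs, Yd)) (Pool.Agent.H45.W.BG.of_ok U.ok) U.hh hM hc
    U.inQs inter_subset_right)

/-- uniqueness, world of the moving end -/
theorem un_A (hM : ∀ q ∈ M, q.2 < b.K) {L : Finset (ℤ × ℤ)} (ω : Finset (ℤ × ℤ)) (i j : Ix M)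
    (hi : ((WA b h M L o s x1 y0 v).G ω).Reachable (zc v) (yM b (2 * h) M i))
    (hj : ((WA b h M L o s x1 y0 v).G ω).Reachable (zc v) (yM b (2 * h) M j)) : i = j := by
  have hr := U.rho_lo
  have hh := U.hh
  refine yM_un U.ok (by omega) hM ?_ ?_ U.vH i j hi hj
  · exact ⟨v, Or.inl ⟨rfl, le_refl _⟩, rfl⟩
  · linarith [U.y0d, U.vd]

/-- uniqueness, canonical world -/
theorem un_B (hM : ∀ q ∈ M, q.2 < b.K) {L : Finset (ℤ × ℤ)} (ω : Finset (ℤ × ℤ)) (i j : Ix M)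
    (hi : ((WB b h M L o s x1 y0 xs Yd).G ω).Reachable (zc (xs, Yd)) (yM b (2 * h) M i))
    (hj : ((WB b h M L o s x1 y0 xs Yd).G ω).Reachable (zc (xs, Yd)) (yM b (2 * h) M j)) : i = j := by
  have hr := U.rho_lo
  have hh := U.hh
  have hH := U.tH
  refine yM_un (v := (xs, Yd)) U.ok (by omega) hM ?_ ?_ ?_ i j hi hj
  · exact ⟨(xs, Yd), Or.inl ⟨rfl, le_refl _⟩, rfl⟩
  · show -(b.H * (2 * h : ℤ)) ≤ Yd
    linarith [U.y0d]
  · show Yd < b.H * (2 * h : ℤ)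
    linarith [U.Ydt]

end UpH

/-- **the value of the moving end** -/
theorem GX_val (U : UpH δ σ b h (xL b h) y0 xs xe xl ρ Yd v) (hM : ∀ q ∈ M, q.2 < b.K)
    (K : Bool × ℕ → ℂ) :
    SMk M K (fun q => b.PJ h (fun ω => RF b (2 * h) (GG b (2 * h) M (colM bse M (some v.2)) (strD v)
      (cfg b h o ω)) (zc v) q)) =
    val (WA b h M (Wl b (2 * h) (colM bse M (some v.2))) o s (xL b h) y0 v) (zc v) (yM b (2 * h) M)
      (fun i => K i.1.1) := by
  rw [val_eq fun ω _ i j => U.un_A hM ω i j]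
  refine SMk_congr fun q _ => ?_
  have e1 : (WA b h M (Wl b (2 * h) (colM bse M (some v.2))) o s (xL b h) y0 v).E =
    b.B h \ b.Pl h := rfl
  have e2 : (WA b h M (Wl b (2 * h) (colM bse M (some v.2))) o s (xL b h) y0 v).b =
    blk (cpl b (2 * h)) := rfl
  rw [e1, e2, ← PJ_sdiff]
  unfold JBox.PJ
  refine PB_congr fun ω hω => ?_
  rw [GX_eq (o := o) (s := s) (y0 := y0) U.ok U.hh U.mn U.thk.le _ hω]

/-- **the value of the canonical world** -/
theorem WB_val (U : UpH δ σ b h (xL b h) y0 xs xe xl ρ Yd v) (hM : ∀ q ∈ M, q.2 < b.K)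
    (hY : Yd + 1 < b.τ * (2 * h : ℤ)) (K : Bool × ℕ → ℂ) :
    val (WB b h M (Wl b (2 * h) (colM bse M (some Yd))) o s (xL b h) y0 xs Yd) (zc (xs, Yd))
      (yM b (2 * h) M) (fun i => K i.1.1) =
    SMk M K (fun q => b.PJ h (fun ω => RF b (2 * h) (G1 b h M bse o xs Yd ω) (zc (xs, Yd)) q)) := by
  rw [val_eq fun ω _ i j => U.un_B hM ω i j]
  refine SMk_congr fun q _ => ?_
  exact PB_WB U.ok U.hh U.mn U.thk hY (fun G => RF b (2 * h) G (zc (xs, Yd)) q)

end Pool.Agent.H71.W
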