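import Mathlib
import Pool.Agent.H71.W.J6G
import Pool.Agent.H82.W.EB

set_option autoImplicit false
set_option linter.unusedSimpArgs false
open Finset

/-! # J6, Y worlds: the canonical world = the base world with the forced upper bank

`fUY` : flipped plate labels, `w0Y`, `G0Y`, `G1Y` : base world with a row `y0` behind the mark `x1` and layer `L`.
`PB_WBY`, `EB_WBY` : law of the canonical world `WB` (any layer, any row `y0` under the row `Yd`). -/

namespace Pool.Agent.H71.W

open Pool.Agent.H61.W Pool.Agent.H6.W Pool.Agent.H58.W Pool.Agent.H21.W Pool.Agent.H50.W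
open Pool.Agent.H82.W Pool.Agent.H13.W
open Pool.Agent.H75.Perc (Pr Pr_restrict Pr_congr)
open Pool.Agent.H35.W (Force mem_Force)
open Pool.Agent.H19.W (cx cy lt_cc cx_lt cy_lt cx_up cy_up cx_dn cy_dn odd_up odd_dn)
open Pool.Agent.H33.Q1 (lt tt TL ct mem_TL lt_odd)

variable {δ σ : ℝ} {b : JBox} {h : ℕ} {M : Finset (Bool × ℕ)} {L : Finset (ℤ × ℤ)} {o s : Bool}
  {x1 xs Yd y0 : ℤ}

open Classical in
/-- the part of the plates which is flipped -/
noncomputable def fUY (b : JBox) (h : ℕ) (s : Bool) (x1 y0 xs Yd : ℤ) : Finset (ℤ × ℤ) :=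
  (b.B h).filter fun e => (∃ i, cpl b (2 * h) e = some i) ∧
    Xor (fA s x1 y0 (cx e) (cy e)) (xs ≤ cx e ∧ Yd < cy e)

/-- configuration of the base world -/
noncomputable def w0Y (b : JBox) (h : ℕ) (o s : Bool) (x1 y0 xs Yd : ℤ) (ω : Finset (ℤ × ℤ)) :
    Finset (ℤ × ℤ) := symmDiff (cfg b h o ω) (fUY b h s x1 y0 xs Yd)

/-- **the base world** -/
noncomputable def G0Y (b : JBox) (h : ℕ) (M : Finset (Bool × ℕ)) (L : Finset (ℤ × ℤ)) (o s : Bool)
    (x1 y0 xs Yd : ℤ) (ω : Finset (ℤ × ℤ)) : SimpleGraph (ℤ × ℤ) :=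
  SG (Lam b (2 * h) M) (lt '' (strD (xs, Yd) ∪ slR y0 x1)) (w0Y b h o s x1 y0 xs Yd ω ∪ L)

/-- the same with the forced upper bank -/
noncomputable def G1Y (b : JBox) (h : ℕ) (M : Finset (Bool × ℕ)) (L : Finset (ℤ × ℤ)) (o s : Bool)
    (x1 y0 xs Yd : ℤ) (ω : Finset (ℤ × ℤ)) : SimpleGraph (ℤ × ℤ) :=
  SG (Lam b (2 * h) M) (lt '' (strD (xs, Yd) ∪ slR y0 x1))
    (Force (Fr b h xs) dn (w0Y b h o s x1 y0 xs Yd ω) ∪ L)

lemma mem_fUY {e : ℤ × ℤ} : e ∈ fUY b h s x1 y0 xs Yd ↔ e ∈ b.B h ∧ (∃ i, cpl b (2 * h) e = some i) ∧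
    Xor (fA s x1 y0 (cx e) (cy e)) (xs ≤ cx e ∧ Yd < cy e) := by
  classical
  unfold fUY
  exact mem_filter

/-- **The canonical world is the base world with the forced upper bank.** -/
theorem WB_GY (hb : b.Ok δ σ) (hh : 0 < h) (hm : b.m ≤ nP b) (ht : (b.τ : ℤ) + nP b < b.H)
    (hY : Yd + 1 < b.τ * (2 * h : ℤ)) (hy : y0 + 1 < b.τ * (2 * h : ℤ)) (hL : ∀ e ∈ L, e ∉ b.B h)
    {ω : Finset (ℤ × ℤ)} (hω : ω ⊆ b.B h) :
    (WB b h M L o s x1 y0 xs Yd).G ((WB b h M L o s x1 y0 xs Yd).E.filter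
        fun e => src b h xs e ∈ ω) = G1Y b h M L o s x1 y0 xs Yd ω := by
  classical
  have hn : (0 : ℤ) < 2 * h := by positivity
  have hPB := Pl_sub hb hh hm ht.le
  unfold G1Y WD.G
  refine SG_congr (fun e he => Iff.rfl) fun e he _ => ?_
  rw [mem_stB hL (filter_subset _ _), mem_union, mem_Force]
  by_cases hB : e ∈ b.B h
  · have hnW : e ∉ L := fun g => hL e g hB
    have ho := ((mem_B hh).1 hB).1
    have hE : e ∈ (WB b h M L o s x1 y0 xs Yd).E ↔ ¬ ∃ i < b.m, rpl b (2 * h) xs e = some i := by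
      show e ∈ (b.B h).filter _ ↔ _
      rw [mem_filter]
      exact ⟨fun g => g.2, fun g => ⟨hB, g⟩⟩
    by_cases hF : e ∈ Fr b h xs
    · obtain ⟨h1, h2, h3⟩ := cpl_dn hb.M0 hb.τ0 hh hF
      have hd := dn_mem hb hh ht hF
      obtain ⟨-, g1, g2, g3⟩ := mem_Fr.1 hF
      have g4 : (b.τ : ℤ) * (2 * h) ≤ ((b.τ : ℤ) + pin b (2 * h) (cx e)) * (2 * h) := by
        have : (0 : ℤ) ≤ (pin b (2 * h) (cx e) : ℤ) * (2 * h) := by positivity
        linarith
      have c1 : (xs ≤ cx e ∧ Yd < cy e) := ⟨g1, by linarith⟩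
      have hfA : fA s x1 y0 (cx e) (cy e - 1) ↔ fA s x1 y0 (cx e) (cy e) := by
        unfold fA
        refine and_congr_right fun _ => ?_
        have q1 : y0 < cy e - 1 := by linarith
        have q2 : y0 < cy e := by linarith
        rcases s with _ | _
        · simp only [Bool.false_eq_true, if_false]
          constructor <;> intro g <;> linarith
        · simp only [if_true]
          exact ⟨fun _ => q2, fun _ => q1⟩
      have c2 : dn e ∈ fUY b h s x1 y0 xs Yd ↔ ¬ fA s x1 y0 (cx e) (cy e) := by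
        rw [mem_fUY, cx_dn, cy_dn, hfA]
        have q3 : (xs ≤ cx e ∧ Yd < cy e - 1) := ⟨g1, by linarith⟩
        constructor
        · rintro ⟨-, -, q⟩
          intro hf
          rcases q with q | q
          · exact q.2 q3
          · exact q.2 hf
        · intro hf
          exact ⟨hd, ⟨_, h1⟩, Or.inr ⟨q3, hf⟩⟩
      have hsrc : src b h xs e = dn e := if_pos hF
      have hod : ((dn e).1 + (dn e).2) % 2 = 1 := odd_dn.2 ho
      have hPd : dn e ∈ b.Pl h ↔ pin b (2 * h) (cx e) < b.m := by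
        rw [mem_Pl' hb.M0 hh, h1]
        simp only [Option.some.injEq]
        constructor
        · rintro ⟨-, i, hi, rfl⟩; exact hi
        · intro g; exact ⟨hod, _, g, rfl⟩
      have hP' : (∃ i < b.m, rpl b (2 * h) xs e = some i) ↔ pin b (2 * h) (cx e) < b.m := by
        rw [h2]
        simp only [Option.some.injEq]
        constructor
        · rintro ⟨i, hi, rfl⟩; exact hi
        · intro g; exact ⟨_, g, rfl⟩
      have hex : ∃ i, rpl b (2 * h) xs e = some i := ⟨_, h2⟩
      unfold w0Y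
      rw [mem_symmDiff, mem_symmDiff, mem_cfg, mem_cfg, hPd, mem_filter, hE, hP', hsrc, c2]
      by_cases hp : pin b (2 * h) (cx e) < b.m
      · by_cases hf : fA s x1 y0 (cx e) (cy e)
        · simp only [hB, hF, hnW, c1, hp, hf, Xor, true_and, false_and, or_false, false_or,
            not_true_eq_false, not_false_eq_true, and_true, and_false, and_self]
        · simp only [hB, hF, hnW, c1, hp, hf, Xor, true_and, false_and, or_false, false_or,
            not_true_eq_false, not_false_eq_true, and_true, and_false, and_self]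
      · by_cases hf : fA s x1 y0 (cx e) (cy e)
        · simp only [hB, hF, hnW, c1, hp, hf, hex, Xor, true_and, false_and, or_false, false_or,
            not_true_eq_false, not_false_eq_true, and_true, and_false, and_self]
        · simp only [hB, hF, hnW, c1, hp, hf, hex, Xor, true_and, false_and, or_false, false_or,
            not_true_eq_false, not_false_eq_true, and_true, and_false, and_self]
    · have hsrc : src b h xs e = e := if_neg hF
      have hr := rpl_src (xs := xs) hb.M0 hb.τ0 hh hB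
      rw [hsrc] at hr
      have hPd : e ∈ b.Pl h ↔ ∃ i < b.m, cpl b (2 * h) e = some i := by
        rw [mem_Pl' hb.M0 hh]
        exact ⟨fun g => g.2, fun g => ⟨ho, g⟩⟩
      unfold w0Y
      rw [mem_symmDiff, mem_cfg, mem_filter, hE, hsrc, hr, mem_fUY, hPd]
      by_cases hp : ∃ i < b.m, cpl b (2 * h) e = some i
      · have hex : ∃ i, cpl b (2 * h) e = some i := by
          obtain ⟨i, -, hi⟩ := hp
          exact ⟨i, hi⟩
        simp only [hB, hF, hnW, hp, hex, Xor, true_and, false_and, or_false, false_or,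
          not_true_eq_false, not_false_eq_true, and_true, and_false]
      · simp only [hB, hF, hnW, hp, Xor, true_and, false_and, or_false, false_or,
          not_true_eq_false, not_false_eq_true, and_false]
  · have h1 : e ∉ ω := fun g => hB (hω g)
    have h2 : e ∉ b.Pl h := fun g => hB (hPB g)
    have h3 : e ∉ Fr b h xs := fun g => hB (mem_Fr.1 g).1
    have h4 : e ∉ w0Y b h o s x1 y0 xs Yd ω := by
      unfold w0Y
      rw [mem_symmDiff, mem_cfg, mem_fUY]
      simp [h1, h2, hB]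
    simp [hB, h3, h4]

section
variable (hb : b.Ok δ σ) (hh : 0 < h) (hm : b.m ≤ nP b) (ht : (b.τ : ℤ) + nP b < b.H)
  (hY : Yd + 1 < b.τ * (2 * h : ℤ)) (hy : y0 + 1 < b.τ * (2 * h : ℤ)) (hL : ∀ e ∈ L, e ∉ b.B h)
include hb hh

/-- the labels of the canonical world are read from the box -/
lemma src_mem (ht : (b.τ : ℤ) + nP b < b.H) {e : ℤ × ℤ} (he : e ∈ (WB b h M L o s x1 y0 xs Yd).E) :
    src b h xs e ∈ b.B h := by
  unfold src
  split_ifs with hF
  · exact dn_mem hb hh ht hF
  · exact (mem_filter.1 he).1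

lemma src_blk {e : ℤ × ℤ} (he : e ∈ (WB b h M L o s x1 y0 xs Yd).E) :
    (WB b h M L o s x1 y0 xs Yd).b e = blk (cpl b (2 * h)) (src b h xs e) := by
  show blk (rpl b (2 * h) xs) e = blk (cpl b (2 * h)) (src b h xs e)
  have h1 := rpl_src (xs := xs) hb.M0 hb.τ0 hh (mem_filter.1 he).1
  rcases hc : cpl b (2 * h) (src b h xs e) with _ | i
  · rw [hc] at h1
    have hF : e ∉ Fr b h xs := by
      intro hF
      rw [(cpl_dn hb.M0 hb.τ0 hh hF).2.1] at h1
      exact absurd h1 (by simp)
    have hsrc : src b h xs e = e := if_neg hF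
    rw [blk_none h1, blk_none hc, hsrc]
  · rw [hc] at h1
    rw [blk_some h1, blk_some hc]

include hm ht hY hy hL

/-- **Law of the canonical world.** -/
theorem PB_WBY (A : SimpleGraph (ℤ × ℤ) → Prop) :
    PB (WB b h M L o s x1 y0 xs Yd).E (WB b h M L o s x1 y0 xs Yd).b
      (fun ω => A ((WB b h M L o s x1 y0 xs Yd).G ω)) =
    b.PJ h (fun ω => A (G1Y b h M L o s x1 y0 xs Yd ω)) := by
  rw [← PB_pull (E := b.B h) (b := blk (cpl b (2 * h))) (src b h xs)
    (fun e he => src_mem hb hh ht he) (fun e he => src_blk hb hh he)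
    (fun ω => A ((WB b h M L o s x1 y0 xs Yd).G ω))]
  unfold JBox.PJ
  rw [← blk_cpl]
  refine PB_congr fun ω hω => ?_
  rw [WB_GY hb hh hm ht hY hy hL hω]

end

end Pool.Agent.H71.W
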