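import Mathlib
import Pool.Agent.H71.W.JY1
import Pool.Agent.H71.W.J6H
import Pool.Agent.H16.W.JWlS

set_option autoImplicit false
open Finset

/-! # J6, Y worlds: reflection and coin flip of the base world

`EB_WBY` : law of the canonical world for functionals. `reach_G0Y_mir`, `EB_G0Y_mir` : the reflected base world
(bank `!s`, rows `-1 - y0`, `-1 - Yd`, `P` in the state `o`) is the base world (bank `s`, rows `y0`, `Yd`, `P` in the
state `!o`) with the coins right of `xs` flipped. -/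

namespace Pool.Agent.H71.W

open Pool.Agent.H61.W Pool.Agent.H6.W Pool.Agent.H58.W Pool.Agent.H21.W Pool.Agent.H50.W
open Pool.Agent.H82.W Pool.Agent.H13.W Pool.Agent.H16.W
open Pool.Agent.H45.W (sw sw_sw swS mem_swS swF mem_swF swF_swF reach_sw)
open Pool.Agent.H35.W (PB_flip)
open Pool.Agent.H19.W (cx cy lt_cc cx_lt cy_lt cx_up cy_up cx_dn cy_dn odd_up odd_dn)
open Pool.Agent.H33.Q1 (lt tt TL ct mem_TL lt_odd)

variable {δ σ : ℝ} {b : JBox} {h : ℕ} {M : Finset (Bool × ℕ)} {L : Finset (ℤ × ℤ)} {bse o s : Bool}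
  {x1 xs Yd y0 : ℤ}

/-- **Law of the canonical world, functionals.** -/
theorem EB_WBY (hb : b.Ok δ σ) (hh : 0 < h) (hm : b.m ≤ nP b) (ht : (b.τ : ℤ) + nP b < b.H)
    (hY : Yd + 1 < b.τ * (2 * h : ℤ)) (hy : y0 + 1 < b.τ * (2 * h : ℤ)) (hL : ∀ e ∈ L, e ∉ b.B h)
    (V : SimpleGraph (ℤ × ℤ) → ℂ) :
    EB (WB b h M L o s x1 y0 xs Yd).E (WB b h M L o s x1 y0 xs Yd).b
      (fun ω => V ((WB b h M L o s x1 y0 xs Yd).G ω)) =
    EB (b.B h) (bk (2 * h) (chn 0 b.M b.τ)) (fun ω => V (G1Y b h M L o s x1 y0 xs Yd ω)) := by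
  classical
  set W := WB b h M L o s x1 y0 xs Yd with hW
  set S : Finset ℂ := W.E.powerset.image (fun ω => V (W.G ω)) ∪
    (b.B h).powerset.image (fun ω => V (G1Y b h M L o s x1 y0 xs Yd ω)) with hS
  rw [EB_values (V := fun ω => V (W.G ω)) W.b S
      (fun ω hω => mem_union_left _ (mem_image_of_mem _ (mem_powerset.2 hω))),
    EB_values (V := fun ω => V (G1Y b h M L o s x1 y0 xs Yd ω)) (bk (2 * h) (chn 0 b.M b.τ)) S
      (fun ω hω => mem_union_right _ (mem_image_of_mem _ (mem_powerset.2 hω)))]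
  refine sum_congr rfl fun c _ => ?_
  have := PB_WBY (x1 := x1) (xs := xs) (M := M) (o := o) (s := s) hb hh hm ht hY hy hL
    (fun G => V G = c)
  rw [← hW] at this
  rw [this]
  rfl

/-! ### Reflection -/

lemma fA_mir {x y : ℤ} : fA (!s) x1 (-1 - y0) x (-1 - y) ↔ fA s x1 y0 x y := by
  unfold fA
  refine and_congr_right fun _ => ?_
  rcases s with _ | _
  · simp only [Bool.not_false, if_true, Bool.false_eq_true, if_false]
    constructor <;> intro <;> omega
  · simp only [Bool.not_true, if_true, Bool.false_eq_true, if_false]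
    constructor <;> intro <;> omega

/-- the states of the reflected base world -/
lemma w0Y_mir (hb : b.Ok δ σ) (hh : 0 < h) (hm : b.m ≤ nP b) (ht : (b.τ : ℤ) + nP b ≤ b.H)
    (hP : xs ≤ -(b.m * b.M * (2 * h) : ℤ)) {ω : Finset (ℤ × ℤ)}
    {e : ℤ × ℤ} (ho : (e.1 + e.2) % 2 = 1) (hD : ¬ (cy e = Yd ∧ xs ≤ cx e)) :
    e ∈ swF (w0Y b h o (!s) x1 (-1 - y0) xs (-1 - Yd) ω) ↔
      e ∈ w0Y b h (!o) s x1 y0 xs Yd (symmDiff (swF ω) (FK b h xs)) := by
  have hn : (0 : ℤ) < 2 * h := by positivity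
  have hM : (0 : ℤ) < b.M := by exact_mod_cast hb.M0
  rw [mem_swF]
  unfold w0Y
  rw [mem_symmDiff, mem_symmDiff, mem_cfg, mem_cfg, mem_fUY, mem_fUY, sw_mem_B hh, sw_mem_Pl hh,
    cpl_sw hb.M0 hn ho, cx_sw, cy_sw ho, mem_symmDiff, mem_swF, mem_FK, fA_mir]
  have hlt : (-1 - Yd < -1 - cy e) ↔ cy e < Yd := by omega
  rw [hlt]
  by_cases hPl : e ∈ b.Pl h
  · obtain ⟨-, i, hi, hc⟩ := (mem_Pl' hb.M0 hh).1 hPl
    have hx : xs ≤ cx e := by
      have h1 := ((cpl_some hb.M0 hn).1 hc).1.1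
      have h2 : ((i : ℤ) + 1) * b.M * (2 * h) ≤ b.m * b.M * (2 * h) := by
        have : (i : ℤ) + 1 ≤ b.m := by exact_mod_cast (by omega : i + 1 ≤ b.m)
        exact mul_le_mul_of_nonneg_right (mul_le_mul_of_nonneg_right this hM.le) hn.le
      linarith
    have hy : (cy e < Yd) ↔ ¬ (Yd < cy e) := by
      constructor
      · intro g; omega
      · intro g
        rcases lt_trichotomy (cy e) Yd with g1 | g1 | g1
        · exact g1
        · exact absurd ⟨g1, hx⟩ hD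
        · exact absurd g1 g
    have hex : ∃ i, cpl b (2 * h) e = some i := ⟨i, hc⟩
    have hB : e ∈ b.B h := Pl_sub hb hh hm ht hPl
    rw [hy]
    by_cases hY : Yd < cy e <;> by_cases hf : fA s x1 y0 (cx e) (cy e) <;> rcases o <;>
      simp [hPl, hB, hY, hex, hx, hf]
  · by_cases hx : xs ≤ cx e
    · have hy : (cy e < Yd) ↔ ¬ (Yd < cy e) := by
        constructor
        · intro g; omega
        · intro g
          rcases lt_trichotomy (cy e) Yd with g1 | g1 | g1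
          · exact g1
          · exact absurd ⟨g1, hx⟩ hD
          · exact absurd g1 g
      rw [hy]
      by_cases hB : e ∈ b.B h <;> by_cases hY : Yd < cy e <;> by_cases hw : sw e ∈ ω <;>
        by_cases hex : ∃ i, cpl b (2 * h) e = some i <;> by_cases hf : fA s x1 y0 (cx e) (cy e) <;>
        simp [hPl, hB, hY, hex, hx, hw, hf]
    · simp [hPl, hx]

lemma slR_rp (y0 x1 : ℤ) : slR (-1 - y0) x1 = rpS (slR y0 x1) := by
  ext p
  unfold slR rpS rp
  simp only [Set.mem_ofPred_eq]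
  constructor
  · rintro ⟨h1, h2⟩
    exact ⟨by omega, h2⟩
  · rintro ⟨h1, h2⟩
    exact ⟨by omega, h2⟩

/-- the reflected layer -/
lemma lcS_mir (bse : Bool) (M : Finset (Bool × ℕ)) {x y : ℤ}
    (hx1 : -(b.X * (2 * h) : ℤ) ≤ x1) (hxs : xs ≤ b.X * (2 * h)) (h1 : ¬ (y = Yd ∧ xs ≤ x))
    (h2 : ¬ (y = y0 ∧ x < x1)) :
    lcS b (2 * h) (colM (bse ^^ tp M (some Yd)) (M.image rm) (some (-1 - Yd))) (-1 - y0) x (-1 - y) =
      lcS b (2 * h) (colM bse M (some Yd)) y0 x y := by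
  obtain ⟨c1, c2, c3⟩ := colM_rm bse M (some Yd) (some (-1 - Yd)) rfl
  unfold lcS
  by_cases g : x < -(b.X * (2 * h : ℤ)) ∧ -(b.H * (2 * h : ℤ)) ≤ y ∧ y < b.H * (2 * h)
  · rw [if_pos g, if_pos ⟨g.1, by linarith [g.2.2], by linarith [g.2.1]⟩]
    have hy : y ≠ y0 := fun q => h2 ⟨q, by linarith [g.1]⟩
    have k1 : (rcl (colM bse M (some Yd))).u 0 = (colM bse M (some Yd)).l 0 := rfl
    have k2 : (rcl (colM bse M (some Yd))).l 0 = (colM bse M (some Yd)).u 0 := rfl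
    rw [← c1, ← c2, k1, k2]
    by_cases hlt : y0 < y
    · rw [if_neg (by omega), if_pos hlt]
    · rw [if_pos (by omega), if_neg hlt]
  · rw [if_neg g, if_neg (fun q => g ⟨q.1, by linarith [q.2.2], by linarith [q.2.1]⟩),
      ← lcol_rp (colM bse M (some Yd)) x y]
    unfold lcol
    by_cases hx : b.X * (2 * h : ℤ) ≤ x
    · rw [if_pos hx, if_pos hx, c3]
      intro hy
      rw [Option.some.injEq] at hy
      exact h1 ⟨by omega, by linarith⟩
    · rw [if_neg hx, if_neg hx, c1, c2]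

/-- the layer labels of the canonical Y worlds -/
noncomputable abbrev LY (b : JBox) (h : ℕ) (M : Finset (Bool × ℕ)) (bse : Bool) (y0 Yd : ℤ) :
    Finset (ℤ × ℤ) := WlS b (2 * h) (colM bse M (some Yd)) y0

/-- **Reflection and coin flip of the base world.** -/
theorem reach_G0Y_mir (hb : b.Ok δ σ) (hh : 0 < h) (hm : b.m ≤ nP b) (ht : (b.τ : ℤ) + nP b ≤ b.H)
    (hP : xs ≤ -(b.m * b.M * (2 * h) : ℤ)) (hx1 : -(b.X * (2 * h) : ℤ) ≤ x1) (bse o s : Bool)
    (M : Finset (Bool × ℕ)) (ω : Finset (ℤ × ℤ)) {c d : ℤ × ℤ} :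
    (G0Y b h (M.image rm) (LY b h (M.image rm) (bse ^^ tp M (some Yd)) (-1 - y0) (-1 - Yd)) o (!s) x1
      (-1 - y0) xs (-1 - Yd) ω).Reachable (sw c) (sw d) ↔
      (G0Y b h M (LY b h M bse y0 Yd) (!o) s x1 y0 xs Yd (symmDiff (swF ω) (FK b h xs))).Reachable
        c d := by
  have hn : (0 : ℤ) < 2 * h := by positivity
  have hX : (0 : ℤ) < b.X * (2 * h) := mul_pos (by exact_mod_cast X_pos hb) hn
  have hxs0 : xs ≤ 0 := by
    have h2 : (0 : ℤ) ≤ b.m * b.M * (2 * h) := by positivity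
    linarith
  unfold G0Y
  have e1 : strD (xs, -1 - Yd) ∪ slR (-1 - y0) x1 = rpS (strD (xs, Yd) ∪ slR y0 x1) := by
    rw [rpS_union, slR_rp]
    have : strD (xs, -1 - Yd) = rpS (strD (xs, Yd)) := strD_rp (xs, Yd)
    rw [this]
  set W := w0Y b h o (!s) x1 (-1 - y0) xs (-1 - Yd) ω ∪
    LY b h (M.image rm) (bse ^^ tp M (some Yd)) (-1 - y0) (-1 - Yd) with hW
  have e2 : swF (swF W) = W := swF_swF W
  rw [e1, Lam_rm hn, lt_image_rpS, ← e2, reach_sw]
  have e3 : SG (Lam b (2 * h) M) (lt '' (strD (xs, Yd) ∪ slR y0 x1)) (swF W) =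
      SG (Lam b (2 * h) M) (lt '' (strD (xs, Yd) ∪ slR y0 x1))
        (w0Y b h (!o) s x1 y0 xs Yd (symmDiff (swF ω) (FK b h xs)) ∪ LY b h M bse y0 Yd) := by
    refine SG_congr (fun _ _ => Iff.rfl) fun e he hD => ?_
    have ho := Lam_odd he
    have hD1 : ¬ (cy e = Yd ∧ xs ≤ cx e) := fun g => hD ⟨(cx e, cy e), Or.inl g, lt_cc ho⟩
    have hD2 : ¬ (cy e = y0 ∧ cx e < x1) := fun g => hD ⟨(cx e, cy e), Or.inr g, lt_cc ho⟩
    rw [hW, swF_union, mem_union, mem_union, w0Y_mir hb hh hm ht hP ho hD1, mem_swF]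
    refine or_congr_right ?_
    have he' : sw e ∈ Lam b (2 * h) (M.image rm) := by
      rw [Lam_rm hn, mem_swS, sw_sw]
      exact he
    by_cases hI : InQ b (2 * h) (cx e) (cy e)
    · have hB : e ∈ b.B h := (mem_B hh).2 ⟨ho, hI⟩
      constructor
      · intro g
        exact absurd ((sw_mem_B hh).2 hB) (WlS_notMem g hh)
      · intro g
        exact absurd hB (WlS_notMem g hh)
    · have hI' : ¬ InQ b (2 * h) (cx (sw e)) (cy (sw e)) := by
        rw [cx_sw, cy_sw ho, InQ_rp hn]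
        exact hI
      rw [mem_WlS' hb hh he hI, mem_WlS' hb hh he' hI', cx_sw, cy_sw ho,
        lcS_mir bse M hx1 (by linarith) hD1 hD2]
  rw [e3]

/-- the law of the reflected and flipped configuration -/
theorem EB_sw_flip (hM : 0 < b.M) (hh : 0 < h) {k : ℕ} (hxs : xs = -(k * b.M * (2 * h) : ℤ))
    (V : Finset (ℤ × ℤ) → ℂ) :
    EB (b.B h) (bk (2 * h) (chn 0 b.M b.τ)) (fun ω => V (symmDiff (swF ω) (FK b h xs))) =
      EB (b.B h) (bk (2 * h) (chn 0 b.M b.τ)) V := by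
  classical
  set S : Finset ℂ := (b.B h).powerset.image V ∪
    (b.B h).powerset.image (fun ω => V (symmDiff (swF ω) (FK b h xs))) with hS
  rw [EB_values (V := fun ω => V (symmDiff (swF ω) (FK b h xs))) (bk (2 * h) (chn 0 b.M b.τ)) S
      (fun ω hω => mem_union_right _ (mem_image_of_mem (fun ω => V (symmDiff (swF ω) (FK b h xs)))
        (mem_powerset.2 hω))),
    EB_values (V := V) (bk (2 * h) (chn 0 b.M b.τ)) S
      (fun ω hω => mem_union_left _ (mem_image_of_mem _ (mem_powerset.2 hω)))]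
  refine sum_congr rfl fun c _ => ?_
  have h1 : b.PJ h (fun ω => V (symmDiff (swF ω) (FK b h xs)) = c) = b.PJ h (fun ω => V ω = c) :=
    (PJ_sw hh (fun η => V (symmDiff η (FK b h xs)) = c)).trans
      (PJ_flip hM hh hxs (fun η => V η = c))
  unfold JBox.PJ at h1
  rw [h1]

end Pool.Agent.H71.W
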