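import Mathlib
import Pool.Agent.H71.W.J6K
import Pool.Agent.H71.W.J6H

set_option autoImplicit false
open Finset hiding val

/-! # J6: one side of the slit and the reflection (`X` worlds)

`gX` : value of the base world. `up_side` : the value of a moving end above the slit is `gX` up to the block
terms and the one row terms. `V0_up`, `V0_lo` : the same for `V0` above and below; below `P` is in the other
state. `Xf_up`, `Xf_lo` : the pair `g`, `-g`. -/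

namespace Pool.Agent.H71.W

open Pool.Agent.H61.W Pool.Agent.H6.W Pool.Agent.H58.W Pool.Agent.H21.W Pool.Agent.H50.W
open Pool.Agent.H82.W Pool.Agent.H13.W Pool.Agent.H16.W
open Pool.Agent.H45.W (sw sw_sw swF mem_swF swF_swF)
open Pool.Agent.H19.W (cx cy lt_cc cx_lt cy_lt mv)
open Pool.Agent.H33.Q1 (lt tt TL ct mem_TL lt_odd lt_inj)

variable {δ σ : ℝ} {b : JBox} {h : ℕ} {M : Finset (Bool × ℕ)} {bse o s : Bool}
  {x1 y0 xs xe xl ρ Yd : ℤ} {v : ℤ × ℤ} {K : Bool × ℕ → ℂ}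

/-- value of the base world -/
noncomputable def gB (b : JBox) (h : ℕ) (M : Finset (Bool × ℕ)) (bse : Bool) (xs Yd : ℤ) (o : Bool)
    (K : Bool × ℕ → ℂ) : ℂ :=
  SMk M K fun q => b.PJ h (fun ω => RF b (2 * h) (G0 b h M bse o xs Yd ω) (zc (xs, Yd)) q)

/-- value of the moving end -/
noncomputable def gA (b : JBox) (h : ℕ) (M : Finset (Bool × ℕ)) (bse : Bool) (v : ℤ × ℤ) (o : Bool)
    (K : Bool × ℕ → ℂ) : ℂ :=
  SMk M K fun q => b.PJ h (fun ω => RF b (2 * h) (GG b (2 * h) M (colM bse M (some v.2)) (strD v)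
    (cfg b h o ω)) (zc v) q)

/-- the canonical world of the `X` worlds -/
noncomputable abbrev WBX (b : JBox) (h : ℕ) (M : Finset (Bool × ℕ)) (bse o s : Bool) (y0 xs Yd : ℤ) :
    WD ((ℤ × ℤ) ⊕ ℕ) :=
  WB b h M (Wl b (2 * h) (colM bse M (some Yd))) o s (xL b h) y0 xs Yd

/-- the world of the moving end, `X` worlds -/
noncomputable abbrev WAX (b : JBox) (h : ℕ) (M : Finset (Bool × ℕ)) (bse o s : Bool) (y0 : ℤ)
    (v : ℤ × ℤ) : WD ((ℤ × ℤ) ⊕ ℕ) :=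
  WA b h M (Wl b (2 * h) (colM bse M (some v.2))) o s (xL b h) y0 v

/-- the field `blk` -/
def BlkF (b : JBox) (h : ℕ) (M : Finset (Bool × ℕ)) (bse o s : Bool) (y0 xs xe xl ρ Yd : ℤ)
    (v : ℤ × ℤ) (Blk : Finset (ℤ × ℤ) → Prop) : Prop :=
  ∀ ω2, ω2 ⊆ (WBX b h M bse o s y0 xs Yd).E → Blk (ω2 ∩ O2 b h (xL b h) y0 xe xl ρ Yd v) →
    ∃ (I : Set (ℤ × ℤ)) (e : ℤ × ℤ),
      (∀ u w, u ∈ I → w ∉ I → ((WBX b h M bse o s y0 xs Yd).G ω2).Adj u w → w = e) ∧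
      (∀ c ∈ KB (Bk xl xe ρ), ∀ c', SR (WAX b h M bse o s y0 v).Λ (WAX b h M bse o s y0 v).D
        (Bk xl xe ρ) (St b (2 * h) xe Yd v) c c' → c' ∈ I) ∧ zc (xs, Yd) ∈ I ∧
      ∀ i : Ix M, yM b (2 * h) M i ∉ I

/-- **One side.** -/
theorem up_side (U : UpH δ σ b h (xL b h) y0 xs xe xl ρ Yd v) (hM : ∀ q ∈ M, q.2 < b.K)
    (hc : par M.card = true) (hB : ρ ≤ b.H * (2 * h : ℤ)) (hY : Yd + 1 < b.τ * (2 * h : ℤ))
    (hK : ∀ q, ‖K q‖ ≤ 1) {Blk : Finset (ℤ × ℤ) → Prop}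
    (hblk : BlkF b h M bse o s y0 xs xe xl ρ Yd v Blk) {ε η : ℝ}
    (hε : PB (WBX b h M bse o s y0 xs Yd).E (WBX b h M bse o s y0 xs Yd).b
      (fun ω => ¬ Blk (ω ∩ O2 b h (xL b h) y0 xe xl ρ Yd v)) ≤ ε)
    (hη : ∀ q ∈ M, |b.PJ h (fun ω => RF b (2 * h) (G1 b h M bse o xs Yd ω) (zc (xs, Yd)) q) -
      b.PJ h (fun ω => RF b (2 * h) (G0 b h M bse o xs Yd ω) (zc (xs, Yd)) q)| ≤ η) :
    ‖gA b h M bse v o K - gB b h M bse xs Yd o K‖ ≤ 2 * ε + M.card * η := by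
  have hL := U.lay_Wl (M := M) bse
  have H := U.half (o := o) (s := s) (Blk := Blk) hL hM hB hblk (U.ex_A hM hc) (U.ex_B hM hc)
  have h1 := H.le (v := fun i => K i.1.1) (M := 1) (fun ω _ i j => U.un_A hM ω i j) zero_le_one
    fun i => hK i.1.1
  rw [← GX_val U hM K, WB_val U hM hY K] at h1
  have h2 := SMk_sub_le (M := M) hK hη
  unfold gA gB
  refine (norm_sub_le_norm_sub_add_norm_sub _
    (SMk M K fun q => b.PJ h (fun ω => RF b (2 * h) (G1 b h M bse o xs Yd ω) (zc (xs, Yd)) q)) _).trans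
    (add_le_add (h1.trans ?_) h2)
  linarith

/-! ### Reflection -/

lemma SMk_image (K : Bool × ℕ → ℂ) (p : Bool × ℕ → ℝ) :
    SMk (M.image rm) (fun q => K (rm q)) p = SMk M K fun q => p (rm q) := by
  unfold SMk
  rw [sum_image fun a _ c _ hac => rm_inj hac]
  refine sum_congr rfl fun q _ => ?_
  show K (rm (rm q)) * _ = _
  rw [rm_rm]

/-- the value of the reflected base world -/
theorem gB_mir (hb : b.Ok δ σ) (hh : 0 < h) (hm : b.m ≤ nP b) (ht : (b.τ : ℤ) + nP b ≤ b.H)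
    {k : ℕ} (hxs : xs = -(k * b.M * (2 * h) : ℤ)) (hP : xs ≤ -(b.m * b.M * (2 * h) : ℤ))
    (bse o : Bool) (M : Finset (Bool × ℕ)) (K : Bool × ℕ → ℂ) :
    gB b h (M.image rm) (bse ^^ tp M (some Yd)) xs (-1 - Yd) o (fun q => K (rm q)) =
      gB b h M bse xs Yd (!o) K := by
  unfold gB
  rw [SMk_image]
  refine SMk_congr fun q _ => ?_
  have e1 : (fun ω => RF b (2 * h) (G0 b h (M.image rm) (bse ^^ tp M (some Yd)) o xs (-1 - Yd) ω)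
      (zc (xs, -1 - Yd)) (rm q)) = fun ω => (fun η => RF b (2 * h) (G0 b h M bse (!o) xs Yd
        (symmDiff η (FK b h xs))) (zc (xs, Yd)) q) (swF ω) := by
    funext ω
    have e2 : zc (xs, -1 - Yd) = sw (zc (xs, Yd)) := zc_rp (xs, Yd)
    rw [e2]
    exact propext (RF_of_reach fun c d => reach_G0_mir hb hh hm ht hP bse o M ω)
  rw [e1]
  exact (PJ_sw hh (fun η => RF b (2 * h) (G0 b h M bse (!o) xs Yd (symmDiff η (FK b h xs)))
    (zc (xs, Yd)) q)).trans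
    (PJ_flip hb.M0 hh hxs (fun η => RF b (2 * h) (G0 b h M bse (!o) xs Yd η) (zc (xs, Yd)) q))

/-! ### `V0` -/

/-- weights of `V0` -/
noncomputable def KV (b : JBox) (c2 c3 c4 : Bool × ℕ) (q : Bool × ℕ) : ℂ :=
  if q = snd2 b c3 c4 then 1 else if q = c2 then K2 b c2 c3 c4 else 0

lemma KV_le (b : JBox) (c2 c3 c4 q : Bool × ℕ) : ‖KV b c2 c3 c4 q‖ ≤ 1 := by
  unfold KV
  split_ifs
  · simp
  · exact (norm_K2 _ _ _ _).le
  · simp

lemma V0_eq {c2 c3 c4 : Bool × ℕ} (h1 : c2 ≠ c3) (h2 : c2 ≠ c4) (h3 : c3 ≠ c4)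
    (G : Finset (ℤ × ℤ) → SimpleGraph (ℤ × ℤ)) (c : ℤ × ℤ) : V0 b h c2 c3 c4 G c =
      SMk {c2, c3, c4} (KV b c2 c3 c4) fun q => b.PJ h (fun ω => RF b (2 * h) (G ω) c q) := by
  unfold SMk V0
  rw [sum_insert (by simp [h1, h2]), sum_insert (by simp [h3]), sum_singleton]
  unfold KV snd2
  split_ifs with g1 g2 g3 g4 g5 g6 g7 <;> simp_all
  all_goals ring

section three
variable {c2 c3 c4 : Bool × ℕ} {w : Bool}

/-- the value of the canonical world -/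
noncomputable def gX (b : JBox) (h : ℕ) (w : Bool) (c2 c3 c4 : Bool × ℕ) (xs Yd : ℤ) (o : Bool) : ℂ :=
  gB b h {c2, c3, c4} (bs w) xs Yd o (KV b c2 c3 c4)

lemma V0_gA (h1 : c2 ≠ c3) (h2 : c2 ≠ c4) (h3 : c3 ≠ c4) (v : ℤ × ℤ) (o : Bool) :
    V0 b h c2 c3 c4 (GX b h w c2 c3 c4 v o) (zc v) =
      gA b h {c2, c3, c4} (bs w) v o (KV b c2 c3 c4) := by
  rw [V0_eq h1 h2 h3]
  rfl

/-- **above the slit** -/
theorem V0_up (h1 : c2 ≠ c3) (h2 : c2 ≠ c4) (h3 : c3 ≠ c4) (k2 : c2.2 < b.K) (k3 : c3.2 < b.K)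
    (k4 : c4.2 < b.K) (U : UpH δ σ b h (xL b h) y0 xs xe xl ρ Yd v)
    (hB : ρ ≤ b.H * (2 * h : ℤ)) (hY : Yd + 1 < b.τ * (2 * h : ℤ)) {Blk : Finset (ℤ × ℤ) → Prop}
    (hblk : BlkF b h {c2, c3, c4} (bs w) o s y0 xs xe xl ρ Yd v Blk) {ε η : ℝ}
    (hε : PB (WBX b h {c2, c3, c4} (bs w) o s y0 xs Yd).E (WBX b h {c2, c3, c4} (bs w) o s y0 xs Yd).b
      (fun ω => ¬ Blk (ω ∩ O2 b h (xL b h) y0 xe xl ρ Yd v)) ≤ ε)
    (hη : ∀ q ∈ ({c2, c3, c4} : Finset (Bool × ℕ)),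
      |b.PJ h (fun ω => RF b (2 * h) (G1 b h {c2, c3, c4} (bs w) o xs Yd ω) (zc (xs, Yd)) q) -
      b.PJ h (fun ω => RF b (2 * h) (G0 b h {c2, c3, c4} (bs w) o xs Yd ω) (zc (xs, Yd)) q)| ≤ η) :
    ‖V0 b h c2 c3 c4 (GX b h w c2 c3 c4 v o) (zc v) - gX b h w c2 c3 c4 xs Yd o‖ ≤ 2 * ε + 3 * η := by
  have hM : ∀ q ∈ ({c2, c3, c4} : Finset (Bool × ℕ)), q.2 < b.K := by
    intro q hq
    simp only [mem_insert, mem_singleton] at hq
    rcases hq with rfl | rfl | rfl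
    · exact k2
    · exact k3
    · exact k4
  rw [V0_gA h1 h2 h3]
  have h4 := up_side U hM (Pool.Agent.H45.W.par3 h1 h2 h3) hB hY (KV_le b c2 c3 c4) hblk hε hη
  rw [card_eq_three.2 ⟨c2, c3, c4, h1, h2, h3, rfl⟩] at h4
  exact_mod_cast h4

/-- the value of the moving end, reflected -/
lemma V0_mir (hh : 0 < h) (h1 : c2 ≠ c3) (h2 : c2 ≠ c4) (h3 : c3 ≠ c4)
    (hv : v.1 ≤ b.X * (2 * (h : ℤ))) (o : Bool) :
    V0 b h c2 c3 c4 (GX b h w c2 c3 c4 v o) (zc v) =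
      gA b h {rm c2, rm c3, rm c4} (bs w) (rp v) o (fun q => KV b c2 c3 c4 (rm q)) := by
  rw [V0_gA h1 h2 h3]
  unfold gA
  rw [← image_rm3, SMk_image]
  refine SMk_congr fun q _ => ?_
  rw [image_rm3]
  exact (PJ_GX hh w h1 h2 h3 hv o q).symm

/-- **below the slit** -/
theorem V0_lo (h1 : c2 ≠ c3) (h2 : c2 ≠ c4) (h3 : c3 ≠ c4) (k2 : c2.2 < b.K) (k3 : c3.2 < b.K)
    (k4 : c4.2 < b.K) (U : UpH δ σ b h (xL b h) y0 xs xe xl ρ (-1 - Yd) (rp v)) {k : ℕ}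
    (hxs : xs = -(k * b.M * (2 * h) : ℤ))
    (hB : ρ ≤ b.H * (2 * h : ℤ)) (hY : -1 - Yd + 1 < b.τ * (2 * h : ℤ)) {Blk : Finset (ℤ × ℤ) → Prop}
    (hblk : BlkF b h {rm c2, rm c3, rm c4} (bs w) o s y0 xs xe xl ρ (-1 - Yd) (rp v) Blk) {ε η : ℝ}
    (hε : PB (WBX b h {rm c2, rm c3, rm c4} (bs w) o s y0 xs (-1 - Yd)).E
      (WBX b h {rm c2, rm c3, rm c4} (bs w) o s y0 xs (-1 - Yd)).b
      (fun ω => ¬ Blk (ω ∩ O2 b h (xL b h) y0 xe xl ρ (-1 - Yd) (rp v))) ≤ ε)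
    (hη : ∀ q ∈ ({rm c2, rm c3, rm c4} : Finset (Bool × ℕ)),
      |b.PJ h (fun ω => RF b (2 * h) (G1 b h {rm c2, rm c3, rm c4} (bs w) o xs (-1 - Yd) ω)
        (zc (xs, -1 - Yd)) q) -
      b.PJ h (fun ω => RF b (2 * h) (G0 b h {rm c2, rm c3, rm c4} (bs w) o xs (-1 - Yd) ω)
        (zc (xs, -1 - Yd)) q)| ≤ η) :
    ‖V0 b h c2 c3 c4 (GX b h w c2 c3 c4 v o) (zc v) - gX b h w c2 c3 c4 xs Yd (!o)‖ ≤
      2 * ε + 3 * η := by
  have n1 : rm c2 ≠ rm c3 := fun g => h1 (rm_inj g)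
  have n2 : rm c2 ≠ rm c4 := fun g => h2 (rm_inj g)
  have n3 : rm c3 ≠ rm c4 := fun g => h3 (rm_inj g)
  have hM : ∀ q ∈ ({rm c2, rm c3, rm c4} : Finset (Bool × ℕ)), q.2 < b.K := by
    intro q hq
    simp only [mem_insert, mem_singleton] at hq
    rcases hq with rfl | rfl | rfl
    · exact k2
    · exact k3
    · exact k4
  have hv : v.1 ≤ b.X * (2 * (h : ℤ)) := by
    have a1 := U.vxe
    have a2 := U.xe0
    have a3 := U.Xn
    have a4 : (rp v).1 = v.1 := rfl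
    linarith
  rw [V0_mir U.hh h1 h2 h3 hv]
  have h4 := up_side U hM (Pool.Agent.H45.W.par3 n1 n2 n3) hB hY
    (K := fun q => KV b c2 c3 c4 (rm q)) (fun q => KV_le b c2 c3 c4 _) hblk hε hη
  have h5 : gB b h {rm c2, rm c3, rm c4} (bs w) xs (-1 - Yd) o (fun q => KV b c2 c3 c4 (rm q)) =
      gX b h w c2 c3 c4 xs Yd (!o) := by
    have h6 := gB_mir (Yd := Yd) U.ok U.hh U.mn U.thk.le hxs (le_trans U.xse U.xem) (bs w) o
      {c2, c3, c4} (KV b c2 c3 c4)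
    have h7 : tp ({c2, c3, c4} : Finset (Bool × ℕ)) (some Yd) = false := by
      unfold tp
      rw [Pool.Agent.H45.W.par3 h1 h2 h3]
      rfl
    rw [h7, Bool.xor_false, image_rm3] at h6
    exact h6
  rw [h5, card_eq_three.2 ⟨rm c2, rm c3, rm c4, n1, n2, n3, rfl⟩] at h4
  exact_mod_cast h4

end three

end Pool.Agent.H71.W
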