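import Mathlib
import Pool.Agent.H71.W.J6L
import Pool.Agent.H82.W.JNum

set_option autoImplicit false
open Finset hiding val

/-! # J6: `XOddS` from the block field and the one row terms

`BlkX kap` : block field and its probability (55); `RowX` : the one row terms (28). `xOddS_of`. -/

namespace Pool.Agent.H71.W

open Pool.Agent.H61.W Pool.Agent.H6.W Pool.Agent.H58.W Pool.Agent.H21.W Pool.Agent.H50.W
open Pool.Agent.H82.W Pool.Agent.H13.W Pool.Agent.H16.W Pool.Agent.H55.W Pool.Agent.H87.Fld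
open Pool.Agent.Q1.M4 (lat)
open Pool.Agent.H33.Q1 (lt tt TL ct mem_TL lt_odd lt_inj)

/-- the left end of the base row -/
noncomputable def xsk (b : JBox) (h k : ℕ) : ℤ := -(k * b.M * (2 * h) : ℤ)

/-- **block field and probability** -/
def BlkX (kap : ℝ) : Prop := ∀ (b : JBox) (δ σ : ℝ), b.Ok δ σ → δ ≤ 1 → ∀ h k q r a : ℕ, 2 ≤ h → 2 ≤ a →
  8 * b.M ≤ q → a ≤ q → q ≤ r → JWin b k r → 10 * r + b.m * b.M ≤ k * b.M →
  ∀ (M : Finset (Bool × ℕ)), (∀ c ∈ M, c.2 < b.K) → ∀ (bse o : Bool) (Yd : ℤ) (v : ℤ × ℤ),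
  (Yd = 0 ∨ Yd = -1) → UpH δ σ b h (xL b h) (-3) (-(k * b.M * (2 * h) : ℤ))
    (-(k * b.M * (2 * h) : ℤ) + a * (2 * h)) (-(k * b.M * (2 * h) : ℤ) - a * (2 * h)) (a * (2 * h)) Yd v →
  ∃ Blk : Finset (ℤ × ℤ) → Prop,
    BlkF b h M bse o true (-3) (-(k * b.M * (2 * h) : ℤ)) (-(k * b.M * (2 * h) : ℤ) + a * (2 * h))
      (-(k * b.M * (2 * h) : ℤ) - a * (2 * h)) (a * (2 * h)) Yd v Blk ∧
    PB (WBX b h M bse o true (-3) (-(k * b.M * (2 * h) : ℤ)) Yd).E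
      (WBX b h M bse o true (-3) (-(k * b.M * (2 * h) : ℤ)) Yd).b
      (fun ω => ¬ Blk (ω ∩ O2 b h (xL b h) (-3) (-(k * b.M * (2 * h) : ℤ) + a * (2 * h))
        (-(k * b.M * (2 * h) : ℤ) - a * (2 * h)) (a * (2 * h)) Yd v)) ≤ (3 * (q : ℝ) / r) ^ kap

/-- **one row terms** -/
def RowX : Prop := ∀ (b : JBox) (δ σ : ℝ), b.Ok δ σ → δ ≤ 1 → σ ≤ 1 → ∀ k : ℕ, b.m ≤ k → k * b.M + 2 ≤ b.X →
  ∀ η > 0, ∃ h0 : ℕ, ∀ h : ℕ, h0 ≤ h → ∀ (M : Finset (Bool × ℕ)), (∀ c ∈ M, c.2 < b.K) → M.card = 3 →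
  ∀ (bse o : Bool) (Yd : ℤ), (Yd = 0 ∨ Yd = -1) → ∀ q ∈ M,
    |b.PJ h (fun ω => RF b (2 * h) (G1 b h M bse o (-(k * b.M * (2 * h) : ℤ)) Yd ω)
      (zc (-(k * b.M * (2 * h) : ℤ), Yd)) q) -
    b.PJ h (fun ω => RF b (2 * h) (G0 b h M bse o (-(k * b.M * (2 * h) : ℤ)) Yd ω)
      (zc (-(k * b.M * (2 * h) : ℤ), Yd)) q)| ≤ η

/-- marks with different abscissas or sides are different corners of fine boxes -/
lemma cor_ne_box {b : JBox} {δ σ : ℝ} (hb : b.Ok δ σ) {c c' : Bool × ℝ} (hc : δ * (|c.2| + δ) ≤ 1)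
    (hc' : δ * (|c'.2| + δ) ≤ 1) (hne : c.1 ≠ c'.1 ∨ 2 * δ ≤ |c.2 - c'.2|) : cor b c ≠ cor b c' := by
  intro he
  rcases hne with h1 | h1
  · have h2 := congrArg Prod.fst he
    exact h1 h2
  · obtain ⟨-, a1, a2⟩ := cor_ok hb hc
    obtain ⟨-, a3, a4⟩ := cor_ok hb hc'
    rw [he] at a1 a2
    have hH : (0 : ℝ) < b.H := by exact_mod_cast hb.H0
    have h2 : |c.2 - c'.2| < 2 * δ := by
      rw [abs_lt]
      constructor
      · have : c'.2 * b.H < (c.2 + 2 * δ) * b.H := lt_of_le_of_lt a3 a2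
        have := lt_of_mul_lt_mul_right this hH.le
        linarith
      · have : c.2 * b.H < (c'.2 + 2 * δ) * b.H := lt_of_le_of_lt a1 a4
        have := lt_of_mul_lt_mul_right this hH.le
        linarith
    linarith

/-- size of the fineness for the marks -/
lemma exists_fine {c c' c'' : Bool × ℝ} (h1 : c ≠ c') (h2 : c ≠ c'') (h3 : c' ≠ c'') :
    ∃ δ0 : ℝ, 0 < δ0 ∧ ∀ (b : JBox) (δ σ : ℝ), 0 < δ → δ ≤ δ0 → b.Ok δ σ →
      (cor b c).2 < b.K ∧ (cor b c').2 < b.K ∧ (cor b c'').2 < b.K ∧ cor b c ≠ cor b c' ∧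
      cor b c ≠ cor b c'' ∧ cor b c' ≠ cor b c'' := by
  have key : ∀ x : ℝ, ∃ d > 0, ∀ δ : ℝ, 0 < δ → δ ≤ d → δ * (|x| + δ) ≤ 1 := by
    intro x
    refine ⟨min 1 (1 / (|x| + 1)), by positivity, fun δ h1 h2 => ?_⟩
    have a1 := h2.trans (min_le_left _ _)
    have a2 := h2.trans (min_le_right _ _)
    have hx : (0 : ℝ) < |x| + 1 := by positivity
    rw [le_div_iff₀ hx] at a2
    have : δ * (|x| + δ) ≤ δ * (|x| + 1) := mul_le_mul_of_nonneg_left (by linarith) h1.le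
    linarith
  have key2 : ∀ c c' : Bool × ℝ, c ≠ c' → ∃ d > 0, ∀ δ : ℝ, 0 < δ → δ ≤ d →
      c.1 ≠ c'.1 ∨ 2 * δ ≤ |c.2 - c'.2| := by
    intro c c' h
    by_cases h1 : c.1 = c'.1
    · have h2 : c.2 ≠ c'.2 := fun h2 => h (Prod.ext h1 h2)
      have h3 : 0 < |c.2 - c'.2| := abs_pos.2 (sub_ne_zero.2 h2)
      exact ⟨|c.2 - c'.2| / 2, by positivity, fun δ _ hd => Or.inr (by linarith)⟩
    · exact ⟨1, one_pos, fun _ _ _ => Or.inl h1⟩
  obtain ⟨d1, p1, q1⟩ := key c.2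
  obtain ⟨d2, p2, q2⟩ := key c'.2
  obtain ⟨d3, p3, q3⟩ := key c''.2
  obtain ⟨d4, p4, q4⟩ := key2 c c' h1
  obtain ⟨d5, p5, q5⟩ := key2 c c'' h2
  obtain ⟨d6, p6, q6⟩ := key2 c' c'' h3
  refine ⟨min (min (min d1 d2) d3) (min (min d4 d5) d6), by positivity, ?_⟩
  intro b δ σ hδ hle hb
  have e1 : δ ≤ min (min d1 d2) d3 := hle.trans (min_le_left _ _)
  have e2 : δ ≤ min (min d4 d5) d6 := hle.trans (min_le_right _ _)
  have f1 := q1 δ hδ (e1.trans ((min_le_left _ _).trans (min_le_left _ _)))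
  have f2 := q2 δ hδ (e1.trans ((min_le_left _ _).trans (min_le_right _ _)))
  have f3 := q3 δ hδ (e1.trans (min_le_right _ _))
  have f4 := q4 δ hδ (e2.trans ((min_le_left _ _).trans (min_le_left _ _)))
  have f5 := q5 δ hδ (e2.trans ((min_le_left _ _).trans (min_le_right _ _)))
  have f6 := q6 δ hδ (e2.trans (min_le_right _ _))
  exact ⟨(cor_ok hb f1).1, (cor_ok hb f2).1, (cor_ok hb f3).1, cor_ne_box hb f1 f2 f4,
    cor_ne_box hb f1 f3 f5, cor_ne_box hb f2 f3 f6⟩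

/-- **(b) across the fine plates, `z1` moving** -/
theorem xOddS_of {kap : ℝ} (hk : 0 < kap) (hB : BlkX kap) (hR : RowX) {σ : ℝ} (hσ : 0 < σ) (hσ1 : σ ≤ 1)
    (w : Bool)
    {c b3 b4 : Bool × ℝ} (h1 : c ≠ b3) (h2 : c ≠ b4) (h3 : b3 ≠ b4) {x : ℝ} (hx : x < -σ) :
    XOddS σ w c b3 b4 x := by
  obtain ⟨ρ0, C, hρ0, hC, H⟩ := jnum hσ hx
  obtain ⟨d1, hd1, Hc⟩ := exists_fine h1 h2 h3
  refine ⟨4 * (C * ρ0) ^ kap, kap, ρ0, hk, hρ0, ?_⟩
  intro s hs hsρ η hη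
  obtain ⟨d2, hd2, hd2', Hn⟩ := H s hs hsρ
  refine ⟨min d1 d2, lt_min hd1 hd2, ?_⟩
  intro b δ hδ hδ0 hb K hK hKc
  have hδ1 : δ ≤ d1 := hδ0.trans (min_le_left _ _)
  have hδ2 : δ ≤ d2 := hδ0.trans (min_le_right _ _)
  have hδ3 : δ ≤ 1 := hδ2.trans hd2'
  obtain ⟨k2, k3, k4, n1, n2, n3⟩ := Hc b δ σ hδ hδ1 hb
  obtain ⟨k, q, r, a, ha, hq, haq, hqr, hw, hP, hCs, Hh⟩ := Hn b δ hδ hδ2 hb
  have hMp : 0 < b.M := hb.M0
  have hmk : b.m ≤ k := by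
    have : b.m * b.M ≤ k * b.M := by omega
    exact Nat.le_of_mul_le_mul_right this hMp
  have hkX : k * b.M + 2 ≤ b.X := by
    have := hw.wall
    omega
  obtain ⟨h0, Hrow⟩ := hR b δ σ hb hδ3 hσ1 k hmk hkX (η / 6) (by positivity)
  refine ⟨max h0 2, fun h hh => ?_⟩
  have hh0 : h0 ≤ h := (le_max_left _ _).trans hh
  have hh2 : 2 ≤ h := (le_max_right _ _).trans hh
  have hh1 : 0 < h := by omega
  obtain ⟨hsz, HU⟩ := Hh h (by omega)
  set xs : ℤ := -(k * b.M * (2 * h) : ℤ) with hxs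
  set c2 := cor b c
  set c3 := cor b b3
  set c4 := cor b b4
  refine ⟨gX b h w c2 c3 c4 xs 0 true - gX b h w c2 c3 c4 xs 0 false, fun v hv => ?_⟩
  have hR0 : 0 < Rb b h := Rb_pos hb.H0 hh1
  have hτ : (4 : ℤ) ≤ b.τ * (2 * h) := by
    have t1 : (1 : ℤ) ≤ b.τ := by exact_mod_cast hb.τ0
    have t2 : (4 : ℤ) ≤ 2 * h := by
      have : (2 : ℤ) ≤ h := by exact_mod_cast hh2
      linarith
    nlinarith
  -- the point
  have hvK : lat v / (Rb b h : ℂ) ∈ Ur b := hK hv.1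
  have hvR : InR b (2 * h) v.1 v.2 := by
    refine InR_of_mem hb hh1 ?_
    have e1 : Rb b h = 2 * h * b.H := rfl
    rw [e1] at hvK
    exact_mod_cast hvK
  have hvb := hv.2
  rw [Metric.mem_closedBall, Complex.dist_eq] at hvb
  have hre : |(v.1 : ℝ) - x * Rb b h| ≤ s * Rb b h := by
    have e1 := (Complex.abs_re_le_norm _).trans hvb
    rw [Complex.sub_re, lat_div_re, Complex.ofReal_re] at e1
    have e2 : (v.1 : ℝ) / Rb b h - x = (v.1 - x * Rb b h) / Rb b h := by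
      field_simp
    rw [e2, abs_div, abs_of_pos hR0, div_le_iff₀ hR0] at e1
    exact e1
  have him : |(v.2 : ℝ)| ≤ s * Rb b h := by
    have e1 := (Complex.abs_im_le_norm _).trans hvb
    rw [Complex.sub_im, lat_div_im, Complex.ofReal_im, sub_zero, abs_div, abs_of_pos hR0,
      div_le_iff₀ hR0] at e1
    exact e1
  have hM3 : ∀ c2 c3 c4 : Bool × ℕ, c2.2 < b.K → c3.2 < b.K → c4.2 < b.K →
      ∀ q ∈ ({c2, c3, c4} : Finset (Bool × ℕ)), q.2 < b.K := by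
    intro c2 c3 c4 k2 k3 k4 q hq
    simp only [mem_insert, mem_singleton] at hq
    rcases hq with rfl | rfl | rfl
    · exact k2
    · exact k3
    · exact k4
  have hρH : (a * (2 * h) : ℤ) ≤ b.H * (2 * h : ℤ) := by
    have : (a : ℤ) ≤ b.H := by
      have := hw.top
      have : a ≤ b.H := by omega
      exact_mod_cast this
    exact mul_le_mul_of_nonneg_right this (by positivity)
  set ε : ℝ := (3 * (q : ℝ) / r) ^ kap with hε
  have hεle : 4 * ε ≤ 4 * (C * ρ0) ^ kap * (s / ρ0) ^ kap := by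
    rw [mul_assoc, ← Real.mul_rpow (by positivity) (by positivity)]
    refine mul_le_mul_of_nonneg_left ?_ (by norm_num)
    refine Real.rpow_le_rpow (by positivity) ?_ hk.le
    calc 3 * (q : ℝ) / r ≤ C * s := hCs
      _ = C * ρ0 * (s / ρ0) := by field_simp
  constructor
  · intro hv2
    have U := HU 0 (-3) (xL b h) v (by linarith) (by norm_num) (by linarith) hre him hv2 hvR
    have key : ∀ o, ‖V0 b h c2 c3 c4 (GX b h w c2 c3 c4 v o) (zc v) - gX b h w c2 c3 c4 xs 0 o‖ ≤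
        2 * ε + 3 * (η / 6) := by
      intro o
      obtain ⟨Blk, g1, g2⟩ := hB b δ σ hb hδ3 h k q r a hh2 ha hq haq hqr hw hP {c2, c3, c4}
        (hM3 _ _ _ k2 k3 k4) (bs w) o 0 v (Or.inl rfl) U
      exact V0_up n1 n2 n3 k2 k3 k4 U hρH (by linarith) g1 g2
        (Hrow h hh0 {c2, c3, c4} (hM3 _ _ _ k2 k3 k4) (card_eq_three.2 ⟨c2, c3, c4, n1, n2, n3, rfl⟩)
          (bs w) o 0 (Or.inl rfl))
    have e1 : Xf b h w c2 c3 c4 v - (gX b h w c2 c3 c4 xs 0 true - gX b h w c2 c3 c4 xs 0 false) =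
        (V0 b h c2 c3 c4 (GX b h w c2 c3 c4 v true) (zc v) - gX b h w c2 c3 c4 xs 0 true) -
        (V0 b h c2 c3 c4 (GX b h w c2 c3 c4 v false) (zc v) - gX b h w c2 c3 c4 xs 0 false) := by
      unfold Xf; ring
    show ‖Xf b h w c2 c3 c4 v - _‖ ≤ _
    rw [e1]
    refine (norm_sub_le _ _).trans ?_
    linarith [key true, key false]
  · intro hv2
    have hv2' : (-1 : ℤ) - 0 < (rp v).2 := by
      show (-1 : ℤ) - 0 < -1 - v.2
      linarith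
    have him' : |((rp v).2 : ℝ)| ≤ s * Rb b h := by
      have e0 : ((rp v).2 : ℝ) = -1 - v.2 := by
        show (((-1 - v.2 : ℤ)) : ℝ) = _
        push_cast; ring
      have e1 : (v.2 : ℝ) ≤ -1 := by
        have : v.2 ≤ -1 := by omega
        exact_mod_cast this
      rw [abs_of_neg (by linarith)] at him
      rw [e0, abs_of_nonneg (by linarith)]
      linarith
    have hvR' : InR b (2 * h) (rp v).1 (rp v).2 :=
      (InR_rp (by positivity) v.1 v.2).2 hvR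
    have U := HU (-1 - 0) (-3) (xL b h) (rp v) (by linarith) (by norm_num) (by linarith) hre him' hv2'
      hvR'
    have m1 : rm c2 ≠ rm c3 := fun g => n1 (rm_inj g)
    have m2 : rm c2 ≠ rm c4 := fun g => n2 (rm_inj g)
    have m3 : rm c3 ≠ rm c4 := fun g => n3 (rm_inj g)
    have key : ∀ o, ‖V0 b h c2 c3 c4 (GX b h w c2 c3 c4 v o) (zc v) - gX b h w c2 c3 c4 xs 0 (!o)‖ ≤
        2 * ε + 3 * (η / 6) := by
      intro o
      obtain ⟨Blk, g1, g2⟩ := hB b δ σ hb hδ3 h k q r a hh2 ha hq haq hqr hw hP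
        {rm c2, rm c3, rm c4} (hM3 _ _ _ k2 k3 k4) (bs w) o (-1 - 0) (rp v) (Or.inr (by norm_num)) U
      exact V0_lo n1 n2 n3 k2 k3 k4 U hxs hρH (by linarith) g1 g2
        (Hrow h hh0 {rm c2, rm c3, rm c4} (hM3 _ _ _ k2 k3 k4)
          (card_eq_three.2 ⟨rm c2, rm c3, rm c4, m1, m2, m3, rfl⟩) (bs w) o (-1 - 0)
          (Or.inr (by norm_num)))
    have e1 : Xf b h w c2 c3 c4 v + (gX b h w c2 c3 c4 xs 0 true - gX b h w c2 c3 c4 xs 0 false) =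
        (V0 b h c2 c3 c4 (GX b h w c2 c3 c4 v true) (zc v) - gX b h w c2 c3 c4 xs 0 (!true)) -
        (V0 b h c2 c3 c4 (GX b h w c2 c3 c4 v false) (zc v) - gX b h w c2 c3 c4 xs 0 (!false)) := by
      unfold Xf
      rw [Bool.not_true, Bool.not_false]; ring
    show ‖Xf b h w c2 c3 c4 v + _‖ ≤ _
    rw [e1]
    refine (norm_sub_le _ _).trans ?_
    linarith [key true, key false]

/-- **the field `xOdd`** -/
theorem xOdd_of_blk {kap : ℝ} (hk : 0 < kap) (hB : BlkX kap) (hR : RowX) {σ : ℝ} (hσ : 0 < σ)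
    (hσ1 : σ ≤ 1) (S : Setup σ) : S.XOdd :=
  xOdd_of S fun _ h1 h2 _ hx => xOddS_of hk hB hR hσ hσ1 S.w h1 h2 S.ne hx

end Pool.Agent.H71.W
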