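import Mathlib
import Pool.Agent.H71.W.J6M

set_option autoImplicit false
open Finset hiding val

/-! # J6: the scale form from a statement for one box

`AllUp` : all instances of `UpH` of a tile which 82's `jnum` gives. `scb2_of` : `ScB2` from the statement for one box.
`gp_box` : the mark of `P` of a fine box. -/

namespace Pool.Agent.H71.W

open Pool.Agent.H61.W Pool.Agent.H6.W Pool.Agent.H58.W Pool.Agent.H21.W Pool.Agent.H50.W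
open Pool.Agent.H82.W Pool.Agent.H13.W Pool.Agent.H16.W Pool.Agent.H55.W Pool.Agent.H87.Fld
open Pool.Agent.Q1.M4 (lat)
open Pool.Agent.H33.Q1 (lt tt TL ct mem_TL lt_odd lt_inj)

/-- all instances of `UpH` for the tile `v` -/
def AllUp (δ σ : ℝ) (b : JBox) (h k a : ℕ) (v : ℤ × ℤ) : Prop :=
  ∀ Yd y0 x1 : ℤ, -(b.τ * (2 * h) : ℤ) < y0 → y0 + 2 ≤ Yd → Yd + 1 < b.τ * (2 * h) → Yd < v.2 →
    UpH δ σ b h x1 y0 (-(k * b.M * (2 * h) : ℤ)) (-(k * b.M * (2 * h) : ℤ) + a * (2 * h))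
      (-(k * b.M * (2 * h) : ℤ) - a * (2 * h)) (a * (2 * h)) Yd v

/-- the statement for one box -/
def OneBox (σ δ1 A kap : ℝ) (F : JBox → ℕ → ℤ × ℤ → ℂ) : Prop :=
  ∀ (b : JBox) (δ : ℝ), 0 < δ → δ ≤ 1 → δ ≤ δ1 → b.Ok δ σ → ∀ k q r a : ℕ, 2 ≤ a → 8 * b.M ≤ q → a ≤ q →
    q ≤ r → JWin b k r → 10 * r + b.m * b.M ≤ k * b.M → ∀ η > 0, ∃ h0 : ℕ, ∀ h : ℕ, h0 ≤ h → ∃ g : ℂ,
    (∀ v : ℤ × ℤ, 0 < v.2 → InR b (2 * h) v.1 v.2 → AllUp δ σ b h k a v →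
      ‖F b h v - g‖ ≤ A * (3 * (q : ℝ) / r) ^ kap + η) ∧
    (∀ v : ℤ × ℤ, v.2 < 0 → InR b (2 * h) (rp v).1 (rp v).2 → AllUp δ σ b h k a (rp v) →
      ‖F b h v + g‖ ≤ A * (3 * (q : ℝ) / r) ^ kap + η)

/-- **`ScB2` from the statement for one box.** -/
theorem scb2_of {σ x : ℝ} (hσ : 0 < σ) (hx : x < -σ) {δ1 A kap : ℝ} (hδ1 : 0 < δ1) (hA : 0 ≤ A)
    (hk : 0 < kap) {F : JBox → ℕ → ℤ × ℤ → ℂ} (H1 : OneBox σ δ1 A kap F) : ScB2 σ x F := by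
  obtain ⟨ρ0, C, hρ0, hC, H⟩ := jnum hσ hx
  refine ⟨A * (C * ρ0) ^ kap, kap, ρ0, hk, hρ0, ?_⟩
  intro s hs hsρ η hη
  obtain ⟨d2, hd2, hd2', Hn⟩ := H s hs hsρ
  refine ⟨min δ1 d2, lt_min hδ1 hd2, ?_⟩
  intro b δ hδ hδ0 hb K hK hKc
  have e1 : δ ≤ δ1 := hδ0.trans (min_le_left _ _)
  have e2 : δ ≤ d2 := hδ0.trans (min_le_right _ _)
  have e3 : δ ≤ 1 := e2.trans hd2'
  obtain ⟨k, q, r, a, ha, hq, haq, hqr, hw, hP, hCs, Hh⟩ := Hn b δ hδ e2 hb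
  obtain ⟨h0, Hb⟩ := H1 b δ hδ e3 e1 hb k q r a ha hq haq hqr hw hP η hη
  refine ⟨max h0 1, fun h hh => ?_⟩
  have hh0 : h0 ≤ h := (le_max_left _ _).trans hh
  have hh1 : 1 ≤ h := (le_max_right _ _).trans hh
  have hh2 : 0 < h := by omega
  obtain ⟨hsz, HU⟩ := Hh h hh1
  obtain ⟨g, hup, hlo⟩ := Hb h hh0
  refine ⟨g, fun v hv => ?_⟩
  have hR0 : 0 < Rb b h := Rb_pos hb.H0 hh2
  have hvK : lat v / (Rb b h : ℂ) ∈ Ur b := hK hv.1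
  have hvR : InR b (2 * h) v.1 v.2 := by
    refine InR_of_mem hb hh2 ?_
    have e1 : Rb b h = 2 * h * b.H := rfl
    rw [e1] at hvK
    exact_mod_cast hvK
  have hvb := hv.2
  rw [Metric.mem_closedBall, Complex.dist_eq] at hvb
  have hre : |(v.1 : ℝ) - x * Rb b h| ≤ s * Rb b h := by
    have e1 := (Complex.abs_re_le_norm _).trans hvb
    rw [Complex.sub_re, lat_div_re, Complex.ofReal_re] at e1
    have e2 : (v.1 : ℝ) / Rb b h - x = (v.1 - x * Rb b h) / Rb b h := by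
      field_simp
    rw [e2, abs_div, abs_of_pos hR0, div_le_iff₀ hR0] at e1
    exact e1
  have him : |(v.2 : ℝ)| ≤ s * Rb b h := by
    have e1 := (Complex.abs_im_le_norm _).trans hvb
    rw [Complex.sub_im, lat_div_im, Complex.ofReal_im, sub_zero, abs_div, abs_of_pos hR0,
      div_le_iff₀ hR0] at e1
    exact e1
  have hεle : A * (3 * (q : ℝ) / r) ^ kap ≤ A * (C * ρ0) ^ kap * (s / ρ0) ^ kap := by
    rw [mul_assoc, ← Real.mul_rpow (by positivity) (by positivity)]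
    refine mul_le_mul_of_nonneg_left ?_ hA
    refine Real.rpow_le_rpow (by positivity) ?_ hk.le
    calc 3 * (q : ℝ) / r ≤ C * s := hCs
      _ = C * ρ0 * (s / ρ0) := by field_simp
  constructor
  · intro hv2
    refine (hup v hv2 hvR ?_).trans (by linarith)
    intro Yd y0 x1 g1 g2 g3 g4
    exact HU Yd y0 x1 v g1 g2 g3 hre him g4 hvR
  · intro hv2
    have him' : |((rp v).2 : ℝ)| ≤ s * Rb b h := by
      have e0 : ((rp v).2 : ℝ) = -1 - v.2 := by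
        show (((-1 - v.2 : ℤ)) : ℝ) = _
        push_cast; ring
      have e1 : (v.2 : ℝ) ≤ -1 := by
        have : v.2 ≤ -1 := by omega
        exact_mod_cast this
      rw [abs_of_neg (by linarith)] at him
      rw [e0, abs_of_nonneg (by linarith)]
      linarith
    have hvR' : InR b (2 * h) (rp v).1 (rp v).2 := (InR_rp (by positivity) v.1 v.2).2 hvR
    refine (hlo v hv2 hvR' ?_).trans (by linarith)
    intro Yd y0 x1 g1 g2 g3 g4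
    exact HU Yd y0 x1 (rp v) g1 g2 g3 hre him' g4 hvR'

/-- **The mark of `P` of a fine box.** -/
theorem gp_box {σ x : ℝ} (hx : x ∈ Set.Ioo (-σ) 0) : ∃ δ0 : ℝ, 0 < δ0 ∧ ∀ (b : JBox) (δ : ℝ), 0 < δ →
    δ ≤ δ0 → b.Ok δ σ → ∃ j : ℕ, 0 < j ∧ j < b.m ∧ (∀ n : ℤ, gp b n x = -((j : ℤ) * b.M * n)) ∧
      x * b.H ≤ -((j : ℝ) * b.M) ∧ -((j : ℝ) * b.M) < (x + δ) * b.H := by
  refine ⟨-x / 2, by linarith [hx.2], fun b δ hδ hδ0 hb => ?_⟩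
  have hk : δ < -x := by linarith [hx.2]
  have hH := H_pos hb
  have hM := M_pos hb
  set q : ℝ := -x * b.H / b.M with hq
  have hq1 : 1 ≤ q := by
    rw [hq, le_div_iff₀ hM, one_mul]
    have h1 := hb.M_le
    nlinarith
  have hq2 : q < b.m := by
    rw [hq, div_lt_iff₀ hM, hb.len]
    have := hx.1
    nlinarith
  have h0 : 0 < ⌊q⌋ := Int.floor_pos.2 hq1
  have h1 := Int.floor_le q
  have h2 := Int.lt_floor_add_one q
  obtain ⟨j, hj⟩ : ∃ j : ℕ, (j : ℤ) = ⌊q⌋ := ⟨⌊q⌋.toNat, by omega⟩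
  have hj' : (j : ℝ) = ⌊q⌋ := by exact_mod_cast hj
  have hqM : q * b.M = -x * b.H := by
    rw [hq, div_mul_cancel₀ _ hM.ne']
  refine ⟨j, by omega, ?_, fun n => ?_, ?_, ?_⟩
  · have : (j : ℝ) < b.m := by rw [hj']; linarith
    exact_mod_cast this
  · unfold gp
    rw [← hq, ← hj]
  · rw [← hj'] at h1
    nlinarith
  · rw [← hj'] at h2
    have h3 := hb.M_le
    nlinarith

/-- two marks of a fine box -/
lemma exists_fine2 {c c' : Bool × ℝ} (h1 : c ≠ c') :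
    ∃ δ0 : ℝ, 0 < δ0 ∧ ∀ (b : JBox) (δ σ : ℝ), 0 < δ → δ ≤ δ0 → b.Ok δ σ →
      (cor b c).2 < b.K ∧ (cor b c').2 < b.K ∧ cor b c ≠ cor b c' := by
  obtain ⟨c'', h2, h3⟩ : ∃ c'' : Bool × ℝ, c ≠ c'' ∧ c' ≠ c'' := by
    refine ⟨(true, |c.2| + |c'.2| + 1), fun g => ?_, fun g => ?_⟩
    · have := congrArg Prod.snd g
      simp only at this
      have h2 := le_abs_self c.2
      have h3 := abs_nonneg c'.2
      linarith
    · have := congrArg Prod.snd g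
      simp only at this
      have h2 := le_abs_self c'.2
      have h3 := abs_nonneg c.2
      linarith
  obtain ⟨d, hd, H⟩ := exists_fine h1 h2 h3
  refine ⟨d, hd, fun b δ σ e1 e2 e3 => ?_⟩
  obtain ⟨a1, a2, -, a4, -, -⟩ := H b δ σ e1 e2 e3
  exact ⟨a1, a2, a4⟩

/-- **`YOddS` from the statement for one box.** -/
theorem yOddS_of {σ x : ℝ} (hσ : 0 < σ) (hx : x < -σ) {w : Bool} {b b3 b4 : Bool × ℝ}
    (hbx : b.2 ∈ Set.Ioo (-σ) 0) (h34 : b3 ≠ b4) {A kap : ℝ} (hA : 0 ≤ A) (hk : 0 < kap)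
    (H : ∀ (B : JBox) (δ : ℝ), 0 < δ → δ ≤ 1 → B.Ok δ σ → ∀ j : ℕ, 0 < j → j < B.m →
      ∀ c3 c4 : Bool × ℕ, c3.2 < B.K → c4.2 < B.K → c3 ≠ c4 →
      ∀ k q r a : ℕ, 2 ≤ a → 8 * B.M ≤ q → a ≤ q → q ≤ r → JWin B k r →
      10 * r + B.m * B.M ≤ k * B.M → ∀ η > 0, ∃ h0 : ℕ, ∀ h : ℕ, h0 ≤ h → ∃ g : ℂ,
      (∀ v : ℤ × ℤ, 0 < v.2 → InR B (2 * h) v.1 v.2 → AllUp δ σ B h k a v →
        ‖Yf B h w b.1 (-((j : ℤ) * B.M * (2 * h))) c3 c4 v - g‖ ≤ A * (3 * (q : ℝ) / r) ^ kap + η) ∧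
      (∀ v : ℤ × ℤ, v.2 < 0 → InR B (2 * h) (rp v).1 (rp v).2 → AllUp δ σ B h k a (rp v) →
        ‖Yf B h w b.1 (-((j : ℤ) * B.M * (2 * h))) c3 c4 v + g‖ ≤ A * (3 * (q : ℝ) / r) ^ kap + η)) :
    YOddS σ w b b3 b4 x := by
  obtain ⟨d1, hd1, H1⟩ := gp_box hbx
  obtain ⟨d2, hd2, H2⟩ := exists_fine2 h34
  refine scb2_of hσ hx (lt_min hd1 hd2) hA hk ?_
  intro B δ hδ hδ1 hδ2 hB k q r a ha hq haq hqr hw hP η hη
  obtain ⟨j, j1, j2, j3, -, -⟩ := H1 B δ hδ (hδ2.trans (min_le_left _ _)) hB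
  obtain ⟨e1, e2, e3⟩ := H2 B δ σ hδ (hδ2.trans (min_le_right _ _)) hB
  obtain ⟨h0, Hh⟩ := H B δ hδ hδ1 hB j j1 j2 (cor B b3) (cor B b4) e1 e2 e3 k q r a ha hq haq hqr hw hP
    η hη
  refine ⟨h0, fun h hh => ?_⟩
  have := Hh h hh
  rw [← j3] at this
  exact this

end Pool.Agent.H71.W
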