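import Mathlib
import Pool.Agent.H71.W.JY2
import Pool.Agent.H28.W.JRowU

set_option autoImplicit false
open Finset

/-! # J6, Y worlds: the forced bank changes the values only a little

`Dep Λ D V` : the functional `V` of the graph depends only on the connections of the corners `OutC` (sides of deleted
tiles and of tiles which are not in `Λ`). `rowY` : the values of the base world with and without the forced
bank (28's `row_slit`). -/

namespace Pool.Agent.H71.W

open Pool.Agent.H61.W Pool.Agent.H6.W Pool.Agent.H58.W Pool.Agent.H21.W Pool.Agent.H50.W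
open Pool.Agent.H82.W Pool.Agent.H13.W Pool.Agent.H28.W
open Pool.Agent.H16.W (WlS WlS_notMem mem_WlS lcS)
open Pool.Agent.H92.W (τ Wdw uB OutC)
open Pool.Agent.H35.W (Force mem_Force)
open Pool.Agent.H19.W (cx cy lt_cc cx_lt cy_lt)
open Pool.Agent.H33.Q1 (lt tt TL ct mem_TL lt_odd lt_inj)

variable {δ σ : ℝ} {b : JBox} {h : ℕ} {M : Finset (Bool × ℕ)} {bse o s : Bool}
  {x1 xs Yd y0 : ℤ}

/-- thickness -/
lemma thk_of (hb : b.Ok δ σ) (hδ : δ ≤ 1) : (b.τ : ℤ) + nP b < b.H := by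
  have h1 := hb.τ_le
  have h2 := hb.M_le
  have h3 := nP_real hb
  rw [h3] at h1
  have hH : (0 : ℝ) < b.H := by exact_mod_cast hb.H0
  have h4 : (b.M : ℝ) ≤ b.H := by nlinarith
  have h5 : (b.τ : ℝ) + nP b < b.H := by linarith
  exact_mod_cast h5

/-- the functional depends only on the connections of the outer corners -/
def Dep (Λ D : Set (ℤ × ℤ)) (V : SimpleGraph (ℤ × ℤ) → ℂ) : Prop :=
  ∀ G G' : SimpleGraph (ℤ × ℤ), (∀ p q, OutC Λ D p → OutC Λ D q → (G.Reachable p q ↔ G'.Reachable p q)) →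
    V G = V G'

/-- **The forced bank.** -/
theorem rowY (hb : b.Ok δ σ) (hd : δ ≤ 1) (hσ : σ ≤ 1) {C : ℝ} (hC : 0 < C) {η : ℝ} (hη : 0 < η) :
    ∃ h0 : ℕ, ∀ h : ℕ, h0 ≤ h → ∀ (M : Finset (Bool × ℕ)) (bse o s : Bool) (k j : ℕ) (y0 Yd x1 xs : ℤ),
    (∀ q ∈ M, q.2 < b.K) → k ≤ nP b → xs = -((k : ℤ) * b.M * (2 * h)) → x1 = -((j : ℤ) * b.M * (2 * h)) →
    y0 ≤ 8 → Yd ≤ 8 → ∀ V : SimpleGraph (ℤ × ℤ) → ℂ, (∀ G, ‖V G‖ ≤ C) →
    Dep (Lam b (2 * h) M) (lt '' (strD (xs, Yd) ∪ slR y0 x1)) V →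
    ‖EB (b.B h) (bk (2 * h) (chn 0 b.M b.τ))
        (fun ω => V (G1Y b h M (LY b h M bse y0 Yd) o s x1 y0 xs Yd ω)) -
      EB (b.B h) (bk (2 * h) (chn 0 b.M b.τ))
        (fun ω => V (G0Y b h M (LY b h M bse y0 Yd) o s x1 y0 xs Yd ω))‖ ≤ η := by
  obtain ⟨h0, hrow⟩ := row_slit hb hd hσ (κ := 1 / 2) (by norm_num) le_rfl
    (div_pos hη (by positivity : (0 : ℝ) < 2 * C))
  refine ⟨max h0 16, fun h hh M bse o s k j y0 Yd x1 xs hM hk hxs hx1 hy0 hYd V hV hdep => ?_⟩
  have hh1 : h0 ≤ h := (le_max_left _ _).trans hh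
  have hh2 : 16 ≤ h := (le_max_right _ _).trans hh
  have hpos : 0 < h := by omega
  have hn := n_pos hpos
  have hMp : (0 : ℤ) < b.M := by exact_mod_cast hb.M0
  have hR := Rk_le (κ := 1 / 2) le_rfl (h := h)
  have hXn : (0 : ℤ) < b.X * (2 * h) := mul_pos (by exact_mod_cast X_pos hb) hn
  have hXs : -((b.X : ℤ) * (2 * h)) ≤ xs := by
    have h4 : (k : ℤ) ≤ nP b := by exact_mod_cast hk
    have h5 : (k : ℤ) * b.M * (2 * h) ≤ (nP b : ℤ) * b.M * (2 * h) :=
      mul_le_mul_of_nonneg_right (mul_le_mul_of_nonneg_right h4 hMp.le) hn.le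
    rw [Xn_eq hb, hxs]
    linarith
  have hh3 : (16 : ℤ) ≤ h := by exact_mod_cast hh2
  have htn : (2 * h : ℤ) ≤ b.τ * (2 * h) := by
    have t1 : (1 : ℤ) ≤ b.τ := by exact_mod_cast hb.τ0
    nlinarith
  have hlow : ∀ {x y : ℤ}, Wdw xs 0 (Rk (1 / 2) h) (botA b (2 * h)) x y → Yd < y ∧ y0 < y := by
    intro x y hw
    have h2 := wdwA_low hb hn hXs le_rfl hw
    constructor <;> linarith
  set L := LY b h M bse y0 Yd with hLd
  set D : Set (ℤ × ℤ) := lt '' (strD (xs, Yd) ∪ slR y0 x1) with hDd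
  set Fp := fUY b h s x1 y0 xs Yd with hFp
  have hLB : ∀ e ∈ L, e ∉ b.B h := fun e he => WlS_notMem he hpos
  have h1 := hrow h hh1 true o xs 0 M (Lam b (2 * h) M) D Fp L hXs le_rfl hM lamOK_Lam (by
      intro x y hx
      rw [hFp, mem_fUY, cx_lt, cy_lt] at hx
      obtain ⟨h2, ⟨i, h3⟩, -⟩ := hx
      refine ⟨(lt_mem_B hpos).1 h2, ?_⟩
      unfold cpl at h3
      rw [cx_lt, cy_lt] at h3
      rw [h3]
      simp) (by
      intro x y hx hq
      exact hLB _ hx ((lt_mem_B hpos).2 hq)) (by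
      rintro x k' hw ⟨p, hp, he⟩
      obtain ⟨g1, g2⟩ := hlow hw
      rw [τ_eq] at he
      have h3 := lt_inj he
      have h4 : p.2 = k' := by rw [h3]; simp [ys]
      rcases hp with hp | hp
      · have h5 : p.2 = Yd := hp.1
        linarith
      · have h5 : p.2 = y0 := hp.1
        linarith) (by
      intro x k1 x' k1' hx hx' hp hw hw' hk hk'
      have h0' : (0 : ℤ) ≤ (b.τ : ℤ) * (2 * h) - Rk (1 / 2) h := by linarith
      rw [τ_eq, τ_eq]
      simp only [ys, if_true]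
      rw [hFp, mem_fUY, mem_fUY, cx_lt, cy_lt, cx_lt, cy_lt, lt_mem_B hpos, lt_mem_B hpos]
      have q1 : InQ b (2 * h) x k1 := plate_Q hb hd hn hx.2 hx.1 ⟨by linarith, hk.2.le⟩
      have q2 : InQ b (2 * h) x' k1' := plate_Q hb hd hn hx'.2 hx'.1 ⟨by linarith, hk'.2.le⟩
      have c1 : ∃ i, cpl b (2 * h) (lt (x, k1)) = some i := by
        refine ⟨pli b (2 * h) x, ?_⟩
        unfold cpl
        rw [cx_lt, cy_lt]
        exact (Pool.Agent.H28.W.chn_tile hb hn).2 ⟨hx.2, rfl, by linarith, hk.2⟩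
      have c2 : ∃ i, cpl b (2 * h) (lt (x', k1')) = some i := by
        refine ⟨pli b (2 * h) x', ?_⟩
        unfold cpl
        rw [cx_lt, cy_lt]
        exact (Pool.Agent.H28.W.chn_tile hb hn).2 ⟨hx'.2, rfl, by linarith, hk'.2⟩
      obtain ⟨y1, y2⟩ := hlow hw
      obtain ⟨y1', y2'⟩ := hlow hw'
      have z1 : xs ≤ x ↔ xs ≤ x' := by
        rw [hxs, gap_iff hb hn hx.2, gap_iff hb hn hx'.2, hp]
      have z2 : x < x1 ↔ x' < x1 := by
        rw [← not_le, ← not_le, hx1, gap_iff hb hn hx.2, gap_iff hb hn hx'.2, hp]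
      have z3 : fA s x1 y0 x k1 ↔ fA s x1 y0 x' k1' := by
        unfold fA
        rw [z2]
        refine and_congr_right fun _ => ?_
        rcases s with _ | _
        · simp only [Bool.false_eq_true, if_false]
          constructor <;> intro g <;> linarith
        · simp only [if_true]
          exact ⟨fun _ => y2', fun _ => y2⟩
      simp only [q1, q2, c1, c2, y1, y1', z1, z3, true_and, and_true]) (by
      intro k1 k1' hw hw' hk hk'
      obtain ⟨-, y2⟩ := hlow hw
      obtain ⟨-, y2'⟩ := hlow hw'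
      have hKH : (b.H : ℤ) * (2 * h) ≤ (b.H + b.K) * (2 * h) := by
        have : (0 : ℤ) ≤ b.K * (2 * h) := by positivity
        linarith
      have key : ∀ y : ℤ, y0 < y → (0 ≤ y ∧ y < (b.H : ℤ) * (2 * h)) →
          (lt (-((b.X : ℤ) * (2 * h)) - 1, y) ∈ L ↔ (colM bse M (some Yd)).u 0 = true) := by
        intro y g1 g2
        rw [hLd, mem_WlS hpos (lt_odd _), cx_lt, cy_lt]
        · unfold lcS
          rw [if_pos ⟨by linarith, by linarith, g2.2⟩, if_pos g1]
        · rw [cx_lt, cy_lt, InQ_band hb hn (by linarith) g2.2]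
          intro g; linarith [g.1]
        · rw [cx_lt]; linarith
        · rw [cx_lt]; linarith
        · rw [cy_lt]; linarith
        · rw [cy_lt]; linarith
      rw [τ_eq, τ_eq]
      simp only [ys, if_true]
      rw [key _ y2 hk, key _ y2' hk'])
  rw [← EB_sub]
  have h2 := norm_EB_le (E := b.B h) (b := bk (2 * h) (chn 0 b.M b.τ)) (M := 2 * C)
    (V := fun ω => V (G1Y b h M L o s x1 y0 xs Yd ω) - V (G0Y b h M L o s x1 y0 xs Yd ω))
    (A := fun ω => ChgR (Lam b (2 * h) M) D (Force (FA true b (2 * h) xs 0) (uB true)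
      (cJ b h o Fp L ω)) (cJ b h o Fp L ω)) (fun ω _ _ => by
        refine (norm_sub_le _ _).trans ?_
        linarith [hV (G1Y b h M L o s x1 y0 xs Yd ω), hV (G0Y b h M L o s x1 y0 xs Yd ω)]) (by
        intro ω _ hA
        rw [sub_eq_zero]
        refine hdep _ _ fun p q hp hq => ?_
        unfold ChgR at hA
        rw [not_not] at hA
        have e1 : G0Y b h M L o s x1 y0 xs Yd ω = SG (Lam b (2 * h) M) D (cJ b h o Fp L ω) := rfl
        have e2 : G1Y b h M L o s x1 y0 xs Yd ω = SG (Lam b (2 * h) M) D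
            (Force (FA true b (2 * h) xs 0) (uB true) (cJ b h o Fp L ω)) := by
          unfold G1Y cJ
          have hfu : uB true = dn := by funext e; exact Pool.Agent.H28.W.uB_true e
          rw [← Fr_eq hb hd hpos hXs, hfu, force_union]
          · rfl
          · exact fun e he hL => hLB e hL (mem_Fr.1 he).1
          · intro e he hL
            exact hLB _ hL (dn_mem hb hpos (thk_of hb hd) he)
        rw [e1, e2]
        exact hA p q hp hq)
  refine h2.trans ?_
  have h3 : 2 * C * PB (b.B h) (bk (2 * h) (chn 0 b.M b.τ)) (fun ω => ChgR (Lam b (2 * h) M) D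
      (Force (FA true b (2 * h) xs 0) (uB true) (cJ b h o Fp L ω)) (cJ b h o Fp L ω)) ≤
      2 * C * (η / (2 * C)) := mul_le_mul_of_nonneg_left h1 (by positivity)
  refine h3.trans (le_of_eq ?_)
  field_simp

end Pool.Agent.H71.W
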