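import Mathlib
import Pool.Agent.H71.W.JY3
import Pool.Agent.H71.W.J6I
import Pool.Agent.H16.W.JYDef

set_option autoImplicit false
open Finset hiding val

/-! # J6, Y worlds: `RowY` and the reflection of the value of the base world

`rowY_holds` : 16's `RowY`. `gY_mir` : the value of the reflected base world. -/

namespace Pool.Agent.H71.W

open Pool.Agent.H61.W Pool.Agent.H6.W Pool.Agent.H58.W Pool.Agent.H21.W Pool.Agent.H50.W
open Pool.Agent.H82.W Pool.Agent.H13.W Pool.Agent.H28.W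
open Pool.Agent.H16.W hiding InQ_col dgt_row
open Pool.Agent.H47.W (hz vt)
open Pool.Agent.H45.W (sw sw_sw swS mem_swS swF mem_swF swF_swF reach_sw eS_sw)
open Pool.Agent.H92.W (OutC)
open Pool.Agent.H19.W (cx cy lt_cc cx_lt cy_lt cx_up cy_up cx_dn cy_dn odd_up odd_dn)
open Pool.Agent.H33.Q1 (lt tt TL ct mem_TL lt_odd lt_inj)

variable {δ σ : ℝ} {b : JBox} {h : ℕ} {M : Finset (Bool × ℕ)} {bse o s : Bool}
  {x1 xs Yd y0 : ℤ} {q q0 : Bool × ℕ}

lemma vt_eE (x y : ℤ) : vt x y = eE (lt (x - 1, y)) := by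
  unfold vt eE lt; exact Prod.ext (by simp only; ring) (by simp only; ring)

/-- **16's value depends only on the outer corners.** -/
theorem dep_Vy (hb : b.Ok δ σ) (hh : 0 < h) (hM : ∀ q ∈ M, q.2 < b.K) (hq : q ∈ M) (hq0 : q0 ∈ M) :
    Dep (Lam b (2 * h) M) (lt '' (strD (xs, Yd) ∪ slR y0 x1))
      (fun G => Vy b (2 * h) q q0 G (zc (xs, Yd)) (vt x1 y0) x1 y0) := by
  have hn : (0 : ℤ) < 2 * h := by positivity
  intro G G' hG
  set D : Set (ℤ × ℤ) := lt '' (strD (xs, Yd) ∪ slR y0 x1) with hD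
  have hzc : OutC (Lam b (2 * h) M) D (zc (xs, Yd)) :=
    outC_D ⟨(xs, Yd), Or.inl ⟨rfl, le_refl _⟩, rfl⟩ (lt_odd _) (Or.inl rfl)
  have hm : OutC (Lam b (2 * h) M) D (vt x1 y0) :=
    outC_D (e := lt (x1 - 1, y0)) ⟨(x1 - 1, y0), Or.inr ⟨rfl, by simp⟩, rfl⟩ (lt_odd _)
      (Or.inr (Or.inl (vt_eE x1 y0)))
  have hf : ∀ p ∈ M, ∀ t ∈ fq b (2 * h) p, OutC (Lam b (2 * h) M) D t := by
    intro p hp t ht
    obtain ⟨h1, h2⟩ := outC_f (b := b) (D := D)
      (Pool.Agent.H71.W.dgt_notMem hb hn hp (hM p hp))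
    rcases ht with rfl | rfl
    · exact h1
    · exact h2
  have hx : ∀ x : ℤ, x < x1 → OutC (Lam b (2 * h) M) D (hz x y0) := by
    intro x hx
    rw [← eS_lt]
    exact outC_D ⟨(x, y0), Or.inr ⟨rfl, hx⟩, rfl⟩ (lt_odd _) (Or.inr (Or.inr (Or.inl rfl)))
  refine Vy_congr (fun t ht => hG _ _ hzc (hf q hq t ht)) (hG _ _ hzc hm) fun _ => ?_
  have e1 : cq b (2 * h) q0 G x1 y0 = cq b (2 * h) q0 G' x1 y0 := by
    unfold cq lnn
    congr 1
    ext x
    simp only [Set.mem_ofPred_eq]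
    refine and_congr_right fun g => exists_congr fun t => and_congr_right fun ht => ?_
    exact hG _ _ (hx x g) (hf q0 hq0 t ht)
  rw [e1]

/-- **16's `RowY`.** -/
theorem rowY_holds : RowY := by
  intro b δ σ hb hd hσ k j hj hjm hmk hkX η hη
  obtain ⟨h0, H⟩ := rowY hb hd hσ (C := 3) (by norm_num) hη
  refine ⟨max h0 1, fun h hh M hM bse o s Yd hYd q hq q0 hq0 => ?_⟩
  have hh0 : h0 ≤ h := (le_max_left _ _).trans hh
  have hh1 : 0 < h := lt_of_lt_of_le one_pos ((le_max_right _ _).trans hh)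
  have hk : k ≤ nP b := by
    have hX := X_eq hb
    have h1 : (k * b.M : ℤ) ≤ nP b * b.M := by
      rw [← hX]
      have : (k * b.M + 2 : ℤ) ≤ b.X := by exact_mod_cast hkX
      linarith
    have h2 : k * b.M ≤ nP b * b.M := by exact_mod_cast h1
    exact Nat.le_of_mul_le_mul_right h2 hb.M0
  set xs : ℤ := -(k * b.M * (2 * h) : ℤ) with hxs
  set x1 : ℤ := -(j * b.M * (2 * h) : ℤ) with hx1
  have hY8 : Yd ≤ 8 := by rcases hYd with rfl | rfl <;> norm_num
  have h1 := H h hh0 M bse o s k j (-5) Yd x1 xs hM hk hxs hx1 (by norm_num) hY8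
    (fun G => Vy b (2 * h) q q0 G (zc (xs, Yd)) (vt x1 (-5)) x1 (-5))
    (fun G => norm_Vy_le b (2 * h) q q0 G _ _ _ _) (dep_Vy hb hh1 hM hq hq0)
  unfold gY1 gY
  exact h1

/-! ### Reflection -/

/-- the two sides of a deleted tile are joined to the same marks -/
lemma RF_SN (hb : b.Ok δ σ) {n : ℤ} (hn : 2 ≤ n) {D : Set (ℤ × ℤ)} {w : Finset (ℤ × ℤ)} {x y : ℤ}
    (hD : lt (x, y) ∈ D) (h1 : -(b.H * n) < y) (h2 : y + 1 < b.H * n) (q : Bool × ℕ) :
    RF b n (SG (Lam b n M) D w) (eN (lt (x, y))) q ↔ RF b n (SG (Lam b n M) D w) (eS (lt (x, y))) q := by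
  have hn0 : 0 < n := by linarith
  by_cases he : lt (x, y) ∈ Lam b n M
  · have ha : (SG (Lam b n M) D w).Adj (eS (lt (x, y))) (eN (lt (x, y))) :=
      ⟨_, he, Or.inl ⟨hD, lt_odd _, Or.inl ⟨rfl, rfl⟩⟩⟩
    unfold RF
    constructor
    · rintro (h | h)
      · exact Or.inl (ha.reachable.trans h)
      · exact Or.inr (ha.reachable.trans h)
    · rintro (h | h)
      · exact Or.inl (ha.symm.reachable.trans h)
      · exact Or.inr (ha.symm.reachable.trans h)
  · have key : ∀ y', -(b.H * n) ≤ y' → y' < b.H * n → vt x y' ∉ Lam b n M := by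
      intro y' g1 g2 g3
      apply he
      have e1 : vt x y' = lt (x, y') := rfl
      rw [e1, mem_Lam_band hb hn0 (by rw [cy_lt]; linarith) (by rw [cy_lt]; linarith)] at g3
      rw [mem_Lam_band hb hn0 (by rw [cy_lt]; linarith) (by rw [cy_lt]; linarith)]
      rw [cx_lt] at g3 ⊢
      exact ⟨lt_odd _, g3.2⟩
    have hfN : ∀ t ∈ fq b n q, eN (lt (x, y)) ≠ t := by
      rintro t (rfl | rfl) he
      · exact fM_ne (b := b) (q := q) (β := true) hn (lt_odd (x, y)) (Or.inr (Or.inr (Or.inr rfl)))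
          (by rw [cy_lt]; linarith) (by rw [cy_lt]; linarith) he.symm
      · exact fM_ne (b := b) (q := q) (β := false) hn (lt_odd (x, y)) (Or.inr (Or.inr (Or.inr rfl)))
          (by rw [cy_lt]; linarith) (by rw [cy_lt]; linarith) he.symm
    have hfS : ∀ t ∈ fq b n q, eS (lt (x, y)) ≠ t := by
      rintro t (rfl | rfl) he
      · exact fM_ne (b := b) (q := q) (β := true) hn (lt_odd (x, y)) (Or.inr (Or.inr (Or.inl rfl)))
          (by rw [cy_lt]; linarith) (by rw [cy_lt]; linarith) he.symm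
      · exact fM_ne (b := b) (q := q) (β := false) hn (lt_odd (x, y)) (Or.inr (Or.inr (Or.inl rfl)))
          (by rw [cy_lt]; linarith) (by rw [cy_lt]; linarith) he.symm
    rw [RF_fq, RF_fq]
    constructor
    · rintro ⟨t, ht, h⟩
      rw [eN_lt] at h
      have := iso_hz (key (y + 1) (by linarith) h2)
        (by rw [add_sub_cancel_right]; exact key y h1.le (by linarith)) h
      exact absurd (by rw [eN_lt]; exact this) (hfN t ht)
    · rintro ⟨t, ht, h⟩
      rw [eS_lt] at h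
      have := iso_hz (key y h1.le (by linarith)) (key (y - 1) (by linarith) (by linarith)) h
      exact absurd (by rw [eS_lt]; exact this) (hfS t ht)

/-- **Value of the reflected graph.** -/
lemma Vy_mir {n : ℤ} {G G' : SimpleGraph (ℤ × ℤ)} {q q0 : Bool × ℕ} {v : ℤ × ℤ}
    (hG : ∀ c d, G'.Reachable (sw c) (sw d) ↔ G.Reachable c d)
    (hSN : ∀ x < x1, (RF b n G (eN (lt (x, y0))) q0 ↔ RF b n G (eS (lt (x, y0))) q0)) :
    Vy b n (rm q) (rm q0) G' (zc (rp v)) (vt x1 (-1 - y0)) x1 (-1 - y0) =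
      Vy b n q q0 G (zc v) (vt x1 y0) x1 y0 := by
  have hm : vt x1 (-1 - y0) = sw (vt x1 y0) := by
    unfold vt sw; exact Prod.ext (by simp only; ring) (by simp only; ring)
  have e1 : RF b n G' (zc (rp v)) (rm q) = RF b n G (zc v) q := by
    rw [zc_rp]
    exact propext (RF_of_reach hG)
  have e2 : G'.Reachable (zc (rp v)) (vt x1 (-1 - y0)) = G.Reachable (zc v) (vt x1 y0) := by
    rw [zc_rp, hm]
    exact propext (hG _ _)
  have e3 : cq b n (rm q0) G' x1 (-1 - y0) = cq b n q0 G x1 y0 := by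
    unfold cq lnn
    congr 1
    ext x
    simp only [Set.mem_ofPred_eq]
    refine and_congr_right fun hx => ?_
    rw [← RF_fq, ← RF_fq, ← eS_lt, ← eS_lt]
    have e4 : eS (lt (x, -1 - y0)) = sw (eN (lt (x, y0))) := by
      have : (x, -1 - y0) = rp (x, y0) := rfl
      rw [this, ← sw_lt, eS_sw]
    rw [e4, RF_of_reach hG]
    exact hSN x hx
  unfold Vy
  rw [e1, e2, e3]

/-- **The value of the reflected base world.** -/
theorem gY_mir (hb : b.Ok δ σ) (hh : 0 < h) (hm : b.m ≤ nP b) (ht : (b.τ : ℤ) + nP b ≤ b.H)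
    {k : ℕ} (hxs : xs = -(k * b.M * (2 * h) : ℤ)) (hP : xs ≤ -(b.m * b.M * (2 * h) : ℤ))
    (hx1 : -(b.X * (2 * h) : ℤ) ≤ x1) (hy1 : -(b.H * (2 * h) : ℤ) < y0)
    (hy2 : y0 + 1 < b.H * (2 * h)) (bse o s : Bool) (M : Finset (Bool × ℕ)) (q q0 : Bool × ℕ) :
    gY b h (M.image rm) (bse ^^ tp M (some Yd)) o (!s) x1 (-1 - y0) xs (-1 - Yd) (rm q) (rm q0) =
      gY b h M bse (!o) s x1 y0 xs Yd q q0 := by
  unfold gY
  rw [← EB_sw_flip hb.M0 hh hxs (fun ω => Vy b (2 * h) q q0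
    (G0Y b h M (LY b h M bse y0 Yd) (!o) s x1 y0 xs Yd ω) (zc (xs, Yd)) (vt x1 y0) x1 y0)]
  refine EB_congr fun ω hω => ?_
  refine Vy_mir (v := (xs, Yd)) (fun c d => reach_G0Y_mir hb hh hm ht hP hx1 bse o s M ω) fun x hx => ?_
  have hD : lt (x, y0) ∈ lt '' (strD (xs, Yd) ∪ slR y0 x1) := ⟨(x, y0), Or.inr ⟨rfl, hx⟩, rfl⟩
  exact RF_SN hb (by omega) hD hy1 hy2 q0

end Pool.Agent.H71.W
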