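import Mathlib
import Pool.Agent.H71.W.JY5
import Pool.Agent.H71.W.JY4

set_option autoImplicit false
open Finset hiding val

/-! # J6, Y worlds: `YOddS` from the upper side and the move of the row `y0`

`VYup kap` : a moving end above the slit has the value of the base world (16); `GYmid` : the base world with the row
`4` or `-5` (94). `yOddS_from` : `YOddS`. -/

namespace Pool.Agent.H71.W

open Pool.Agent.H61.W Pool.Agent.H6.W Pool.Agent.H58.W Pool.Agent.H21.W Pool.Agent.H50.W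
open Pool.Agent.H82.W Pool.Agent.H13.W Pool.Agent.H55.W Pool.Agent.H87.Fld
open Pool.Agent.H16.W hiding InQ_col dgt_row
open Pool.Agent.H47.W (hz vt)
open Pool.Agent.H33.Q1 (lt tt TL ct mem_TL lt_odd lt_inj)

/-- **the upper side** -/
def VYup (kap : ℝ) : Prop := ∀ (b : JBox) (δ σ : ℝ), b.Ok δ σ → δ ≤ 1 → ∀ h k q r a : ℕ, 2 ≤ h → 2 ≤ a →
  8 * b.M ≤ q → a ≤ q → q ≤ r → JWin b k r → 10 * r + b.m * b.M ≤ k * b.M → ∀ j : ℕ, 0 < j → j < b.m →
  MkH δ σ b h (-((j : ℤ) * b.M * (2 * h))) → ∀ c3 c4 : Bool × ℕ, c3.2 < b.K → c4.2 < b.K → c3 ≠ c4 →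
  ∀ (w o s : Bool) (Yd : ℤ) (v : ℤ × ℤ), (Yd = 0 ∨ Yd = -1) → 10 ≤ v.2 →
  UpH δ σ b h (-((j : ℤ) * b.M * (2 * h))) (-5) (-(k * b.M * (2 * h) : ℤ))
    (-(k * b.M * (2 * h) : ℤ) + a * (2 * h)) (-(k * b.M * (2 * h) : ℤ) - a * (2 * h)) (a * (2 * h)) Yd v →
  ∀ p ∈ ({c3, c4} : Finset (Bool × ℕ)), ∀ p0 ∈ ({c3, c4} : Finset (Bool × ℕ)), ∀ η : ℝ,
  ‖gY1 b h {c3, c4} (bsP w s) o s (-((j : ℤ) * b.M * (2 * h))) (-5) (-(k * b.M * (2 * h) : ℤ)) Yd p p0 -
    gY b h {c3, c4} (bsP w s) o s (-((j : ℤ) * b.M * (2 * h))) (-5) (-(k * b.M * (2 * h) : ℤ)) Yd p p0‖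
    ≤ η →
  ‖VG b h s (-((j : ℤ) * b.M * (2 * h))) p p0 (zc v)
      (GY b h w s (-((j : ℤ) * b.M * (2 * h))) c3 c4 v o) -
    gY b h {c3, c4} (bsP w s) o s (-((j : ℤ) * b.M * (2 * h))) (-5) (-(k * b.M * (2 * h) : ℤ)) Yd p p0‖
    ≤ 6 * (3 * (q : ℝ) / r) ^ kap + η

/-- **the row behind the mark of the base world** -/
def GYmid : Prop := ∀ (b : JBox) (δ σ : ℝ) (h : ℕ) (x1 xs : ℤ), MkH δ σ b h x1 →
  ∀ M : Finset (Bool × ℕ), (∀ q ∈ M, q.2 < b.K) → par M.card = false → -(b.X * (2 * h) : ℤ) < xs →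
  xs ≤ -(b.m * b.M * (2 * h) : ℤ) → ∀ (bse o s : Bool), ∀ q ∈ M, ∀ q0 ∈ M,
  gY b h M bse o s x1 4 xs 0 q q0 = gY b h M bse o s x1 (-5) xs 0 q q0

/-- a tile of the room over the slit is high -/
lemma high_of {δ σ : ℝ} {b : JBox} {h : ℕ} (hb : b.Ok δ σ) (ht : 10 ≤ b.τ * (2 * h : ℤ)) {v : ℤ × ℤ}
    (hh : 0 < h) (hR : InR b (2 * h) v.1 v.2) (h0 : 0 ≤ v.2)
    (hx : v.1 < 0) : 10 ≤ v.2 := by
  have hn : (0 : ℤ) < 2 * h := by positivity
  by_contra hc
  push Not at hc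
  have h4 := (pin_eq (b := b) hb.M0 hn hx).1 rfl
  have h5 : (b.τ : ℤ) * (2 * h) ≤ ((b.τ : ℤ) + pin b (2 * h) v.1) * (2 * h) := by
    have : (0 : ℤ) ≤ (pin b (2 * h) v.1 : ℤ) * (2 * h) := by positivity
    linarith
  have h6 : chn 0 b.M b.τ (v.1 / (2 * h), v.2 / (2 * h)) = some (pin b (2 * h) v.1) :=
    (chn_tile hb.M0 hn).2 ⟨h4, by linarith, by linarith⟩
  rw [hR.2] at h6
  exact absurd h6 (by simp)

/-- **`YOddS`.** -/
theorem yOddS_from {kap : ℝ} (hk : 0 < kap) (hU : VYup kap) (hM : GYmid) {σ : ℝ} (hσ : 0 < σ)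
    (hσ1 : σ ≤ 1) (w : Bool) {b b3 b4 : Bool × ℝ} (hbx : b.2 ∈ Set.Ioo (-σ) 0) (h34 : b3 ≠ b4) {x : ℝ}
    (hx : x < -σ) : YOddS σ w b b3 b4 x := by
  refine yOddS_of hσ hx hbx h34 (A := 12) (by norm_num) hk ?_
  intro B δ hδ hδ1 hB j hj hjm c3 c4 k3 k4 hne k q r a ha hq haq hqr hw hP η hη
  obtain ⟨h0, Hrow⟩ := rowY_holds B δ σ hB hδ1 hσ1 k j hj hjm
    (by
      have : B.m * B.M ≤ k * B.M := by omega
      exact Nat.le_of_mul_le_mul_right this hB.M0)
    (by have := hw.wall; have := hB.M0; omega) (η / 2) (by positivity)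
  refine ⟨max h0 5, fun h hh => ?_⟩
  have hh0 : h0 ≤ h := (le_max_left _ _).trans hh
  have hh5 : 5 ≤ h := (le_max_right _ _).trans hh
  have hh1 : 0 < h := by omega
  have hn : (0 : ℤ) < 2 * h := by positivity
  have hMp : (0 : ℤ) < B.M := by exact_mod_cast hB.M0
  set x1 : ℤ := -((j : ℤ) * B.M * (2 * h)) with hx1
  set xs : ℤ := -(k * B.M * (2 * h) : ℤ) with hxs
  have hτ : (10 : ℤ) ≤ B.τ * (2 * h) := by
    have t1 : (1 : ℤ) ≤ B.τ := by exact_mod_cast hB.τ0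
    have t2 : (10 : ℤ) ≤ 2 * h := by
      have : (5 : ℤ) ≤ h := by exact_mod_cast hh5
      linarith
    nlinarith
  have hmP : B.m ≤ nP B := Pool.Agent.H28.W.m_le hB hσ1 hδ1
  have hthk := thk_of hB hδ1
  have hMn : (0 : ℤ) < B.M * (2 * h) := mul_pos hMp hn
  have N : MkH δ σ B h x1 := by
    refine ⟨hB, hh1, hmP, hthk, hτ, ?_, ?_⟩
    · have h1 : (j : ℤ) * (B.M * (2 * h)) < B.m * (B.M * (2 * h)) :=
        mul_lt_mul_of_pos_right (by exact_mod_cast hjm) hMn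
      rw [hx1]; linarith
    · have h1 : (1 : ℤ) * (B.M * (2 * h)) ≤ j * (B.M * (2 * h)) :=
        mul_le_mul_of_nonneg_right (by exact_mod_cast hj) hMn.le
      have h2 : (2 * h : ℤ) ≤ B.M * (2 * h) := by
        have : (1 : ℤ) ≤ B.M := hMp
        nlinarith
      have h3 : (5 : ℤ) ≤ h := by exact_mod_cast hh5
      rw [hx1]; linarith
  have hmk : (B.m : ℤ) * B.M * (2 * h) ≤ k * B.M * (2 * h) := by
    have : (B.m * B.M : ℤ) ≤ k * B.M := by
      have : B.m * B.M ≤ k * B.M := by omega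
      exact_mod_cast this
    exact mul_le_mul_of_nonneg_right this hn.le
  have hkX : xs + a * (2 * h) < 0 ∧ -(B.X * (2 * h) : ℤ) < xs - a * (2 * h) := by
    have e1 : (a : ℤ) ≤ r := by exact_mod_cast haq.trans hqr
    have e2 : (10 * r : ℤ) ≤ k * B.M := by exact_mod_cast hw.tip
    have e3 : (10 * r + k * B.M : ℤ) ≤ B.X := by exact_mod_cast hw.wall
    have e4 : (2 : ℤ) ≤ a := by exact_mod_cast ha
    have f1 : (a : ℤ) * (2 * h) ≤ r * (2 * h) := mul_le_mul_of_nonneg_right e1 hn.le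
    have f2 : (10 * r : ℤ) * (2 * h) ≤ k * B.M * (2 * h) := mul_le_mul_of_nonneg_right e2 hn.le
    have f3 : (10 * r + k * B.M : ℤ) * (2 * h) ≤ B.X * (2 * h) := mul_le_mul_of_nonneg_right e3 hn.le
    have f4 : (2 : ℤ) * (2 * h) ≤ a * (2 * h) := mul_le_mul_of_nonneg_right e4 hn.le
    rw [hxs]
    constructor <;> linarith
  have hf : fst2 B c3 c4 ∈ ({c3, c4} : Finset (Bool × ℕ)) := by
    unfold fst2
    split_ifs <;> simp
  set p := fst2 B c3 c4 with hp
  have hst : ∀ i < B.K, -(B.X : ℤ) ≤ B.st i := fun i hi => (hB.st_lo i hi).1.le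
  have hX0 : 0 < B.X := X_pos hB
  refine ⟨gY B h {c3, c4} (bsP w b.1) true b.1 x1 (-5) xs 0 p p -
    gY B h {c3, c4} (bsP w b.1) false b.1 x1 (-5) xs 0 p p, ?_, ?_⟩
  · intro v hv hvR hAll
    have U := hAll 0 (-5) x1 (by linarith) (by norm_num) (by linarith) hv
    have hv10 : 10 ≤ v.2 := high_of hB hτ hh1 hvR hv.le
      (by linarith [U.vxe, hkX.1])
    have key : ∀ o, ‖V1 B h b.1 x1 c3 c4 (GY B h w b.1 x1 c3 c4 v o) (zc v) -
        gY B h {c3, c4} (bsP w b.1) o b.1 x1 (-5) xs 0 p p‖ ≤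
        6 * (3 * (q : ℝ) / r) ^ kap + η / 2 := by
      intro o
      rw [V1_VG]
      exact hU B δ σ hB hδ1 h k q r a (by omega) ha hq haq hqr hw hP j hj hjm N c3 c4 k3 k4 hne w o b.1 0 v
        (Or.inl rfl) hv10 U p hf p hf (η / 2)
        (Hrow h hh0 {c3, c4} (by
          intro c hc
          simp only [mem_insert, mem_singleton] at hc
          rcases hc with rfl | rfl
          · exact k3
          · exact k4) (bsP w b.1) o b.1 0 (Or.inl rfl) p hf p hf)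
    have e1 : Yf B h w b.1 x1 c3 c4 v - (gY B h {c3, c4} (bsP w b.1) true b.1 x1 (-5) xs 0 p p -
        gY B h {c3, c4} (bsP w b.1) false b.1 x1 (-5) xs 0 p p) =
        (V1 B h b.1 x1 c3 c4 (GY B h w b.1 x1 c3 c4 v true) (zc v) -
          gY B h {c3, c4} (bsP w b.1) true b.1 x1 (-5) xs 0 p p) -
        (V1 B h b.1 x1 c3 c4 (GY B h w b.1 x1 c3 c4 v false) (zc v) -
          gY B h {c3, c4} (bsP w b.1) false b.1 x1 (-5) xs 0 p p) := by
      unfold Yf; ring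
    rw [e1]
    refine (norm_sub_le _ _).trans ?_
    linarith [key true, key false]
  · intro v hv hvR hAll
    have hv' : (-1 : ℤ) < (rp v).2 := by
      show (-1 : ℤ) < -1 - v.2
      linarith
    have U := hAll (-1) (-5) x1 (by linarith) (by norm_num) (by linarith) hv'
    have hv0 : 0 ≤ (rp v).2 := by omega
    have hv10 : 10 ≤ (rp v).2 := high_of hB hτ hh1 hvR hv0
      (by linarith [U.vxe, hkX.1])
    have hvx : v.1 ≤ B.X * (2 * (h : ℤ)) := by
      have a1 := U.vxe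
      have a4 : (rp v).1 = v.1 := rfl
      have a5 : (0 : ℤ) < B.X * (2 * h) := mul_pos (by exact_mod_cast hX0) hn
      linarith [hkX.1]
    have m3 : rm c3 ≠ rm c4 := fun g => hne (rm_inj g)
    have hf' : rm p ∈ ({rm c3, rm c4} : Finset (Bool × ℕ)) := by
      rw [← image_rm2]
      exact mem_image_of_mem rm hf
    have key : ∀ o, ‖V1 B h b.1 x1 c3 c4 (GY B h w b.1 x1 c3 c4 v o) (zc v) -
        gY B h {c3, c4} (bsP w b.1) (!o) b.1 x1 (-5) xs 0 p p‖ ≤
        6 * (3 * (q : ℝ) / r) ^ kap + η / 2 := by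
      intro o
      rw [V1_VG, ← VG_mir hst hh1 hB.H0 hX0 w b.1 x1 hne hvx o _ _]
      have g1 := hU B δ σ hB hδ1 h k q r a (by omega) ha hq haq hqr hw hP j hj hjm N (rm c3) (rm c4) k3 k4
        m3 w o (!b.1) (-1) (rp v) (Or.inr rfl) hv10 U (rm p) hf' (rm p) hf' (η / 2)
        (Hrow h hh0 {rm c3, rm c4} (by
          intro c hc
          simp only [mem_insert, mem_singleton] at hc
          rcases hc with rfl | rfl
          · exact k3
          · exact k4) (bsP w (!b.1)) o (!b.1) (-1) (Or.inr rfl) (rm p) hf' (rm p) hf')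
      have g2 : gY B h {rm c3, rm c4} (bsP w (!b.1)) o (!b.1) x1 (-5) xs (-1) (rm p) (rm p) =
          gY B h {c3, c4} (bsP w b.1) (!o) b.1 x1 (-5) xs 0 p p := by
        have hH4 : (10 : ℤ) ≤ B.H * (2 * h) := by
          have h1 : (B.τ : ℤ) ≤ B.H := by
            linarith [hthk, (Int.natCast_nonneg (nP B) : (0 : ℤ) ≤ nP B)]
          have := mul_le_mul_of_nonneg_right h1 hn.le
          linarith
        have h1 := gY_mir (x1 := x1) (y0 := 4) (Yd := 0) (xs := xs) hB hh1 hmP hthk.le hxs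
          (by rw [hxs]; linarith) (by
            have := N.x1l
            have h5 : (B.m : ℤ) * B.M * (2 * h) ≤ B.X * (2 * h) := N.mX
            linarith) (by linarith) (by linarith) (bsP w b.1) o b.1 {c3, c4} p p
        rw [bsP_ok2 w b.1 hne 0, image_rm2] at h1
        have e5 : (-1 : ℤ) - 4 = -5 := by norm_num
        have e6 : (-1 : ℤ) - 0 = -1 := by norm_num
        rw [e5, e6] at h1
        rw [h1]
        refine hM B δ σ h x1 xs N {c3, c4} (by
          intro c hc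
          simp only [mem_insert, mem_singleton] at hc
          rcases hc with rfl | rfl
          · exact k3
          · exact k4) (Pool.Agent.H45.W.par2 hne) ?_ (by rw [hxs]; linarith) _ _ _ p hf p hf
        have : (0 : ℤ) ≤ a * (2 * h) := by positivity
        linarith [hkX.2]
      rw [← g2]
      exact g1
    have e1 : Yf B h w b.1 x1 c3 c4 v + (gY B h {c3, c4} (bsP w b.1) true b.1 x1 (-5) xs 0 p p -
        gY B h {c3, c4} (bsP w b.1) false b.1 x1 (-5) xs 0 p p) =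
        (V1 B h b.1 x1 c3 c4 (GY B h w b.1 x1 c3 c4 v true) (zc v) -
          gY B h {c3, c4} (bsP w b.1) (!true) b.1 x1 (-5) xs 0 p p) -
        (V1 B h b.1 x1 c3 c4 (GY B h w b.1 x1 c3 c4 v false) (zc v) -
          gY B h {c3, c4} (bsP w b.1) (!false) b.1 x1 (-5) xs 0 p p) := by
      unfold Yf
      rw [Bool.not_true, Bool.not_false]; ring
    rw [e1]
    refine (norm_sub_le _ _).trans ?_
    linarith [key true, key false]

end Pool.Agent.H71.W
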