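import Mathlib
import Pool.Agent.H71.W.J6M
import Pool.Agent.H55.W.JBlkE

set_option autoImplicit false
open Finset hiding val

/-! # J6: `BlkX` from 55's block

`blkX_holds`. -/

namespace Pool.Agent.H71.W

open Pool.Agent.H61.W Pool.Agent.H6.W Pool.Agent.H58.W Pool.Agent.H21.W Pool.Agent.H50.W
open Pool.Agent.H82.W Pool.Agent.H13.W Pool.Agent.H55.W
open Pool.Agent.H33.Q1 (lt tt TL ct mem_TL lt_odd lt_inj)

theorem blkX_holds : ∃ kap : ℝ, 0 < kap ∧ BlkX kap := by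
  obtain ⟨kap, hk, H⟩ := jBlk_prob
  refine ⟨kap, hk, ?_⟩
  intro b δ σ hb hδ h k q r a hh ha hq haq hqr hw hP M hM bse o Yd v hYd U
  have hh0 : 0 < h := by omega
  have t1 : (1 : ℤ) ≤ b.τ := by exact_mod_cast hb.τ0
  have t2 : (4 : ℤ) ≤ 2 * h := by
    have : (2 : ℤ) ≤ h := by exact_mod_cast hh
    linarith
  have hτ : (4 : ℤ) ≤ b.τ * (2 * h) := by nlinarith
  have J : JB δ σ b h k q r (-3) (-(k * b.M * (2 * h) : ℤ)) (-(k * b.M * (2 * h) : ℤ) - a * (2 * h))
      (-(k * b.M * (2 * h) : ℤ) + a * (2 * h)) (a * (2 * h)) (a * (2 * h)) Yd := by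
    refine ⟨hb, hδ, hh, hq, hqr, hw, hP, rfl, by linarith, ?_, ?_, le_rfl, le_rfl, ?_, by positivity⟩
    · rcases hYd with rfl | rfl <;> norm_num
    · rcases hYd with rfl | rfl <;> linarith
    · have e1 : (a : ℤ) ≤ q := by exact_mod_cast haq
      have e2 : (2 : ℤ) ≤ a := by exact_mod_cast ha
      have e3 : (a : ℤ) * h ≤ q * h := mul_le_mul_of_nonneg_right e1 (by positivity)
      have e4 : (2 : ℤ) * h ≤ a * h := mul_le_mul_of_nonneg_right e2 (by positivity)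
      linarith
  set xs : ℤ := -(k * b.M * (2 * h) : ℤ) with hxs
  set O := O2 b h (xL b h) (-3) (xs + a * (2 * h)) (xs - a * (2 * h)) (a * (2 * h)) Yd v with hOd
  have hO : OutB b h M (Wl b (2 * h) (colM bse M (some Yd))) o true (xL b h) (-3) xs Yd
      (xs - a * (2 * h)) (xs + a * (2 * h)) (a * (2 * h)) O := fun e => U.mem_O2 M _ o true
  have hL : ∀ e ∈ Wl b (2 * h) (colM bse M (some Yd)), e ∉ b.B h := fun e he => Wl_notMem he hh0
  refine ⟨BX b h k q r O (WBX b h M bse o true (-3) xs Yd).b, ?_, ?_⟩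
  · intro ω2 h1 h2
    refine J.blkX' (x1 := xL b h) ?_ hL hO ?_ _ _ _ ω2 h1 h2
    · unfold xL
      linarith
    · intro i
      obtain ⟨g1, g2⟩ := J.mark_far i.1.1
      unfold Far yM fM
      rcases i.2 with _ | _
      · exact g2
      · exact g1
  · exact (H δ σ b h k q r (-3) xs _ _ _ _ Yd J M _ O o true (xL b h) hO).1

/-- **the field `xOdd` from the one row terms** -/
theorem xOdd_of_row (hR : RowX) {σ : ℝ} (hσ : 0 < σ) (hσ1 : σ ≤ 1) (S : Setup σ) : S.XOdd := by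
  obtain ⟨kap, hk, hB⟩ := blkX_holds
  exact xOdd_of_blk hk hB hR hσ hσ1 S

end Pool.Agent.H71.W
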