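import Mathlib
import Pool.Agent.H71.W.J6N
import Pool.Agent.H28.W.JRowU

set_option autoImplicit false
open Finset hiding val

/-! # J6: `XOdd` is proved

`rowX` : the one row terms (28's `row_J6`); `xOdd`. -/

namespace Pool.Agent.H71.W

open Pool.Agent.H61.W Pool.Agent.H6.W Pool.Agent.H58.W Pool.Agent.H21.W Pool.Agent.H50.W

theorem rowX : RowX := by
  intro b δ σ hb hδ hσ k hmk hkX η hη
  obtain ⟨h0, H⟩ := Pool.Agent.H28.W.row_J6 hb hδ hσ hη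
  refine ⟨h0, fun h hh M hM hc bse o Yd hYd q hq => ?_⟩
  refine H h hh M bse o k Yd _ hM ?_ rfl ?_ q hq
  · have hX := X_eq hb
    have h1 : (k * b.M : ℤ) ≤ nP b * b.M := by
      rw [← hX]
      have : (k * b.M + 2 : ℤ) ≤ b.X := by exact_mod_cast hkX
      linarith
    have h2 : k * b.M ≤ nP b * b.M := by exact_mod_cast h1
    exact Nat.le_of_mul_le_mul_right h2 hb.M0
  · have t1 : (1 : ℤ) ≤ b.τ := by exact_mod_cast hb.τ0
    have t2 : (0 : ℤ) ≤ h := by positivity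
    have t3 : (2 * h : ℤ) ≤ b.τ * (2 * h) := by nlinarith
    rcases hYd with rfl | rfl <;> linarith

/-- **`XOdd`.** -/
theorem xOdd {σ : ℝ} (hσ : 0 < σ) (hσ1 : σ ≤ 1) (S : Setup σ) : S.XOdd := xOdd_of_row rowX hσ hσ1 S

/-- scale form, for 61's `Sc` -/
theorem xOddS {σ : ℝ} (hσ : 0 < σ) (hσ1 : σ ≤ 1) (w : Bool) {c b3 b4 : Bool × ℝ} (h1 : c ≠ b3)
    (h2 : c ≠ b4) (h3 : b3 ≠ b4) {x : ℝ} (hx : x < -σ) :
    Pool.Agent.H87.Fld.XOddS σ w c b3 b4 x := by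
  obtain ⟨kap, hk, hB⟩ := blkX_holds
  exact xOddS_of hk hB rowX hσ hσ1 w h1 h2 h3 hx

end Pool.Agent.H71.W
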